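import Pool.Agent.Lib_MP_1209e6_tu.P2
import Pool.Agent.Lib_MP_1209e6_ab.K3

/-! PIECE P3: independence in the cone. -/

set_option autoImplicit false

namespace Pool.Agent.AbPencil

open Pool.Agent.AbFib

private theorem transcendental_vE (K : Type) [Field K] [Algebra ℂ K] : Transcendental K (vE K) := by
  rw [transcendental_iff]
  intro p hp
  by_contra h
  refine eval₂_vE_ne K h ?_
  rw [← hp, Polynomial.aeval_def]
  rfl

/-- Proof. `ℂ(tC t) = ℂ(E, t)` (`E = vE K`), and `E` is transcendental over `K`: a relation over `ℂ(tC t)` between the `jE K (s i)`, with denominators cleared, is a polynomial in `E` with coefficients polynomials in `t` and `s`; all of them vanish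
(`eval₂_vE_ne` in `ab/K1`), so one of them gives a nonzero relation between the `s i` over `ℂ(t)`. -/
theorem indep_cone {K : Type} [Field K] [Algebra ℂ K] {n g : ℕ} (t : Fin n → K) (s : Fin g → K)
    (hs : AlgebraicIndependent (IntermediateField.adjoin ℂ (Set.range t)) s) :
    AlgebraicIndependent (IntermediateField.adjoin ℂ (Set.range (tC t))) fun i => jE K (s i) := by
  classical
  let k : IntermediateField ℂ K := IntermediateField.adjoin ℂ (Set.range t)
  have hy : AlgebraicIndependent K (fun _ : Unit => vE K) := by
    rw [algebraicIndependent_unique_type_iff]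
    exact transcendental_vE K
  have h1 : AlgebraicIndependent k (Sum.elim (fun _ : Unit => vE K) (algebraMap K (KE K) ∘ s)) :=
    AlgebraicIndependent.sumElim_comp hs hy
  have h2 : AlgebraicIndependent k (Sum.elim (algebraMap K (KE K) ∘ s) (fun _ : Unit => vE K)) := by
    have h3 := h1.comp Sum.swap (Equiv.sumComm _ _).injective
    convert h3 using 1
    ext (_ | _) <;> rfl
  have h3 := (AlgebraicIndependent.sumElim_iff.1 h2).2
  have h4 := IntermediateField.algebraicIndependent_adjoin_iff.2 h3
  let M : IntermediateField k (KE K) := IntermediateField.adjoin k (Set.range fun _ : Unit => vE K)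
  have hE : vE K ∈ M := IntermediateField.subset_adjoin k _ ⟨(), rfl⟩
  have hle : IntermediateField.adjoin ℂ (Set.range (tC t)) ≤ M.restrictScalars ℂ := by
    rw [IntermediateField.adjoin_le_iff]
    rintro _ ⟨a, rfl⟩
    change tC t a ∈ M
    refine Fin.cases ?_ (fun a => ?_) a
    · exact hE
    · change vE K * jE K (t a) ∈ M
      refine mul_mem hE ?_
      exact algebraMap_mem M (⟨t a, IntermediateField.subset_adjoin ℂ _ ⟨a, rfl⟩⟩ : k)
  let i : IntermediateField.adjoin ℂ (Set.range (tC t)) →+* M :=
    { toFun := fun z => ⟨z.1, hle z.2⟩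
      map_one' := rfl
      map_mul' := fun _ _ => rfl
      map_zero' := rfl
      map_add' := fun _ _ => rfl }
  let _ : Algebra (IntermediateField.adjoin ℂ (Set.range (tC t))) M := i.toAlgebra
  have : IsScalarTower (IntermediateField.adjoin ℂ (Set.range (tC t))) M (KE K) :=
    IsScalarTower.of_algebraMap_eq fun _ => rfl
  exact AlgebraicIndependent.restrictScalars (K := M) i.injective h4

end Pool.Agent.AbPencil
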