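import Pool.Agent.Lib_MP_1209e6_tu.E2
import Pool.Agent.Lib_MP_1209e6_tu.P3
import Pool.Agent.Lib_MP_1209e6_tv.A6

/-! PIECE AC: curves in abelian fibrations with given jets which avoid a set of codimension two. -/

set_option autoImplicit false

open Filter Topology

namespace Pool.Agent.AbPencil

open Pool.Agent.Campana Pool.Agent.CampanaFlow Pool.Agent.AbFib

/-- a meromorphic function on the plane which is not zero near one point is nonzero near each point -/
private theorem AC_mer {f : ℂ → ℂ} (hf : ∀ z, MeromorphicAt f z) {z₁ : ℂ}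
    (h : ¬ ∀ᶠ w in 𝓝[≠] z₁, f w = 0) (z₀ : ℂ) : ∀ᶠ w in 𝓝[≠] z₀, f w ≠ 0 := by
  have h1 : meromorphicOrderAt f z₁ ≠ ⊤ := fun h0 => h (meromorphicOrderAt_eq_top_iff.1 h0)
  have hon : MeromorphicOn f Set.univ := fun z _ => hf z
  have h2 := (hon.exists_meromorphicOrderAt_ne_top_iff_forall isConnected_univ).1
    ⟨⟨z₁, Set.mem_univ _⟩, h1⟩ ⟨z₀, Set.mem_univ _⟩
  exact (meromorphicOrderAt_ne_top_iff_eventually_ne_zero (hf z₀)).1 h2

/-- polynomials in meromorphic functions -/
private theorem AC_poly {σ : Type} {g : ℂ → σ → ℂ} {z : ℂ}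
    (hg : ∀ s, MeromorphicAt (fun w => g w s) z) (p : MvPolynomial σ ℂ) :
    MeromorphicAt (fun w => MvPolynomial.aeval (g w) p) z := by
  induction p using MvPolynomial.induction_on with
  | C a =>
    simp only [MvPolynomial.aeval_C]
    exact MeromorphicAt.const _ _
  | add p q hp hq =>
    simp only [map_add]
    exact hp.add hq
  | mul_X p s hp =>
    simp only [map_mul, MvPolynomial.aeval_X]
    exact hp.mul (hg s)

/-- polynomials in continuous functions -/
private theorem AC_cont {σ : Type} {g : ℂ → σ → ℂ} {z : ℂ}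
    (hg : ∀ s, ContinuousAt (fun w => g w s) z) (p : MvPolynomial σ ℂ) :
    ContinuousAt (fun w => MvPolynomial.aeval (g w) p) z := by
  induction p using MvPolynomial.induction_on with
  | C a =>
    simp only [MvPolynomial.aeval_C]
    exact continuousAt_const
  | add p q hp hq =>
    simp only [map_add]
    exact hp.add hq
  | mul_X p s hp =>
    simp only [map_mul, MvPolynomial.aeval_X]
    exact hp.mul (hg s)

private theorem AC_jE {K : Type} [Field K] [Algebra ℂ K] {σ : Type} (f : σ → K)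
    (p : MvPolynomial σ ℂ) :
    MvPolynomial.aeval (fun s => jE K (f s)) p = jE K (MvPolynomial.aeval f p) := by
  have h := MvPolynomial.comp_aeval_apply (B := KE K) f (jE K) p
  exact h.symm

private theorem AC_vE {K : Type} [Field K] [Algebra ℂ K] : vE K ≠ 0 := by
  have h := eval₂_vE_ne K (p := Polynomial.X) Polynomial.X_ne_zero
  rwa [Polynomial.eval₂_X] at h

/-- the homogenized relation at the generic point -/
private theorem AC_homog {K : Type} [Field K] [Algebra ℂ K] {n N : ℕ} (t : Fin n → K)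
    (x : Fin (N + 1) → K) (p : MvPolynomial (Fin n ⊕ Fin (N + 1)) ℂ)
    (hp : MvPolynomial.aeval (co t x 0) p ≠ 0) :
    ∃ (p' : MvPolynomial (Fin (n + 1) ⊕ Fin (N + 1)) ℂ) (d : ℕ),
      MvPolynomial.aeval (co (tC t) (xC x) 0) (p' * MvPolynomial.X (Sum.inl 0)) ≠ 0 ∧
      ∀ (U : Fin (n + 1) → ℂ) (u : Fin n → ℂ) (y : Fin (N + 1) → ℂ),
        (∀ a : Fin n, U a.succ = U 0 * u a) →
        MvPolynomial.aeval (Sum.elim U y) p' = U 0 ^ d * MvPolynomial.aeval (Sum.elim u y) p := by
  obtain ⟨p', d, h⟩ := homog_cone p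
  refine ⟨p', d, ?_, fun U u y hU => ?_⟩
  · have hco : co (tC t) (xC x) 0 =
        Sum.elim (cone (vE K) fun a => jE K (t a)) fun l => jE K (x l / x 0) := by
      unfold co tC xC
      congr 1
      funext l
      rw [map_div₀]
    have hcoj : (Sum.elim (fun a => jE K (t a)) fun l => jE K (x l / x 0)) =
        fun s => jE K (co t x 0 s) := by
      funext s
      rcases s with a | l <;> rfl
    rw [map_mul, MvPolynomial.aeval_X, hco, h, hcoj, AC_jE]
    refine mul_ne_zero (mul_ne_zero (pow_ne_zero _ AC_vE) ?_) ?_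
    · intro h0
      exact hp ((jE K).toRingHom.injective (h0.trans (map_zero _).symm))
    · exact AC_vE
  · have h1 : U = cone (U 0) u := by
      funext a
      refine Fin.cases ?_ (fun a => ?_) a
      · rfl
      · exact hU a
    have h2 := h (U 0) u y
    rw [← h1] at h2
    exact h2

/-- polynomials in analytic functions -/
private theorem AC_an {σ : Type} {g : ℂ → σ → ℂ} {z : ℂ}
    (hg : ∀ s, AnalyticAt ℂ (fun w => g w s) z) (p : MvPolynomial σ ℂ) :
    AnalyticAt ℂ (fun w => MvPolynomial.eval (g w) p) z := by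
  induction p using MvPolynomial.induction_on with
  | C a =>
    simp only [MvPolynomial.eval_C]
    exact analyticAt_const
  | add p q hp hq =>
    simp only [map_add]
    exact hp.add hq
  | mul_X p s hp =>
    simp only [map_mul, MvPolynomial.eval_X]
    exact hp.mul (hg s)

/-- coefficients as functions on the curve -/
private noncomputable def AC_rho {n : ℕ} (u : ℂ → Fin n → ℂ) : MvPolynomial (Fin n) ℂ →+* (ℂ → ℂ) :=
  RingHom.pi fun w => MvPolynomial.eval (u w)

private theorem AC_qe {n e : ℕ} (u : ℂ → Fin n → ℂ)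
    (Q : MvPolynomial (Fin e) (MvPolynomial (Fin n) ℂ)) (z : ℂ) (T : Fin e → ℂ) :
    qe (Q.map (AC_rho u)) z T = Q.eval₂ (MvPolynomial.eval (u z)) T := by
  unfold qe
  rw [MvPolynomial.map_map, MvPolynomial.eval_map]
  rfl

private theorem AC_coeff {n e : ℕ} (u : ℂ → Fin n → ℂ)
    (Q : MvPolynomial (Fin e) (MvPolynomial (Fin n) ℂ)) (α : Fin e →₀ ℕ) :
    (Q.map (AC_rho u)).coeff α = fun w => MvPolynomial.eval (u w) (Q.coeff α) := by
  rw [MvPolynomial.coeff_map]
  rfl

/-- polynomials with polynomial coefficients in analytic functions -/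
private theorem AC_eval₂ {n e : ℕ} {u : ℂ → Fin n → ℂ} {T : ℂ → Fin e → ℂ} {z : ℂ}
    (hu : AnalyticAt ℂ u z) (hT : ∀ m, AnalyticAt ℂ (fun w => T w m) z)
    (Q : MvPolynomial (Fin e) (MvPolynomial (Fin n) ℂ)) :
    AnalyticAt ℂ (fun w => Q.eval₂ (MvPolynomial.eval (u w)) (T w)) z := by
  induction Q using MvPolynomial.induction_on with
  | C a =>
    simp only [MvPolynomial.eval₂_C]
    exact AC_an (analyticAt_pi_iff.1 hu) a
  | add p q hp hq =>
    simp only [MvPolynomial.eval₂_add]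
    exact hp.add hq
  | mul_X p s hp =>
    simp only [MvPolynomial.eval₂_mul, MvPolynomial.eval₂_X]
    exact hp.mul (hT s)

/-- Proof. Copy the proof of `ab_curve` (`tv/A6.lean`, with its private lemmas), with `ab_entire_avoid` (`tu/E2.lean`) for `tC t`, `xC x`, `cone_abelian t x h`, `U` in place of `ab_entire`. It gives `g`; the first property: if
`s : Fin (g + 1) → K` is independent over `ℂ(t)` then `jE K (s i)` are independent over `ℂ(tC t)` (`indep_cone`, `tu/P3`). For `g = e + 1` and `Q`: let `q j κ = (Q j κ).map ρ`, where `ρ : MvPolynomial (Fin n) ℂ →+* (ℂ → ℂ)`,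
`ρ p = fun w => MvPolynomial.eval (u w) p`. Choose for each `j, κ` an exponent `α` with `aeval t ((Q j κ).coeff α) ≠ 0` and let `Zq` be the set of the points `z` at which `u` is not analytic or where one of these
`eval (u z) ((Q j κ).coeff α)` is zero; it is discrete (`hu : IsDenseCurve t u`; a meromorphic function is analytic near `z` except perhaps at `z`; `dense_ne`, `ab/N2`, for the zeros). Off `Zq` the coefficients `w ↦ eval (u w) p` are analytic and
`(q j κ).map (eval z) ≠ 0`. `ab_entire_avoid` gives `Bb` and `b`; `y w l = V w l / V w 0` as before. For `z ∉ Bb`: `u` is analytic at `z`, and `GoodPt q z (b z)` gives (`goodPt_iff` with `b z = pm (V z)`) `j`, `κ` with `V z j ≠ 0` and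
`qe (q j κ) z (V z (κ ·) / V z j) ≠ 0`. Near `z` (punctured) `y w l / y w j = V w l / V w j` is holomorphic at `z`, and `w ↦ (Q j κ).eval₂ (eval (u w)) (V w (κ ·) / V w j)` is analytic at `z` (`qe_cont`-like; or as a polynomial in analytic
functions) with a nonzero value, `qe (q j κ) w T = (Q j κ).eval₂ (eval (u w)) T` (`MvPolynomial.eval_map`, `eval₂_map`…): its order is zero. -/
theorem ab_curve_avoid {K : Type} [Field K] [Algebra ℂ K] {n N : ℕ} (t : Fin n → K)
    (x : Fin (N + 1) → K) (h : IsAbelianFibration t x) (u : ℂ → Fin n → ℂ) (hu : IsDenseCurve t u)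
    (Zb : Set ℂ) (hZ : ∀ z, ∀ᶠ w in 𝓝[≠] z, w ∉ Zb) (y₀ : ℂ → ℂ → Fin (N + 1) → ℂ)
    (hy₀ : ∀ z l, MeromorphicAt (fun w => y₀ z w l) z)
    (hrel : ∀ z, Rel z (co t x 0) fun w => Sum.elim (u w) (y₀ z w)) (Λ : ℂ → ℤ) :
    ∃ g : ℕ, (∀ s : Fin (g + 1) → K,
        ¬ AlgebraicIndependent (IntermediateField.adjoin ℂ (Set.range t)) s) ∧
      ∀ e, g = e + 1 →
      ∀ Q : Fin (N + 1) → (Fin e → Fin (N + 1)) → MvPolynomial (Fin e) (MvPolynomial (Fin n) ℂ),
      (∀ j κ, (Q j κ).map (MvPolynomial.aeval t : MvPolynomial (Fin n) ℂ →ₐ[ℂ] K).toRingHom ≠ 0) →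
      ∃ (Bb : Set ℂ) (y : ℂ → Fin (N + 1) → ℂ), Zb ⊆ Bb ∧ (∀ z, ∀ᶠ w in 𝓝[≠] z, w ∉ Bb) ∧
        (∀ l z, MeromorphicAt (fun w => y w l) z) ∧
        (∀ (p : MvPolynomial (Fin n ⊕ Fin (N + 1)) ℂ) (z : ℂ),
          MvPolynomial.aeval (co t x 0) p = 0 ↔
            ∀ᶠ w in 𝓝[≠] z, MvPolynomial.aeval (Sum.elim (u w) (y w)) p = 0) ∧
        (∀ z ∈ Bb, ∀ l, (Λ z : WithTop ℤ) ≤ meromorphicOrderAt (fun w => y w l - y₀ z w l) z) ∧
        ∀ z, z ∉ Bb → (∀ i, 0 ≤ meromorphicOrderAt (fun w => u w i) z) ∧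
          ∃ (j : Fin (N + 1)) (κ : Fin e → Fin (N + 1)),
            (∀ l, 0 ≤ meromorphicOrderAt (fun w => y w l / y w j) z) ∧
            meromorphicOrderAt (fun w => (Q j κ).eval₂ (MvPolynomial.eval (u w))
              fun m => y w (κ m) / y w j) z ≤ 0 := by
  classical
  have hrep := fun z => local_rep t x h.ne_zero z u (y₀ z) (hy₀ z) (hrel z)
  choose v₀ hv₀a hv₀0 hv₀e using hrep
  have hclose := fun z => close_transfer z (v₀ z) (hv₀a z) (hv₀0 z)
    ((hv₀e z).mono fun w hw => hw.2.1) (Λ z)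
  choose k hk using hclose
  obtain ⟨U, hU, hUu, hUd⟩ := dense_cone hu
  have hfc : ∀ w, U w 0 ≠ 0 → (∀ a, U w a.succ = U w 0 * u w a) →
      Fibre (tC t) (xC x) (U w) = Fibre t x (u w) := by
    intro w h1 h2
    have h3 : (fun a : Fin n => U w a.succ / U w 0) = u w := by
      funext a
      rw [h2 a, mul_div_cancel_left₀ _ h1]
    rw [fibre_cone t x (U w) h1, h3]
  obtain ⟨g, hg, hE⟩ := ab_entire_avoid (tC t) (xC x) (cone_abelian t x h) U hU hUd v₀ (fun z => by
    refine ⟨hv₀a z, hv₀0 z, ?_⟩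
    filter_upwards [hv₀e z, hUu z] with w h1 h2
    rw [hfc w h2.1 h2.2]
    exact h1.1) Zb hZ k
  refine ⟨g, fun s hs => hg _ (indep_cone t s hs), fun e he Q hQ => ?_⟩
  -- the exceptional points of the polynomials
  have hα : ∀ j κ, ∃ α : Fin e →₀ ℕ, MvPolynomial.aeval t ((Q j κ).coeff α) ≠ 0 := by
    intro j κ
    obtain ⟨α, hα⟩ := MvPolynomial.ne_zero_iff.1 (hQ j κ)
    rw [MvPolynomial.coeff_map] at hα
    exact ⟨α, hα⟩
  choose α hα using hα
  obtain ⟨Bb, b, hZB, hqB, hBd, hb, hgood, hbd⟩ := hE e he (fun j κ => (Q j κ).map (AC_rho u))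
    ({z | ¬ AnalyticAt ℂ u z} ∪ {z | ∃ j κ, MvPolynomial.eval (u z) ((Q j κ).coeff (α j κ)) = 0})
    (by
      intro z
      have h1 : ∀ᶠ w in 𝓝[≠] z, ∀ j κ, MvPolynomial.eval (u w) ((Q j κ).coeff (α j κ)) ≠ 0 := by
        rw [Filter.eventually_all]
        intro j
        rw [Filter.eventually_all]
        intro κ
        exact dense_ne hu _ (hα j κ) z
      filter_upwards [h1, (hu.1 z).eventually_analyticAt] with w h2 h3
      rintro (h4 | ⟨j, κ, h4⟩)
      · exact h4 h3
      · exact h2 j κ h4)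
    (by
      intro j κ β z hz
      have h1 : AnalyticAt ℂ u z := by
        by_contra h2
        exact hz (Or.inl h2)
      rw [AC_coeff]
      exact AC_an (analyticAt_pi_iff.1 h1) _)
    (by
      intro j κ z hz h0
      apply hz
      refine Or.inr ⟨j, κ, ?_⟩
      have h1 := congrArg (MvPolynomial.coeff (α j κ)) h0
      rw [MvPolynomial.coeff_map, AC_coeff, MvPolynomial.coeff_zero] at h1
      exact h1)
  choose V hVa hV0 hVe hVc using hb
  -- the coordinates of `b`
  let rp : ℂ → Fin (N + 1) → ℂ := fun w => Classical.choose (exists_pm (b w))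
  have hrp : ∀ w, b w = pm (rp w) := fun w => Classical.choose_spec (exists_pm (b w))
  have hy : ∀ w (v : Fin (N + 1) → ℂ), b w = pm v → ∀ l, rp w l / rp w 0 = v l / v 0 := by
    intro w v hv l
    obtain ⟨c, hc, hcv⟩ := pm_eq_iff.1 ((hrp w).symm.trans hv)
    rw [hcv, Pi.smul_apply, Pi.smul_apply, smul_eq_mul, smul_eq_mul, mul_div_mul_left _ _ hc]
  have hyV : ∀ z, ∀ᶠ w in 𝓝 z, ∀ l, rp w l / rp w 0 = V z w l / V z w 0 := by
    intro z
    filter_upwards [hVe z] with w hw
    exact hy w _ hw.2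
  have hVl : ∀ z l, AnalyticAt ℂ (fun w => V z w l) z := fun z => analyticAt_pi_iff.1 (hVa z)
  have hymer : ∀ l z, MeromorphicAt (fun w => rp w l / rp w 0) z := by
    intro l z
    refine ((hVl z l).meromorphicAt.div (hVl z 0).meromorphicAt).congr ?_
    filter_upwards [(hyV z).filter_mono nhdsWithin_le_nhds] with w hw
    exact (hw l).symm
  have humer : ∀ a z, MeromorphicAt (fun w => u w a) z := fun a z => by
    obtain ⟨m, hm⟩ := hu.1 z
    exact ⟨m, analyticAt_pi_iff.1 hm a⟩
  have hpmer : ∀ (p : MvPolynomial (Fin n ⊕ Fin (N + 1)) ℂ) (z : ℂ), MeromorphicAt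
      (fun w => MvPolynomial.aeval (Sum.elim (u w) fun l => rp w l / rp w 0) p) z := by
    intro p z
    refine AC_poly (fun s => ?_) p
    rcases s with a | l
    · exact humer a z
    · exact hymer l z
  -- a nonzero function is nonzero near some point
  have hne : ∀ p : MvPolynomial (Fin n ⊕ Fin (N + 1)) ℂ, MvPolynomial.aeval (co t x 0) p ≠ 0 →
      ∃ z₁, V z₁ z₁ 0 ≠ 0 ∧ ¬ ∀ᶠ w in 𝓝[≠] z₁,
        MvPolynomial.aeval (Sum.elim (u w) fun l => rp w l / rp w 0) p = 0 := by
    intro p hp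
    obtain ⟨p', d, hp1, hp2⟩ := AC_homog t x p hp
    obtain ⟨z₁, v, hv1, hv2, hv3, hv4⟩ := hbd _ hp1
    rw [map_mul] at hv4
    have hv5 := left_ne_zero_of_mul hv4
    obtain ⟨c, hc, hcv⟩ := pm_eq_iff.1 ((hVe z₁).self_of_nhds.2.symm.trans hv3)
    have hVz0 : V z₁ z₁ 0 = c := by
      rw [hcv, Pi.smul_apply, hv2, smul_eq_mul, mul_one]
    have hVne : V z₁ z₁ 0 ≠ 0 := by
      rw [hVz0]
      exact hc
    refine ⟨z₁, hVne, fun hcon => ?_⟩
    have hcont : ContinuousAt (fun w => MvPolynomial.aeval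
        (Sum.elim (U w) fun l => V z₁ w l / V z₁ w 0) p') z₁ := by
      refine AC_cont (fun s => ?_) p'
      rcases s with a | l
      · exact (continuous_apply a).continuousAt.comp (hU z₁).continuousAt
      · exact (hVl z₁ l).continuousAt.div (hVl z₁ 0).continuousAt hVne
    have hval : MvPolynomial.aeval (Sum.elim (U z₁) fun l => V z₁ z₁ l / V z₁ z₁ 0) p' ≠ 0 := by
      have h1 : (fun l => V z₁ z₁ l / V z₁ z₁ 0) = v := by
        funext l
        rw [hVz0, hcv, Pi.smul_apply, smul_eq_mul, mul_div_cancel_left₀ _ hc]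
      rw [h1]
      exact hv5
    obtain ⟨w, hw1, hw2, hw3, hw4⟩ := (hcon.and ((hUu z₁).and
      (((hcont.eventually_ne hval).and (hyV z₁)).filter_mono nhdsWithin_le_nhds))).exists
    apply hw3
    have h2 : (fun l => V z₁ w l / V z₁ w 0) = fun l => rp w l / rp w 0 := by
      funext l
      exact (hw4 l).symm
    rw [h2, hp2 (U w) (u w) _ hw2.2, hw1, mul_zero]
  have hV0ne : ∀ z, ∀ᶠ w in 𝓝[≠] z, V z w 0 ≠ 0 := by
    obtain ⟨z₁, hz₁, -⟩ := hne 1 (by rw [map_one]; exact one_ne_zero)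
    have h1 : ¬ ∀ᶠ w in 𝓝[≠] z₁, rp w 0 / rp w 0 = 0 := by
      intro hcon
      obtain ⟨w, hw1, hw2, hw3⟩ := (hcon.and ((((hVl z₁ 0).continuousAt.eventually_ne hz₁).and
        (hyV z₁)).filter_mono nhdsWithin_le_nhds)).exists
      rw [hw3 0, div_self hw2] at hw1
      exact one_ne_zero hw1
    intro z
    filter_upwards [AC_mer (hymer 0) h1 z, (hyV z).filter_mono nhdsWithin_le_nhds] with w hw1 hw2
    intro hw3
    apply hw1
    rw [hw2 0, hw3, div_zero]
  refine ⟨Bb, fun w l => rp w l / rp w 0, hZB, hBd, hymer, fun p z => ⟨fun hp => ?_, fun hz => ?_⟩,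
    fun z hz l => ?_, fun z hz => ?_⟩
  · filter_upwards [hV0ne z, hUu z, (hVe z).filter_mono nhdsWithin_le_nhds,
      (hyV z).filter_mono nhdsWithin_le_nhds] with w h1 h2 h3 h4
    have h5 := h3.1
    rw [hfc w h2.1 h2.2] at h5
    have h6 := h5.2 0 h1 p hp
    have h7 : (fun l => rp w l / rp w 0) = fun l => V z w l / V z w 0 := funext h4
    rw [h7]
    exact h6
  · by_contra hp
    obtain ⟨z₁, -, hz₁⟩ := hne p hp
    obtain ⟨w, hw1, hw2⟩ := (hz.and (AC_mer (hpmer p) hz₁ z)).exists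
    exact hw2 hw1
  · refine (hk z (V z) (hVa z) (hVc z hz) l).trans (le_of_eq (meromorphicOrderAt_congr ?_))
    filter_upwards [(hyV z).filter_mono nhdsWithin_le_nhds, hv₀e z] with w h1 h2
    rw [h2.2.2 l, h1 l]
  · have hua : AnalyticAt ℂ u z := by
      by_contra h1
      exact hz (hqB (Or.inl h1))
    refine ⟨fun i => (analyticAt_pi_iff.1 hua i).meromorphicOrderAt_nonneg, ?_⟩
    have h1 := hgood z hz
    rw [(hVe z).self_of_nhds.2, goodPt_iff] at h1
    obtain ⟨j, hj, κ, hκ⟩ := h1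
    rw [AC_qe] at hκ
    have h2 : ∀ᶠ w in 𝓝[≠] z, ∀ l, rp w l / rp w 0 / (rp w j / rp w 0) = V z w l / V z w j := by
      filter_upwards [hV0ne z, (hyV z).filter_mono nhdsWithin_le_nhds] with w h3 h4
      intro l
      rw [h4 l, h4 j, div_div_div_cancel_right₀ h3]
    have h3 : ∀ l, AnalyticAt ℂ (fun w => V z w l / V z w j) z := fun l =>
      (hVl z l).div (hVl z j) hj
    refine ⟨j, κ, fun l => ?_, ?_⟩
    · rw [meromorphicOrderAt_congr (h2.mono fun w hw => hw l)]
      exact (h3 l).meromorphicOrderAt_nonneg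
    · have h4 : AnalyticAt ℂ (fun w => (Q j κ).eval₂ (MvPolynomial.eval (u w))
          fun m => V z w (κ m) / V z w j) z := AC_eval₂ hua (fun m => h3 (κ m)) (Q j κ)
      rw [meromorphicOrderAt_congr (f₂ := fun w => (Q j κ).eval₂ (MvPolynomial.eval (u w))
          fun m => V z w (κ m) / V z w j) (h2.mono fun w hw => by
          have h5 : (fun m => rp w (κ m) / rp w 0 / (rp w j / rp w 0)) =
              fun m => V z w (κ m) / V z w j := funext fun m => hw (κ m)
          dsimp only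
          rw [h5])]
      rw [h4.meromorphicOrderAt_eq, h4.analyticOrderAt_eq_zero.2 hκ]
      exact le_of_eq rfl

end Pool.Agent.AbPencil
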