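import Mathlib

/-! Functions which are holomorphic on complex lines: definitions. -/

set_option autoImplicit false

open Filter Topology

namespace Pool.Agent.AbPencil

/-- `f` is continuous on the open set `U` and holomorphic on all complex lines -/
structure GHol {E : Type} [NormedAddCommGroup E] [NormedSpace ℂ E] (f : E → ℂ) (U : Set E) : Prop where
  op : IsOpen U
  cont : ContinuousOn f U
  line : ∀ p ∈ U, ∀ e : E, DifferentiableAt ℂ (fun s : ℂ => f (p + s • e)) 0

/-- derivative in the direction `e` -/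
noncomputable def dd {E : Type} [NormedAddCommGroup E] [NormedSpace ℂ E] (e : E) (f : E → ℂ) (p : E) : ℂ :=
  deriv (fun s : ℂ => f (p + s • e)) 0

/-- value at `z` and `T` of a polynomial whose coefficients are functions of `z` -/
noncomputable def qe {e : ℕ} (q : MvPolynomial (Fin e) (ℂ → ℂ)) (z : ℂ) (T : Fin e → ℂ) : ℂ :=
  MvPolynomial.eval T (q.map (Pi.evalRingHom (fun _ : ℂ => ℂ) z))

/-- A family of points `V p` (coordinates `V l p`) of affine space, `p = (z, c) ∈ U ⊂ ℂ × ℂ^(e + 1)`, which is an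
immersion in `c`, and for each choice `κ` of `e` coordinates a polynomial `q κ` in them, nonzero for each `z`. -/
structure LocData (e N : ℕ) where
  U : Set (ℂ × (Fin (e + 1) → ℂ))
  V : Fin (N + 1) → ℂ × (Fin (e + 1) → ℂ) → ℂ
  q : (Fin e → Fin (N + 1)) → MvPolynomial (Fin e) (ℂ → ℂ)
  op : IsOpen U
  hV : ∀ l, GHol (V l) U
  imm : ∀ p ∈ U, ∀ d : Fin (e + 1) → ℂ, (∀ l, dd ((0 : ℂ), d) (V l) p = 0) → d = 0
  hq : ∀ κ α, ∀ p ∈ U, AnalyticAt ℂ ((q κ).coeff α) p.1
  q0 : ∀ κ, ∀ p ∈ U, (q κ).map (Pi.evalRingHom (fun _ : ℂ => ℂ) p.1) ≠ 0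

/-- the value of `q κ` at the point `V p` -/
noncomputable def LocData.f {e N : ℕ} (D : LocData e N) (κ : Fin e → Fin (N + 1))
    (p : ℂ × (Fin (e + 1) → ℂ)) : ℂ :=
  qe (D.q κ) p.1 fun m => D.V (κ m) p

/-- the good points: some `q κ` is not zero -/
def LocData.good {e N : ℕ} (D : LocData e N) : Set (ℂ × (Fin (e + 1) → ℂ)) :=
  {p | p ∈ D.U ∧ ∃ κ, D.f κ p ≠ 0}

/-- near `(z, c)`, the parameters for which all nearby points are in `G` are dense -/
def DLoc {C : Type} [PseudoMetricSpace C] (G : Set (ℂ × C)) (z : ℂ) (c : C) : Prop :=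
  ∃ ε > 0, ∀ B : Set C, IsOpen B → B.Nonempty → B ⊆ Metric.ball c ε →
    ∃ c' ∈ B, ∀ z' ∈ Metric.closedBall z ε, (z', c') ∈ G

end Pool.Agent.AbPencil
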