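import Pool.Agent.Lib_MP_1209e6_tu.Av0

/-! PIECE O1: derivatives of functions which are holomorphic on lines. -/

set_option autoImplicit false

open Filter Topology

namespace Pool.Agent.AbPencil

/-- differentiability at the other points of the line -/
private theorem O1_lineAt {E : Type} [NormedAddCommGroup E] [NormedSpace ℂ E]
    {f : E → ℂ} {U : Set E} (h : GHol f U) (e p : E) {s : ℂ} (hs : p + s • e ∈ U) :
    DifferentiableAt ℂ (fun t : ℂ => f (p + t • e)) s := by
  have h1 : DifferentiableAt ℂ (fun t : ℂ => f ((p + s • e) + t • e)) (s - s) := by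
    rw [sub_self]
    exact h.line _ hs e
  have h2 : DifferentiableAt ℂ (fun t : ℂ => t - s) s := differentiableAt_id.sub_const s
  have h3 := DifferentiableAt.comp (g := fun t : ℂ => f ((p + s • e) + t • e))
    (f := fun t : ℂ => t - s) s h1 h2
  refine h3.congr_of_eventuallyEq (Eventually.of_forall fun t => ?_)
  simp only [Function.comp]
  congr 1
  rw [sub_smul]
  abel

/-- two small discs -/
private theorem O1_room {E : Type} [NormedAddCommGroup E] [NormedSpace ℂ E]
    {U : Set E} (hU : IsOpen U) {p : E} (hp : p ∈ U) (e e' : E) :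
    ∃ δ > 0, ∀ x ∈ Metric.ball p δ, ∀ a ∈ Metric.ball (0 : ℂ) δ, ∀ b ∈ Metric.ball (0 : ℂ) δ,
      x + a • e' + b • e ∈ U := by
  have hc : ContinuousAt (fun q : E × ℂ × ℂ => q.1 + q.2.1 • e' + q.2.2 • e) (p, 0, 0) := by
    fun_prop
  have h1 : ∀ᶠ q : E × ℂ × ℂ in 𝓝 (p, 0, 0), q.1 + q.2.1 • e' + q.2.2 • e ∈ U := by
    refine hc.eventually ?_
    simp only [zero_smul, add_zero]
    exact hU.mem_nhds hp
  obtain ⟨δ, hδ, hball⟩ := Metric.eventually_nhds_iff_ball.1 h1
  refine ⟨δ, hδ, fun x hx a ha b hb => ?_⟩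
  refine hball (x, a, b) ?_
  rw [← ball_prod_same, ← ball_prod_same]
  exact ⟨hx, ha, hb⟩

/-- continuity of the derivative -/
private theorem O1_cont {E : Type} [NormedAddCommGroup E] [NormedSpace ℂ E]
    {f : E → ℂ} {U : Set E} (h : GHol f U) (e : E) {p : E} (hp : p ∈ U) :
    ContinuousAt (dd e f) p := by
  obtain ⟨δ, hδ, hroom⟩ := O1_room h.op hp e e
  have hroom' : ∀ x ∈ Metric.ball p δ, ∀ b ∈ Metric.ball (0 : ℂ) δ, x + b • e ∈ U := by
    intro x hx b hb
    have h1 := hroom x hx 0 (Metric.mem_ball_self hδ) b hb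
    rwa [zero_smul, add_zero] at h1
  have hlim : TendstoLocallyUniformlyOn (fun (x : E) (s : ℂ) => f (x + s • e))
      (fun s : ℂ => f (p + s • e)) (𝓝 p) (Metric.ball (0 : ℂ) δ) := by
    rw [Metric.tendstoLocallyUniformlyOn_iff]
    intro ε hε s hs
    have hmem : p + s • e ∈ U := hroom' p (Metric.mem_ball_self hδ) s hs
    have hc1 : ContinuousAt f (p + s • e) := h.cont.continuousAt (h.op.mem_nhds hmem)
    have hc2 : Tendsto (fun q : E × ℂ => q.1 + q.2 • e) (𝓝 (p, s)) (𝓝 (p + s • e)) := by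
      have : ContinuousAt (fun q : E × ℂ => q.1 + q.2 • e) (p, s) := by fun_prop
      exact this
    have h1 : ∀ᶠ q : E × ℂ in 𝓝 (p, s), dist (f (q.1 + q.2 • e)) (f (p + s • e)) < ε / 2 :=
      hc2.eventually (hc1.eventually (Metric.ball_mem_nhds _ (by linarith : 0 < ε / 2)))
    rw [nhds_prod_eq] at h1
    obtain ⟨t1, ht1, t2, ht2, ht⟩ := mem_prod_iff.1 h1
    refine ⟨t2, mem_nhdsWithin_of_mem_nhds ht2, ?_⟩
    filter_upwards [ht1] with x hx y hy
    have h2 : dist (f (x + y • e)) (f (p + s • e)) < ε / 2 := ht (Set.mk_mem_prod hx hy)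
    have h3 : dist (f (p + y • e)) (f (p + s • e)) < ε / 2 :=
      ht (Set.mk_mem_prod (mem_of_mem_nhds ht1) hy)
    calc dist (f (p + y • e)) (f (x + y • e))
        ≤ dist (f (p + y • e)) (f (p + s • e)) + dist (f (x + y • e)) (f (p + s • e)) :=
          dist_triangle_right _ _ _
      _ < ε := by linarith
  have hd : ∀ᶠ x in 𝓝 p, DifferentiableOn ℂ (fun s : ℂ => f (x + s • e))
      (Metric.ball (0 : ℂ) δ) := by
    filter_upwards [Metric.ball_mem_nhds p hδ] with x hx s hs
    exact (O1_lineAt h e x (hroom' x hx s hs)).differentiableWithinAt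
  have hder := hlim.deriv hd Metric.isOpen_ball
  exact hder.tendsto_at (Metric.mem_ball_self hδ)

/-- increments in the direction `e` -/
private theorem O1_step {E : Type} [NormedAddCommGroup E] [NormedSpace ℂ E]
    {f : E → ℂ} {U : Set E} (h : GHol f U) {p : E} (hp : p ∈ U) (e : E) {ε : ℝ} (hε : 0 < ε) :
    ∀ᶠ q : E × ℂ in 𝓝 (p, 0), ‖f (q.1 + q.2 • e) - f q.1 - q.2 * dd e f p‖ ≤ ε * ‖q.2‖ := by
  have hc : ContinuousAt (dd e f) p := O1_cont h e hp
  have h1 : ∀ᶠ x in 𝓝 p, x ∈ U ∧ ‖dd e f x - dd e f p‖ ≤ ε := by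
    have h11 : ∀ᶠ x in 𝓝 p, x ∈ U := h.op.mem_nhds hp
    have h12 : ∀ᶠ x in 𝓝 p, dd e f x ∈ Metric.closedBall (dd e f p) ε :=
      hc.eventually (Metric.closedBall_mem_nhds _ hε)
    filter_upwards [h11, h12] with x hx1 hx2
    refine ⟨hx1, ?_⟩
    rw [← dist_eq_norm]
    exact hx2
  have h3 : ∀ᶠ q in 𝓝 ((p, 0) : E × ℂ),
      q.1 + q.2 • e ∈ U ∧ ‖dd e f (q.1 + q.2 • e) - dd e f p‖ ≤ ε := by
    have h31 : ContinuousAt (fun q : E × ℂ => q.1 + q.2 • e) (p, 0) := by fun_prop
    have h32 : Tendsto (fun q : E × ℂ => q.1 + q.2 • e) (𝓝 (p, 0)) (𝓝 p) := by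
      have h33 := h31.tendsto
      simp only [zero_smul, add_zero] at h33
      exact h33
    exact h32.eventually h1
  obtain ⟨δ, hδ, hball⟩ := Metric.eventually_nhds_iff_ball.1 h3
  filter_upwards [Metric.ball_mem_nhds _ hδ] with q hq
  have hq1 : q.1 ∈ Metric.ball p δ := by
    rw [← ball_prod_same] at hq
    exact hq.1
  have hq2 : q.2 ∈ Metric.ball (0 : ℂ) δ := by
    rw [← ball_prod_same] at hq
    exact hq.2
  have hin : ∀ s ∈ Metric.ball (0 : ℂ) δ,
      q.1 + s • e ∈ U ∧ ‖dd e f (q.1 + s • e) - dd e f p‖ ≤ ε := by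
    intro s hs
    refine hball (q.1, s) ?_
    rw [← ball_prod_same]
    exact ⟨hq1, hs⟩
  have hd : ∀ s ∈ Metric.ball (0 : ℂ) δ,
      HasDerivAt (fun s : ℂ => f (q.1 + s • e) - s * dd e f p)
        (dd e f (q.1 + s • e) - dd e f p) s := by
    intro s hs
    refine HasDerivAt.sub ?_ ?_
    · have h4 : HasDerivAt (fun t : ℂ => f ((q.1 + s • e) + t • e)) (dd e f (q.1 + s • e)) 0 :=
        (h.line _ (hin s hs).1 e).hasDerivAt
      have h5 : HasDerivAt (fun t : ℂ => t - s) 1 s := (hasDerivAt_id s).sub_const s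
      have h6 : HasDerivAt (fun t : ℂ => f ((q.1 + s • e) + t • e)) (dd e f (q.1 + s • e))
          ((fun t : ℂ => t - s) s) := by
        simpa using h4
      have h7 := HasDerivAt.comp (h := fun t : ℂ => t - s) s h6 h5
      rw [mul_one] at h7
      refine h7.congr_of_eventuallyEq (Eventually.of_forall fun t => ?_)
      simp only [Function.comp]
      congr 1
      rw [sub_smul]
      abel
    · have h8 := (hasDerivAt_id s).mul_const (dd e f p)
      rw [one_mul] at h8
      exact h8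
  have hmv := (convex_ball (0 : ℂ) δ).norm_image_sub_le_of_norm_hasDerivWithin_le
    (f := fun s : ℂ => f (q.1 + s • e) - s * dd e f p)
    (f' := fun s : ℂ => dd e f (q.1 + s • e) - dd e f p) (C := ε)
    (fun s hs => (hd s hs).hasDerivWithinAt) (fun s hs => (hin s hs).2)
    (Metric.mem_ball_self hδ) hq2
  simp only [zero_smul, add_zero, zero_mul, sub_zero] at hmv
  have h9 : f (q.1 + q.2 • e) - f q.1 - q.2 * dd e f p =
      f (q.1 + q.2 • e) - q.2 * dd e f p - f q.1 := by ring
  rw [h9]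
  exact hmv

/-- Proof. Fix `p₀ ∈ U` and `r > 0` with `p + s • e ∈ U` for `p` near `p₀`, `‖s‖ ≤ r`. There `dd e f p = (2πi)⁻¹ ∮_{|s| = r} s⁻² f (p + s • e) ds` (Cauchy's formula for the
derivative; `s ↦ f (p + s • e)` is differentiable on a neighbourhood of the closed disc by `line` at the points `p + s • e`). So `dd e f` is
continuous near `p₀` (continuity of integrals with parameters on a compact set; `f` is continuous). Lines: for fixed `e'` the difference quotients
`λ ↦ (f (p + λ • e' + s • e) - f (p + λ • e')) / s` are differentiable in `λ`, and they converge to `λ ↦ dd e f (p + λ • e')` locally uniformly as `s → 0`: the difference is at most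
`sup_{t ∈ [0, 1]} ‖dd e f (p + λ • e' + (t s) • e) - dd e f (p + λ • e')‖` (mean value inequality), which is small by uniform continuity on a compact set. Use
`TendstoLocallyUniformlyOn.differentiableOn`. (Or differentiate the integral.) -/
theorem ghol_dd {E : Type} [NormedAddCommGroup E] [NormedSpace ℂ E] [FiniteDimensional ℂ E]
    {f : E → ℂ} {U : Set E} (h : GHol f U) (e : E) : GHol (dd e f) U := by
  refine ⟨h.op, fun p hp => (O1_cont h e hp).continuousWithinAt, fun p hp e' => ?_⟩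
  obtain ⟨δ, hδ, hroom⟩ := O1_room h.op hp e e'
  have hroom' : ∀ a ∈ Metric.ball (0 : ℂ) δ, ∀ b ∈ Metric.ball (0 : ℂ) δ,
      p + a • e' + b • e ∈ U := fun a ha b hb => hroom p (Metric.mem_ball_self hδ) a ha b hb
  have hroom0 : ∀ a ∈ Metric.ball (0 : ℂ) δ, p + a • e' ∈ U := by
    intro a ha
    have h1 := hroom' a ha 0 (Metric.mem_ball_self hδ)
    rwa [zero_smul, add_zero] at h1
  have hlim : TendstoLocallyUniformlyOn
      (fun (s a : ℂ) => (f (p + a • e' + s • e) - f (p + a • e')) / s)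
      (fun a : ℂ => dd e f (p + a • e')) (𝓝[≠] (0 : ℂ)) (Metric.ball (0 : ℂ) δ) := by
    rw [Metric.tendstoLocallyUniformlyOn_iff]
    intro ε hε a ha
    have hmem : p + a • e' ∈ U := hroom0 a ha
    have hmap : Tendsto (fun a' : ℂ => p + a' • e') (𝓝 a) (𝓝 (p + a • e')) := by
      have : ContinuousAt (fun a' : ℂ => p + a' • e') a := by fun_prop
      exact this
    have h1 := O1_step h hmem e (show 0 < ε / 3 by linarith)
    rw [nhds_prod_eq] at h1
    obtain ⟨t1, ht1, t2, ht2, ht⟩ := mem_prod_iff.1 h1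
    have h2 : ∀ᶠ x in 𝓝 (p + a • e'), dist (dd e f x) (dd e f (p + a • e')) < ε / 3 :=
      (O1_cont h e hmem).eventually (Metric.ball_mem_nhds _ (by linarith : 0 < ε / 3))
    have h3 : ∀ᶠ a' in 𝓝 a, p + a' • e' ∈ t1 ∧
        dist (dd e f (p + a' • e')) (dd e f (p + a • e')) < ε / 3 :=
      (hmap.eventually ht1).and (hmap.eventually h2)
    refine ⟨_, mem_nhdsWithin_of_mem_nhds h3, ?_⟩
    have h4 : ∀ᶠ s in 𝓝[≠] (0 : ℂ), s ∈ t2 := mem_nhdsWithin_of_mem_nhds ht2
    filter_upwards [h4, self_mem_nhdsWithin] with s hs hs0 y hy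
    have hs0' : s ≠ 0 := hs0
    obtain ⟨hy1, hy2⟩ := hy
    have h5 : ‖f (p + y • e' + s • e) - f (p + y • e') - s * dd e f (p + a • e')‖ ≤
        ε / 3 * ‖s‖ := ht (Set.mk_mem_prod hy1 hs)
    have h6 : dist ((f (p + y • e' + s • e) - f (p + y • e')) / s) (dd e f (p + a • e')) ≤
        ε / 3 := by
      rw [dist_eq_norm]
      have h7 : (f (p + y • e' + s • e) - f (p + y • e')) / s - dd e f (p + a • e') =
          (f (p + y • e' + s • e) - f (p + y • e') - s * dd e f (p + a • e')) / s := by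
        field_simp
      rw [h7, norm_div, div_le_iff₀ (norm_pos_iff.2 hs0')]
      exact h5
    calc dist (dd e f (p + y • e')) ((f (p + y • e' + s • e) - f (p + y • e')) / s)
        ≤ dist (dd e f (p + y • e')) (dd e f (p + a • e')) +
          dist ((f (p + y • e' + s • e) - f (p + y • e')) / s) (dd e f (p + a • e')) :=
          dist_triangle_right _ _ _
      _ < ε := by linarith
  have hd : ∀ᶠ s in 𝓝[≠] (0 : ℂ), DifferentiableOn ℂ
      (fun a : ℂ => (f (p + a • e' + s • e) - f (p + a • e')) / s) (Metric.ball (0 : ℂ) δ) := by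
    have h1 : ∀ᶠ s in 𝓝[≠] (0 : ℂ), s ∈ Metric.ball (0 : ℂ) δ :=
      mem_nhdsWithin_of_mem_nhds (Metric.ball_mem_nhds _ hδ)
    filter_upwards [h1] with s hs a ha
    have h2 : DifferentiableAt ℂ (fun t : ℂ => f ((p + s • e) + t • e')) a := by
      refine O1_lineAt h e' (p + s • e) ?_
      have h3 := hroom' a ha s hs
      have h4 : p + s • e + a • e' = p + a • e' + s • e := by abel
      rw [h4]
      exact h3
    have h2' : DifferentiableAt ℂ (fun t : ℂ => f (p + t • e' + s • e)) a := by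
      refine h2.congr_of_eventuallyEq (Eventually.of_forall fun t => ?_)
      simp only
      congr 1
      abel
    have h3 : DifferentiableAt ℂ (fun t : ℂ => f (p + t • e')) a :=
      O1_lineAt h e' p (hroom0 a ha)
    exact ((h2'.sub h3).div_const s).differentiableWithinAt
  have hdo := hlim.differentiableOn hd Metric.isOpen_ball
  exact hdo.differentiableAt (Metric.ball_mem_nhds _ hδ)

end Pool.Agent.AbPencil
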