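import Pool.Agent.Lib_MP_1209e6_ab.Main
import Pool.Agent.Lib_MP_1209e6_tu.O1

/-! PIECE F1: the flow along a section, with parameters. -/

set_option autoImplicit false

open Filter Topology

namespace Pool.Agent.AbFib

open Pool.Agent.CampanaFlow Pool.Agent.AbPencil MvPolynomial

variable {K : Type} [Field K] [Algebra ℂ K] {n N g : ℕ} {F : Fam n N g K}

private theorem F1_ratio {v w : Fin (N + 1) → ℂ} (h : pm v = pm w) {j : Fin (N + 1)} (hj : v j ≠ 0) :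
    w j ≠ 0 ∧ ∀ l, v l / v j = w l / w j := by
  obtain ⟨c, hc, rfl⟩ := pm_eq_iff.1 h
  have hw : w j ≠ 0 := by
    intro h0
    apply hj
    rw [Pi.smul_apply, h0, smul_zero]
  refine ⟨hw, fun l => ?_⟩
  rw [Pi.smul_apply, Pi.smul_apply, smul_eq_mul, smul_eq_mul]
  exact mul_div_mul_left _ _ hc

private theorem F1_rep (F : Fam n N g K) (Φ : FlowAPI F) (u : ℂ → Fin n → ℂ) (hu : Differentiable ℂ u)
    (a : ℂ → PS N) (ha : ∀ z, F.Sec u a z) (σ : ℂ → Fin g → ℂ) (hσ : Differentiable ℂ σ)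
    (ε : ℂ → ℂ) (hε : Differentiable ℂ ε) (p₀ : ℂ × (Fin g → ℂ)) :
    ∃ (w : ℂ × (Fin g → ℂ) → Fin (N + 1) → ℂ) (w₀ : Fin (N + 1) → ℂ), Tendsto w (𝓝 p₀) (𝓝 w₀) ∧
      Φ.Φ (u p₀.1) (σ p₀.1 + ε p₀.1 • p₀.2) (a p₀.1) = pm w₀ ∧
      ∀ᶠ p in 𝓝 p₀, Φ.Φ (u p.1) (σ p.1 + ε p.1 • p.2) (a p.1) = pm (w p) := by
  obtain ⟨⟨va, hva, hva0, hvap⟩, hpts⟩ := ha p₀.1
  have hcont : ∀ᶠ z in 𝓝 p₀.1, va z ∈ F.fib (u z) := by
    filter_upwards [hvap, hpts] with z h1 h2
    obtain ⟨v', hv', h3⟩ := h2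
    rw [h1] at h3
    obtain ⟨c, hc, h4⟩ := pm_eq_iff.1 h3
    rw [h4]
    exact F.fib_smul hc hv'
  have hfst : Tendsto (fun p : ℂ × (Fin g → ℂ) => p.1) (𝓝 p₀) (𝓝 p₀.1) := continuous_fst.continuousAt
  obtain ⟨w, w₀, h1, -, h3, h4⟩ := Φ.lim (𝓝 p₀) (fun p => u p.1)
    (fun p => σ p.1 + ε p.1 • p.2) (fun p => va p.1) (u p₀.1) (σ p₀.1 + ε p₀.1 • p₀.2) (va p₀.1)
    (hu.continuous.continuousAt.tendsto.comp hfst)
    (((hσ.continuous.comp continuous_fst).add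
      ((hε.continuous.comp continuous_fst).smul continuous_snd)).continuousAt)
    (hva.continuousAt.tendsto.comp hfst) (hfst.eventually hcont) hcont.self_of_nhds
  refine ⟨w, w₀, h1, ?_, ?_⟩
  · rw [hvap.self_of_nhds]
    exact h3
  · filter_upwards [h4, hfst.eventually hvap] with p h5 h6
    rw [h6]
    exact h5.2

private theorem F1_line (F : Fam n N g K) (Φ : FlowAPI F) (u : ℂ → Fin n → ℂ) (hu : Differentiable ℂ u)
    (a : ℂ → PS N) (ha : ∀ z, F.Sec u a z) (σ : ℂ → Fin g → ℂ) (hσ : Differentiable ℂ σ)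
    (ε : ℂ → ℂ) (hε : Differentiable ℂ ε) (p₀ e : ℂ × (Fin g → ℂ)) :
    ∃ w : ℂ → Fin (N + 1) → ℂ, AnalyticAt ℂ w 0 ∧
      ∀ᶠ s in 𝓝 (0 : ℂ), Φ.Φ (u (p₀ + s • e).1) (σ (p₀ + s • e).1 + ε (p₀ + s • e).1 • (p₀ + s • e).2)
        (a (p₀ + s • e).1) = pm (w s) := by
  have haff : Differentiable ℂ (fun s : ℂ => (p₀ + s • e).1) := by
    have h1 : Differentiable ℂ (fun s : ℂ => p₀.1 + s • e.1) :=
      (differentiable_const _).add (differentiable_id.smul_const _)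
    exact h1
  have haff2 : Differentiable ℂ (fun s : ℂ => (p₀ + s • e).2) := by
    have h1 : Differentiable ℂ (fun s : ℂ => p₀.2 + s • e.2) :=
      (differentiable_const _).add (differentiable_id.smul_const _)
    exact h1
  have h0 : (p₀ + (0 : ℂ) • e).1 = p₀.1 := by rw [zero_smul, add_zero]
  have htend : Tendsto (fun s : ℂ => (p₀ + s • e).1) (𝓝 0) (𝓝 p₀.1) := by
    have h1 := haff.continuous.tendsto 0
    rwa [h0] at h1
  obtain ⟨⟨va, hva, hva0, hvap⟩, hpts⟩ := ha p₀.1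
  have hsec : F.Sec (fun s => u (p₀ + s • e).1) (fun s => a (p₀ + s • e).1) 0 := by
    refine ⟨⟨fun s => va (p₀ + s • e).1, ?_, ?_, htend.eventually hvap⟩, htend.eventually hpts⟩
    · have h2 : AnalyticAt ℂ va ((fun s : ℂ => (p₀ + s • e).1) 0) := by
        simp only [h0]
        exact hva
      exact AnalyticAt.comp (g := va) (f := fun s : ℂ => (p₀ + s • e).1) h2 (haff.analyticAt 0)
    · simp only [h0]
      exact hva0
  obtain ⟨w, hw, -, hwp⟩ := Φ.hol (fun s => u (p₀ + s • e).1)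
    (fun s => σ (p₀ + s • e).1 + ε (p₀ + s • e).1 • (p₀ + s • e).2) (fun s => a (p₀ + s • e).1) 0
    ((hu.comp haff).analyticAt 0)
    (((hσ.comp haff).add ((hε.comp haff).smul haff2)).analyticAt 0) hsec
  exact ⟨w, hw, hwp⟩

/-- Proof. Let `Ψ p = Φ (u p.1) (σ p.1 + ε p.1 • p.2) (a p.1)`. It is a point of the fibre over `u p.1`. Choose `v₁` with `Ψ (z₁, c₁) = pm v₁` and `j` with `v₁ j ≠ 0`. Let
`V l p = w l / w j` for any representative `w` of `Ψ p` (independent of the representative, `pm_eq_iff`; `U` is a neighbourhood on which `w j ≠ 0`). Continuity at `p₀`: `Φ.lim` for the filter `𝓝 p₀`, with a local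
holomorphic representative of the section `a` at `p₀.1` (`ha`, `HolAt`), gives representatives `w p → w₀` of `Ψ p`, `Ψ p₀`, so `V l` is continuous wherever `w₀ j ≠ 0`, and the set `{p | w j ≠ 0}` is open. Lines:
for `p ∈ U` and a direction `(α, β)` the curve `s ↦ p.1 + s α`: apply `Φ.hol` to `u' s = u (p.1 + s α)`, `τ' s = σ (p.1 + s α) + ε (p.1 + s α) • (p.2 + s β)`, `a' s = a (p.1 + s α)` at `s = 0` (`F.Sec u' a' 0` by composition of
the local representative with `s ↦ p.1 + s α`): it gives a holomorphic representative `w s` near `s = 0`, and `V l (p + s (α, β)) = w s l / w s j`. -/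
theorem flow_chart (Φ : FlowAPI F) (u : ℂ → Fin n → ℂ) (hu : Differentiable ℂ u) (a : ℂ → PS N)
    (ha : ∀ z, F.Sec u a z) (σ : ℂ → Fin g → ℂ) (hσ : Differentiable ℂ σ) (ε : ℂ → ℂ)
    (hε : Differentiable ℂ ε) (p₁ : ℂ × (Fin g → ℂ)) (v₁ : Fin (N + 1) → ℂ)
    (hv₁ : Φ.Φ (u p₁.1) (σ p₁.1 + ε p₁.1 • p₁.2) (a p₁.1) = pm v₁) (j : Fin (N + 1)) (hj : v₁ j ≠ 0) :
    ∃ (U : Set (ℂ × (Fin g → ℂ))) (V : Fin (N + 1) → ℂ × (Fin g → ℂ) → ℂ), IsOpen U ∧ p₁ ∈ U ∧
      (∀ l, GHol (V l) U) ∧ ∀ p ∈ U, V j p = 1 ∧ (fun l => V l p) ∈ F.fib (u p.1) ∧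
        Φ.Φ (u p.1) (σ p.1 + ε p.1 • p.2) (a p.1) = pm fun l => V l p := by
  classical
  have hmem : ∀ p : ℂ × (Fin g → ℂ), ∃ w, w ∈ F.fib (u p.1) ∧
      Φ.Φ (u p.1) (σ p.1 + ε p.1 • p.2) (a p.1) = pm w := by
    intro p
    obtain ⟨w, hw, h⟩ := Φ.mem (u p.1) (σ p.1 + ε p.1 • p.2) (a p.1) (ha p.1).2.self_of_nhds
    exact ⟨w, hw, h⟩
  choose W hW hWp using hmem
  -- the continuity statement at a point
  have hloc : ∀ p₀, W p₀ j ≠ 0 → (∀ᶠ p in 𝓝 p₀, W p j ≠ 0) ∧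
      ∀ l, ContinuousAt (fun p => W p l / W p j) p₀ := by
    intro p₀ h0
    obtain ⟨w, w₀, h1, h2, h3⟩ := F1_rep F Φ u hu a ha σ hσ ε hε p₀
    have h4 := F1_ratio ((hWp p₀).symm.trans h2) h0
    have hwj : Tendsto (fun p => w p j) (𝓝 p₀) (𝓝 (w₀ j)) := (continuous_apply j).tendsto _ |>.comp h1
    have h5 : ∀ᶠ p in 𝓝 p₀, w p j ≠ 0 := hwj.eventually_ne h4.1
    have h6 : ∀ᶠ p in 𝓝 p₀, W p j ≠ 0 ∧ ∀ l, w p l / w p j = W p l / W p j := by
      filter_upwards [h3, h5] with p h7 h8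
      exact F1_ratio (h7.symm.trans (hWp p)) h8
    refine ⟨h6.mono fun p hp => hp.1, fun l => ?_⟩
    have h9 : Tendsto (fun p => w p l / w p j) (𝓝 p₀) (𝓝 (w₀ l / w₀ j)) :=
      ((continuous_apply l).tendsto _ |>.comp h1).div hwj h4.1
    rw [ContinuousAt, h4.2 l]
    exact h9.congr' (h6.mono fun p hp => hp.2 l)
  have hopen : IsOpen {p | W p j ≠ 0} := isOpen_iff_mem_nhds.2 fun p₀ h0 => (hloc p₀ h0).1
  refine ⟨{p | W p j ≠ 0}, fun l p => W p l / W p j, hopen, ?_, fun l => ⟨hopen, ?_, ?_⟩, ?_⟩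
  · exact (F1_ratio (hv₁.symm.trans (hWp p₁)) hj).1
  · exact fun p hp => ((hloc p hp).2 l).continuousWithinAt
  · intro p hp e
    obtain ⟨w, hw, hwp⟩ := F1_line F Φ u hu a ha σ hσ ε hε p e
    have h1 : Φ.Φ (u p.1) (σ p.1 + ε p.1 • p.2) (a p.1) = pm (w 0) := by
      have h2 := hwp.self_of_nhds
      rwa [zero_smul, add_zero] at h2
    have h2 : w 0 j ≠ 0 := (F1_ratio ((hWp p).symm.trans h1) hp).1
    have hcj : AnalyticAt ℂ (fun s => w s j) 0 := (ContinuousLinearMap.proj (R := ℂ)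
      (φ := fun _ : Fin (N + 1) => ℂ) j).analyticAt _ |>.comp hw
    have hcl : AnalyticAt ℂ (fun s => w s l) 0 := (ContinuousLinearMap.proj (R := ℂ)
      (φ := fun _ : Fin (N + 1) => ℂ) l).analyticAt _ |>.comp hw
    have h3 : ∀ᶠ s in 𝓝 (0 : ℂ), w s j ≠ 0 := hcj.continuousAt.eventually_ne h2
    have h4 : DifferentiableAt ℂ (fun s => w s l / w s j) 0 := (hcl.div hcj h2).differentiableAt
    refine h4.congr_of_eventuallyEq ?_
    filter_upwards [hwp, h3] with s h5 h6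
    exact ((F1_ratio (h5.symm.trans (hWp (p + s • e))) h6).2 l).symm
  · intro p hp
    have hi : (W p j)⁻¹ ≠ 0 := inv_ne_zero hp
    have h1 : (fun l => W p l / W p j) = (W p j)⁻¹ • W p := by
      funext l
      rw [Pi.smul_apply, smul_eq_mul, div_eq_mul_inv, mul_comm]
    refine ⟨div_self hp, ?_, ?_⟩
    · change (fun l => W p l / W p j) ∈ F.fib (u p.1)
      rw [h1]
      exact F.fib_smul hi (hW p)
    · change _ = pm (fun l => W p l / W p j)
      rw [h1, pm_smul hi]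
      exact hWp p

/-- Proof. Let `v l = V l p`, a point of the fibre with `v j = 1`. For small `s ∈ ℂ`, `Φ u (σ + ε (c + s d)) a = Φ u (s ε d) (pm v)` (`Φ.add`, commutativity of the addition in `ℂ^g`), and by `Φ.expand` it is `pm w` with `w j = 1` and
`w l = v l + s ε ∑ i, d i * aeval (Sum.elim u v) (F.P i j l) + O(s²)`; `w l = V l (p + s (0, d))` for small `s` (both representatives have `j`-th coordinate `1`). So `dd (0, d) (V l) p = ε ∑ i, d i * aeval (Sum.elim u v) (F.P i j l)`.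
If it vanishes for all `l` then `d = 0`, because by `A.minors` some minor `det (aeval (Sum.elim u v) (F.P i j (L m)))` is not zero and `ε ≠ 0`. -/
theorem flow_imm (Φ : FlowAPI F) (A : AlgPack F) (u : ℂ → Fin n → ℂ) (a : ℂ → PS N)
    (ha : ∀ z, F.Sec u a z) (σ : ℂ → Fin g → ℂ) (ε : ℂ → ℂ) (U : Set (ℂ × (Fin g → ℂ)))
    (hU : IsOpen U) (V : Fin (N + 1) → ℂ × (Fin g → ℂ) → ℂ) (hV : ∀ l, GHol (V l) U)
    (j : Fin (N + 1)) (hVj : ∀ p ∈ U, V j p = 1 ∧ (fun l => V l p) ∈ F.fib (u p.1) ∧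
      Φ.Φ (u p.1) (σ p.1 + ε p.1 • p.2) (a p.1) = pm fun l => V l p)
    (p : ℂ × (Fin g → ℂ)) (hp : p ∈ U) (hc : eval (u p.1) A.c ≠ 0) (hε : ε p.1 ≠ 0)
    (d : Fin g → ℂ) (hd : ∀ l, dd ((0 : ℂ), d) (V l) p = 0) : d = 0 := by
  classical
  set z := p.1 with hz
  set v : Fin (N + 1) → ℂ := fun l => V l p with hv
  obtain ⟨hvj, hvf, hvΦ⟩ := hVj p hp
  have haz : a z ∈ F.Pts (u z) := (ha z).2.self_of_nhds
  obtain ⟨ρ, C, hρ, hC, hexp⟩ := Φ.expand (max ‖u z‖ ‖v‖)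
  set e : ℂ × (Fin g → ℂ) := (0, d) with he
  -- the points near `p`
  have hcont : Continuous fun s : ℂ => p + s • e := by fun_prop
  have hU1 : ∀ᶠ s : ℂ in 𝓝 0, p + s • e ∈ U := by
    have h1 : Tendsto (fun s : ℂ => p + s • e) (𝓝 0) (𝓝 p) := by
      have := hcont.tendsto 0
      simpa using this
    exact h1.eventually (hU.mem_nhds hp)
  have hτ1 : ∀ᶠ s : ℂ in 𝓝 0, ‖s • ε z • d‖ ≤ ρ := by
    have h1 : Tendsto (fun s : ℂ => ‖s • ε z • d‖) (𝓝 0) (𝓝 0) := by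
      have h2 : Continuous fun s : ℂ => ‖s • ε z • d‖ := by fun_prop
      have := h2.tendsto 0
      simpa using this
    filter_upwards [h1.eventually (gt_mem_nhds hρ)] with s hs
    exact hs.le
  have hmain : ∀ᶠ s : ℂ in 𝓝 0, ∀ l, ‖V l (p + s • e) - V l p -
      ∑ i, (s • ε z • d) i * MvPolynomial.aeval (Sum.elim (u z) v) (F.P i j l)‖ ≤
        C * ‖s • ε z • d‖ ^ 2 := by
    filter_upwards [hU1, hτ1] with s hs1 hs2 l
    obtain ⟨w, hwf, hwj, hwΦ, hwb⟩ := hexp j (u z) v (s • ε z • d) (le_max_left _ _)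
      (le_max_right _ _) hvf hvj hs2
    obtain ⟨h3, h4, h5⟩ := hVj (p + s • e) hs1
    have e1 : (p + s • e).1 = z := by simp [he, hz]
    have e2 : (p + s • e).2 = p.2 + s • d := by simp [he]
    rw [e1, e2] at h5
    have h6 : σ z + ε z • (p.2 + s • d) = s • ε z • d + (σ z + ε z • p.2) := by
      rw [smul_add, smul_comm (ε z) s d]
      abel
    rw [h6, Φ.add _ _ _ _ haz, hvΦ, hwΦ] at h5
    obtain ⟨k, hk, hkw⟩ := pm_eq_iff.1 h5
    have h7 : k = 1 := by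
      have h8 := congrFun hkw j
      rw [Pi.smul_apply, hwj, h3, smul_eq_mul, mul_one] at h8
      exact h8.symm
    have h9 : w l = V l (p + s • e) := by
      have h8 := congrFun hkw l
      rw [h7, one_smul] at h8
      exact h8
    rw [← h9]
    exact hwb l
  have hder : ∀ l, HasDerivAt (fun s : ℂ => V l (p + s • e))
      (ε z * ∑ i, d i * MvPolynomial.aeval (Sum.elim (u z) v) (F.P i j l)) 0 := by
    intro l
    rw [hasDerivAt_iff_isLittleO_nhds_zero]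
    refine Asymptotics.IsBigO.trans_isLittleO (g := fun s : ℂ => s ^ 2) ?_
      (Asymptotics.isLittleO_pow_id one_lt_two)
    refine Asymptotics.IsBigO.of_bound (C * ‖ε z • d‖ ^ 2) ?_
    filter_upwards [hmain] with s hs
    have h1 := hs l
    have e1 : ∑ i, (s • ε z • d) i * MvPolynomial.aeval (Sum.elim (u z) v) (F.P i j l) =
        s • (ε z * ∑ i, d i * MvPolynomial.aeval (Sum.elim (u z) v) (F.P i j l)) := by
      rw [smul_eq_mul, Finset.mul_sum, Finset.mul_sum]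
      refine Finset.sum_congr rfl fun i _ => ?_
      simp only [Pi.smul_apply, smul_eq_mul]
      ring
    rw [e1] at h1
    have e2 : V l (p + (0 : ℂ) • e) = V l p := by simp
    rw [zero_add, e2]
    refine h1.trans (le_of_eq ?_)
    rw [norm_smul, norm_pow]
    ring
  have hzero : ∀ l, ∑ i, d i * MvPolynomial.aeval (Sum.elim (u z) v) (F.P i j l) = 0 := by
    intro l
    have h1 := hd l
    unfold dd at h1
    rw [(hder l).deriv] at h1
    exact (mul_eq_zero.1 h1).resolve_left hε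
  obtain ⟨L, hL⟩ := A.minors (u z) hc v hvf j hvj
  unfold Fam.minor at hL
  refine Matrix.eq_zero_of_vecMul_eq_zero hL ?_
  funext m
  rw [Matrix.vecMul, dotProduct]
  exact hzero (L m)

end Pool.Agent.AbFib
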