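import Pool.Agent.Lib_MP_1209e6_ab.Main
import Pool.Agent.Lib_MP_1209e6_tv.A2

/-! PIECE F2: a dense section through good points. -/

set_option autoImplicit false

open Filter Topology

namespace Pool.Agent.AbFib

open Pool.Agent.CampanaFlow MvPolynomial

variable {K : Type} [Field K] [Algebra ℂ K] {n N g : ℕ} {F : Fam n N g K}

/-- the chart ring has a countable spanning set -/
private theorem exists_span (F : Fam n N g K) (j : Fin (N + 1)) :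
    ∃ s : ℕ → F.R j, Submodule.span ℂ (Set.range s) = ⊤ := by
  obtain ⟨e, he⟩ := exists_surjective_nat (Fin n ⊕ Fin (N + 1) →₀ ℕ)
  refine ⟨fun k => aeval (F.Y j) (monomial (e k) (1 : ℂ)), ?_⟩
  rw [eq_top_iff]
  rintro f -
  obtain ⟨p, rfl⟩ := F.exists_poly j f
  rw [p.as_sum, map_sum]
  refine Submodule.sum_mem _ fun s _ => ?_
  obtain ⟨k, rfl⟩ := he s
  have h1 : monomial (e k) (coeff (e k) p) = coeff (e k) p • monomial (e k) (1 : ℂ) := by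
    rw [smul_monomial, smul_eq_mul, mul_one]
  rw [h1, map_smul]
  exact Submodule.smul_mem _ _ (Submodule.subset_span ⟨k, rfl⟩)

open Classical in
/-- evaluation at the point `Φ u τ p` of the chart `0`, and `0` if it is not in the chart -/
private noncomputable def evp (Φ : FlowAPI F) (u : Fin n → ℂ) (τ : Fin g → ℂ) (p : PS N) :
    F.R 0 →ₗ[ℂ] ℂ :=
  if h : ∃ q : F.R 0 →ₐ[ℂ] ℂ, ∃ v, v ∈ F.fib u ∧ v 0 = 1 ∧ Φ.Φ u τ p = pm v ∧ F.IsHom 0 u v q then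
    (Classical.choose h).toLinearMap
  else 0

private theorem evp_ne {Φ : FlowAPI F} {u : Fin n → ℂ} {τ : Fin g → ℂ} {p : PS N}
    {r : MvPolynomial (Fin n ⊕ Fin (N + 1)) ℂ} (h : evp Φ u τ p (aeval (F.Y 0) r) ≠ 0) :
    ∃ v, v ∈ F.fib u ∧ v 0 = 1 ∧ Φ.Φ u τ p = pm v ∧ aeval (Sum.elim u v) r ≠ 0 := by
  classical
  by_cases h1 : ∃ q : F.R 0 →ₐ[ℂ] ℂ, ∃ v, v ∈ F.fib u ∧ v 0 = 1 ∧ Φ.Φ u τ p = pm v ∧
      F.IsHom 0 u v q
  · obtain ⟨v, hv, hv0, hΦ, hq⟩ := Classical.choose_spec h1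
    have h2 : evp Φ u τ p (aeval (F.Y 0) r) = Classical.choose h1 (aeval (F.Y 0) r) := by
      rw [evp, dif_pos h1]
      rfl
    rw [h2, F.isHom_aeval hq] at h
    exact ⟨v, hv, hv0, hΦ, h⟩
  · rw [evp, dif_neg h1] at h
    exact absurd rfl h

private theorem ne_evp {Φ : FlowAPI F} {u : Fin n → ℂ} {τ : Fin g → ℂ} {p : PS N}
    {r : MvPolynomial (Fin n ⊕ Fin (N + 1)) ℂ} {w : Fin (N + 1) → ℂ} (hw : w ∈ F.fib u)
    (hw0 : w 0 = 1) (hΦ : Φ.Φ u τ p = pm w) (hr : aeval (Sum.elim u w) r ≠ 0) :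
    evp Φ u τ p (aeval (F.Y 0) r) ≠ 0 := by
  classical
  obtain ⟨q, hq⟩ := F.exists_isHom hw hw0
  have h1 : ∃ q : F.R 0 →ₐ[ℂ] ℂ, ∃ v, v ∈ F.fib u ∧ v 0 = 1 ∧ Φ.Φ u τ p = pm v ∧
      F.IsHom 0 u v q := ⟨q, w, hw, hw0, hΦ, hq⟩
  obtain ⟨v, hv, hv0, hΦ', hq'⟩ := Classical.choose_spec h1
  have h2 : evp Φ u τ p (aeval (F.Y 0) r) = Classical.choose h1 (aeval (F.Y 0) r) := by
    rw [evp, dif_pos h1]
    rfl
  have h3 : v = w := pm_inj hv0 hw0 (by rw [← hΦ', hΦ])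
  rw [h2, F.isHom_aeval hq', h3]
  exact hr

/-- the point `Φ u τ p` stays in the chart `0` and off the zeros of `r` for nearby times -/
private theorem evp_near (Φ : FlowAPI F) {u : Fin n → ℂ} {τ₀ : Fin g → ℂ} {v : Fin (N + 1) → ℂ}
    {r : MvPolynomial (Fin n ⊕ Fin (N + 1)) ℂ} {w : Fin (N + 1) → ℂ} (hv : v ∈ F.fib u)
    (hw0 : w 0 = 1) (hΦ : Φ.Φ u τ₀ (pm v) = pm w)
    (hr : aeval (Sum.elim u w) r ≠ 0) :
    ∀ᶠ τ in 𝓝 τ₀, ∃ w' ∈ F.fib u, w' 0 = 1 ∧ Φ.Φ u τ (pm v) = pm w' ∧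
      aeval (Sum.elim u w') r ≠ 0 := by
  obtain ⟨w1, w₀, h1, h2, h3, h4⟩ := Φ.lim (𝓝 τ₀) (fun _ => u) (fun τ => τ) (fun _ => v) u τ₀ v
    tendsto_const_nhds tendsto_id tendsto_const_nhds (Eventually.of_forall fun _ => hv) hv
  obtain ⟨w3, h5, h6⟩ := pm_rescale h1 (h3.symm.trans hΦ)
  have h7 : Tendsto (fun τ => w3 τ 0) (𝓝 τ₀) (𝓝 (1 : ℂ)) := by
    have := (tendsto_pi_nhds.1 h5) 0
    rwa [hw0] at this
  have h8 : Tendsto (fun τ => (w3 τ 0)⁻¹ • w3 τ) (𝓝 τ₀) (𝓝 w) := by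
    have := (h7.inv₀ one_ne_zero).smul h5
    rwa [inv_one, one_smul] at this
  obtain ⟨G, hG, hGc⟩ : ∃ G : (Fin n → ℂ) × (Fin (N + 1) → ℂ) → ℂ,
      (∀ u v, G (u, v) = aeval (Sum.elim u v) r) ∧ Continuous G :=
    ⟨fun p => aeval (Sum.elim p.1 p.2) r, fun _ _ => rfl, continuous_aeval_elim r⟩
  have h9 : Tendsto (fun τ => G (u, (w3 τ 0)⁻¹ • w3 τ)) (𝓝 τ₀) (𝓝 (G (u, w))) :=
    (hGc.tendsto (u, w)).comp (tendsto_const_nhds.prodMk_nhds h8)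
  rw [← hG] at hr
  filter_upwards [h4, h7.eventually_ne one_ne_zero, h9.eventually_ne hr] with τ ha hb hc
  have hp : pm ((w3 τ 0)⁻¹ • w3 τ) = pm (w1 τ) := by
    rw [pm_smul (inv_ne_zero hb), h6]
  rw [hG] at hc
  refine ⟨(w3 τ 0)⁻¹ • w3 τ, ?_, ?_, ?_, hc⟩
  · rw [← F.pm_mem_iff, hp, F.pm_mem_iff]
    exact ha.1
  · change (w3 τ 0)⁻¹ * w3 τ 0 = 1
    exact inv_mul_cancel₀ hb
  · rw [hp]
    exact ha.2

/-- Proof. As for `dense_section_mul` (`tv/A2.lean`; copy its private lemmas) with `ev m p = evp Φ (u p.1) (E p.1 • p.2) (a p.1)` if `m ≤ ‖p.1‖ ≤ m + 1/2`, `p.1 ∉ Bb` and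
`good p.1 (Φ (u p.1) (E p.1 • p.2) (a p.1))`, and `ev m p = 0` otherwise. For the existence of points with `ev m p f ≠ 0`: choose `z` in the annulus with `eval (u z) Q ≠ 0`, `E z ≠ 0` and `z ∉ Bb` (discrete), and a time `τ` with
`aeval (Sum.elim (u z) w) r ≠ 0` at `Φ (u z) τ (a z) = pm w`, `w 0 = 1`; this stays true for `τ'` near `τ` (`Φ.lim` for the filter `𝓝 τ`: representatives `w' → c w`, so their coordinate `0` is not zero, and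
`w' / w' 0 → w`; the fibre is a cone), and by `hG` some `τ'` near `τ` gives a good point. `Zd` is the set of the points `(T m).1` for those `m` for which the three conditions hold for `T m` (one point in each annulus at most, so it is
discrete), and `τ` interpolates: `τ ((T m).1) = (T m).2`. -/
theorem dense_section_good (Φ : FlowAPI F) (A : AlgPack F) (u : ℂ → Fin n → ℂ)
    (hd : ∀ Q : MvPolynomial (Fin n) ℂ, aeval F.t Q ≠ 0 → ∀ z, ∀ᶠ w in 𝓝[≠] z, eval (u w) Q ≠ 0)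
    (a : ℂ → PS N) (ha : ∀ z, F.Sec u a z) (E : ℂ → ℂ) (Bb : Set ℂ)
    (hB : ∀ z, ∀ᶠ w in 𝓝[≠] z, w ∉ Bb) (hE : ∀ z, z ∉ Bb → E z ≠ 0) (good : ℂ → PS N → Prop)
    (hG : ∀ z, z ∉ Bb → ∀ B : Set (Fin g → ℂ), IsOpen B → B.Nonempty →
      ∃ τ ∈ B, good z (Φ.Φ (u z) τ (a z))) :
    ∃ (τ : ℂ → Fin g → ℂ) (Zd : Set ℂ), Differentiable ℂ τ ∧ (∀ z, ∀ᶠ w in 𝓝[≠] z, w ∉ Zd) ∧
      (∀ z ∈ Zd, z ∉ Bb ∧ good z (Φ.Φ (u z) (E z • τ z) (a z))) ∧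
      ∀ r : MvPolynomial (Fin n ⊕ Fin (N + 1)) ℂ, aeval (co F.t F.x 0) r ≠ 0 →
        ∃ z ∈ Zd, ∃ v : Fin (N + 1) → ℂ, v ∈ F.fib (u z) ∧ v 0 = 1 ∧
          Φ.Φ (u z) (E z • τ z) (a z) = pm v ∧ aeval (Sum.elim (u z) v) r ≠ 0 := by
  classical
  have hne : ∀ r : MvPolynomial (Fin n ⊕ Fin (N + 1)) ℂ, aeval (co F.t F.x 0) r ≠ 0 ↔
      aeval (F.Y 0) r ≠ (0 : F.R 0) := by
    intro r
    rw [not_iff_not, ← F.aeval_Y_coe]
    exact ZeroMemClass.coe_eq_zero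
  obtain ⟨s, hs⟩ := exists_span F 0
  -- points in the annuli
  have hann : ∀ (m : ℕ) (Q : MvPolynomial (Fin n) ℂ), aeval F.t Q ≠ 0 →
      ∃ z : ℂ, (m : ℝ) ≤ ‖z‖ ∧ ‖z‖ ≤ m + 1 / 2 ∧ eval (u z) Q ≠ 0 ∧ z ∉ Bb := by
    intro m Q hQ
    have h1 := (hd Q hQ ((m : ℂ) + 1 / 4)).and (hB ((m : ℂ) + 1 / 4))
    have h2 : ∀ᶠ w in 𝓝[≠] ((m : ℂ) + 1 / 4), dist w ((m : ℂ) + 1 / 4) < 1 / 4 :=
      mem_nhdsWithin_of_mem_nhds (Metric.ball_mem_nhds _ (by norm_num : (0 : ℝ) < 1 / 4))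
    obtain ⟨w, hw1, hw2⟩ := (h1.and h2).exists
    have h3 : ‖(m : ℂ) + 1 / 4‖ = m + 1 / 4 := by
      have : (m : ℂ) + 1 / 4 = ((m + 1 / 4 : ℝ) : ℂ) := by push_cast; ring
      rw [this, Complex.norm_real, Real.norm_of_nonneg (by positivity)]
    rw [dist_eq_norm] at hw2
    have h4 := norm_sub_norm_le w ((m : ℂ) + 1 / 4)
    have h5 := norm_sub_norm_le ((m : ℂ) + 1 / 4) w
    rw [norm_sub_rev] at h5
    rw [h3] at h4 h5
    exact ⟨w, by linarith, by linarith, hw1.1, hw1.2⟩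
  let cnd : ℕ → ℂ × (Fin g → ℂ) → Prop := fun m p =>
    (m : ℝ) ≤ ‖p.1‖ ∧ ‖p.1‖ ≤ m + 1 / 2 ∧ p.1 ∉ Bb ∧ good p.1 (Φ.Φ (u p.1) (E p.1 • p.2) (a p.1))
  let ev : ℕ → ℂ × (Fin g → ℂ) → F.R 0 →ₗ[ℂ] ℂ := fun m p =>
    if cnd m p then evp Φ (u p.1) (E p.1 • p.2) (a p.1) else 0
  obtain ⟨T, hT⟩ := choose_times (T := ℂ × (Fin g → ℂ)) s hs ev (by
      intro f hf
      obtain ⟨r, rfl⟩ := F.exists_poly 0 f
      obtain ⟨h, hh, hm⟩ := moving Φ A 0 r ((hne r).2 hf)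
      refine Eventually.of_forall fun m => ?_
      obtain ⟨z, hz1, hz2, hz3, hz4⟩ := hann m h hh
      obtain ⟨v, hv, hav⟩ := (ha z).2.self_of_nhds
      obtain ⟨τ₀, w₀, hw₀, hw₀0, hΦ₀, hr₀⟩ := hm _ hz3 v hv
      obtain ⟨B, hB1, hB2, hB3⟩ := mem_nhds_iff.1 (evp_near Φ hv hw₀0 hΦ₀ hr₀)
      obtain ⟨τ, hτB, hgood⟩ := hG z hz4 B hB2 ⟨τ₀, hB3⟩
      obtain ⟨w, hw, hw0, hΦ, hr⟩ := hB1 hτB
      rw [← hav] at hΦ
      refine ⟨(z, (E z)⁻¹ • τ), ?_⟩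
      have hEt : E z • ((E z)⁻¹ • τ) = τ := smul_inv_smul₀ (hE z hz4) τ
      have hcnd : cnd m (z, (E z)⁻¹ • τ) := by
        refine ⟨hz1, hz2, hz4, ?_⟩
        change good z (Φ.Φ (u z) (E z • ((E z)⁻¹ • τ)) (a z))
        rw [hEt]
        exact hgood
      have he : ev m (z, (E z)⁻¹ • τ) = evp Φ (u z) τ (a z) := by
        change (if cnd m (z, (E z)⁻¹ • τ) then
          evp Φ (u z) (E z • ((E z)⁻¹ • τ)) (a z) else 0) = _
        rw [if_pos hcnd, hEt]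
      rw [he]
      exact ne_evp hw hw0 hΦ hr)
  let Z : ℕ → ℂ := fun m => if (m : ℝ) ≤ ‖(T m).1‖ ∧ ‖(T m).1‖ ≤ m + 1 / 2 then (T m).1 else m
  have hZ : ∀ m : ℕ, (m : ℝ) ≤ ‖Z m‖ ∧ ‖Z m‖ ≤ m + 1 / 2 := by
    intro m
    by_cases h : (m : ℝ) ≤ ‖(T m).1‖ ∧ ‖(T m).1‖ ≤ m + 1 / 2
    · simp only [Z, if_pos h]
      exact h
    · simp only [Z, if_neg h, Complex.norm_natCast]
      exact ⟨le_rfl, by linarith⟩
  choose ψ hψ1 hψ2 using fun i => interp_seq Z hZ fun m => (T m).2 i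
  have hval : ∀ m, cnd m (T m) → (fun i => ψ i (T m).1) = (T m).2 := by
    intro m hm
    have hZm : Z m = (T m).1 := by
      simp only [Z, if_pos (⟨hm.1, hm.2.1⟩ : (m : ℝ) ≤ ‖(T m).1‖ ∧ ‖(T m).1‖ ≤ m + 1 / 2)]
    funext i
    rw [← hZm]
    exact hψ2 i m
  refine ⟨fun z i => ψ i z, {z | ∃ m, cnd m (T m) ∧ (T m).1 = z}, differentiable_pi.2 hψ1, ?_, ?_,
    fun r hr => ?_⟩
  · -- discreteness
    have huniq : ∀ z w w' : ℂ, (∃ m, cnd m (T m) ∧ (T m).1 = w) →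
        (∃ m, cnd m (T m) ∧ (T m).1 = w') → dist w z < 1 / 4 → dist w' z < 1 / 4 → w = w' := by
      rintro z w w' ⟨m, hm, rfl⟩ ⟨m', hm', rfl⟩ h1 h2
      have h3 : dist (T m).1 (T m').1 < 1 / 2 := by
        have := dist_triangle_right (T m).1 (T m').1 z
        linarith
      rw [dist_eq_norm] at h3
      have h4 := norm_sub_norm_le (T m).1 (T m').1
      have h5 := norm_sub_norm_le (T m').1 (T m).1
      rw [norm_sub_rev] at h5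
      have h6 : (m : ℝ) < m' + 1 := by linarith [hm.1, hm'.2.1]
      have h7 : (m' : ℝ) < m + 1 := by linarith [hm'.1, hm.2.1]
      have h8 : m = m' := by
        have h9 : m < m' + 1 := by exact_mod_cast h6
        have h10 : m' < m + 1 := by exact_mod_cast h7
        omega
      rw [h8]
    intro z
    by_cases hex : ∃ w₀ : ℂ, (∃ m, cnd m (T m) ∧ (T m).1 = w₀) ∧ w₀ ≠ z ∧ dist w₀ z < 1 / 4
    · obtain ⟨w₀, h1, h2, h3⟩ := hex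
      have h4 : ∀ᶠ w in 𝓝 z, dist w z < 1 / 4 :=
        Metric.ball_mem_nhds _ (by norm_num : (0 : ℝ) < 1 / 4)
      have h5 : ∀ᶠ w in 𝓝 z, w ≠ w₀ := eventually_ne_nhds h2.symm
      refine mem_nhdsWithin_of_mem_nhds ?_
      filter_upwards [h4, h5] with w hw1 hw2 hw3
      exact hw2 (huniq z w w₀ hw3 h1 hw1 h3)
    · have h4 : ∀ᶠ w in 𝓝[≠] z, dist w z < 1 / 4 :=
        mem_nhdsWithin_of_mem_nhds (Metric.ball_mem_nhds _ (by norm_num : (0 : ℝ) < 1 / 4))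
      filter_upwards [h4, self_mem_nhdsWithin] with w hw1 hw2 hw3
      exact hex ⟨w, hw3, hw2, hw1⟩
  · rintro z ⟨m, hm, rfl⟩
    refine ⟨hm.2.2.1, ?_⟩
    change good (T m).1 (Φ.Φ (u (T m).1) (E (T m).1 • fun i => ψ i (T m).1) (a (T m).1))
    rw [hval m hm]
    exact hm.2.2.2
  · obtain ⟨m, hm⟩ := hT _ ((hne r).1 hr)
    have hcond : cnd m (T m) := by
      by_contra hcon
      apply hm
      change (if cnd m (T m) then
        evp Φ (u (T m).1) (E (T m).1 • (T m).2) (a (T m).1) else 0) _ = 0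
      rw [if_neg hcon]
      rfl
    have hm' : evp Φ (u (T m).1) (E (T m).1 • (T m).2) (a (T m).1) (aeval (F.Y 0) r) ≠ 0 := by
      have : ev m (T m) = evp Φ (u (T m).1) (E (T m).1 • (T m).2) (a (T m).1) := if_pos hcond
      rwa [this] at hm
    obtain ⟨v, hv, hv0, hΦ, h2⟩ := evp_ne hm'
    refine ⟨(T m).1, ⟨m, hcond, rfl⟩, v, hv, hv0, ?_, h2⟩
    change Φ.Φ (u (T m).1) (E (T m).1 • fun i => ψ i (T m).1) (a (T m).1) = pm v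
    rw [hval m hcond]
    exact hΦ

end Pool.Agent.AbFib
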