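import Pool.Agent.Lib_MP_1209e6_tu.O1

/-! PIECE Fo: finite order of vanishing. -/

set_option autoImplicit false

open Filter Topology

namespace Pool.Agent.AbPencil

/-- Proof. The function `φ w = f (w, c)` is differentiable at each point of a neighbourhood of the closed ball (`line` in the direction `(1, 0)`), hence analytic there, and
`((dd (1, 0))^[i] f) (w, c) = iteratedDeriv i φ w` for `w` in this neighbourhood (induction on `i`; for `i + 1` use that the equality holds near `w`). If all these vanish at `z` then `φ = 0` near `z`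
(Taylor series), so `φ = 0` on the closed ball (identity theorem, `AnalyticOnNhd.eqOn_zero_of_preconnected_of_eventuallyEq_zero`), contradiction at `z₁`. -/
theorem exists_order {g : ℕ} {f : ℂ × (Fin g → ℂ) → ℂ} {U : Set (ℂ × (Fin g → ℂ))} (hf : GHol f U)
    {z₁ : ℂ} {ε : ℝ} {c : Fin g → ℂ} (hU : ∀ z ∈ Metric.closedBall z₁ ε, (z, c) ∈ U)
    (h1 : ∃ z ∈ Metric.closedBall z₁ ε, f (z, c) ≠ 0) {z : ℂ} (hz : z ∈ Metric.closedBall z₁ ε) :
    ∃ i : ℕ, ((dd ((1 : ℂ), (0 : Fin g → ℂ)))^[i] f) (z, c) ≠ 0 := by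
  classical
  set φ : ℂ → ℂ := fun w => f (w, c) with hφ
  have hdd : ∀ (h : ℂ × (Fin g → ℂ) → ℂ) (w : ℂ),
      dd ((1 : ℂ), (0 : Fin g → ℂ)) h (w, c) = deriv (fun v => h (v, c)) w := by
    intro h w
    have e1 : (fun s : ℂ => h ((w, c) + s • ((1 : ℂ), (0 : Fin g → ℂ)))) =
        fun s : ℂ => (fun v => h (v, c)) (w + s) := by
      funext s
      simp
    unfold dd
    have e2 := deriv_comp_const_add (f := fun v => h (v, c)) w (0 : ℂ)
    rw [e1]
    simpa using e2
  have hit : ∀ (i : ℕ) (w : ℂ),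
      ((dd ((1 : ℂ), (0 : Fin g → ℂ)))^[i] f) (w, c) = iteratedDeriv i φ w := by
    intro i
    induction i with
    | zero => intro w; simp [hφ]
    | succ n ih =>
      intro w
      rw [Function.iterate_succ', Function.comp_apply, hdd, iteratedDeriv_succ]
      congr 1
      funext v
      exact ih v
  have hN : IsOpen {w : ℂ | (w, c) ∈ U} := hf.op.preimage (by fun_prop)
  have hd : DifferentiableOn ℂ φ {w : ℂ | (w, c) ∈ U} := by
    intro w hw
    have h2 := hf.line (w, c) hw ((1 : ℂ), (0 : Fin g → ℂ))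
    have e1 : (fun s : ℂ => f ((w, c) + s • ((1 : ℂ), (0 : Fin g → ℂ)))) =
        fun s : ℂ => φ (w + s) := by
      funext s
      simp [hφ]
    rw [e1] at h2
    have h3 : DifferentiableAt ℂ (fun v : ℂ => φ (w + (v - w))) w := by
      have h4 : DifferentiableAt ℂ (fun v : ℂ => v - w) w := by fun_prop
      have h5 : DifferentiableAt ℂ (fun s : ℂ => φ (w + s)) ((fun v : ℂ => v - w) w) := by
        simpa using h2
      exact DifferentiableAt.comp (g := fun s : ℂ => φ (w + s)) (f := fun v : ℂ => v - w) w h5 h4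
    have h6 : DifferentiableAt ℂ φ w := by
      simpa using h3
    exact h6.differentiableWithinAt
  have ha : AnalyticOnNhd ℂ φ {w : ℂ | (w, c) ∈ U} := hd.analyticOnNhd hN
  by_contra hcon
  push Not at hcon
  have hz0 : ∀ i, iteratedDeriv i φ z = 0 := fun i => by rw [← hit]; exact hcon i
  have haz : AnalyticAt ℂ φ z := ha z (hU z hz)
  have htop : analyticOrderAt φ z = ⊤ := by
    rw [ENat.eq_top_iff_forall_ge]
    intro n
    exact (natCast_le_analyticOrderAt_iff_iteratedDeriv_eq_zero haz).2 fun i _ => hz0 i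
  have hev : ∀ᶠ w in 𝓝 z, φ w = 0 := analyticOrderAt_eq_top.1 htop
  have hball : AnalyticOnNhd ℂ φ (Metric.closedBall z₁ ε) := fun w hw => ha w (hU w hw)
  have hpre : IsPreconnected (Metric.closedBall z₁ ε) := (convex_closedBall z₁ ε).isPreconnected
  have hzero := hball.eqOn_zero_of_preconnected_of_eventuallyEq_zero hpre hz hev
  obtain ⟨w, hw, hne⟩ := h1
  exact hne (hzero hw)

end Pool.Agent.AbPencil
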