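import Pool.Agent.Lib_MP_1209e6_tu.Av0

/-! PIECE L2: topology. -/

set_option autoImplicit false

open Filter Topology

namespace Pool.Agent.AbPencil

theorem dloc_aux {C : Type} [PseudoMetricSpace C] {G : Set (ℂ × C)} (hG : IsOpen G) {S : Set ℂ}
    (hS : IsCompact S) {c : C} (h : ∀ z ∈ S, (z, c) ∈ G) :
    ∃ V : Set C, IsOpen V ∧ c ∈ V ∧ ∀ c' ∈ V, ∀ z ∈ S, (z, c') ∈ G := by
  obtain ⟨u, v, -, hv, hu, hc, huv⟩ := generalized_tube_lemma hS (isCompact_singleton (x := c)) hG (by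
    rintro ⟨z, c'⟩ ⟨h1, h2⟩
    have h3 : c' = c := h2
    rw [h3]
    exact h z h1)
  exact ⟨v, hv, hc rfl, fun c' hc' z hz => huv ⟨hu hz, hc'⟩⟩

theorem dloc_compact_aux {C : Type} [PseudoMetricSpace C] {G : Set (ℂ × C)} (hG : IsOpen G)
    {K : Set ℂ} (hK : IsCompact K) {c : C} (h : ∀ z ∈ K, DLoc G z c) :
    ∃ ε > 0, ∀ B : Set C, IsOpen B → B.Nonempty → B ⊆ Metric.ball c ε →
      ∃ B' ⊆ B, IsOpen B' ∧ B'.Nonempty ∧ ∀ c' ∈ B', ∀ z' ∈ K, (z', c') ∈ G := by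
  refine hK.induction_on (p := fun S => ∃ ε > 0, ∀ B : Set C, IsOpen B → B.Nonempty →
    B ⊆ Metric.ball c ε → ∃ B' ⊆ B, IsOpen B' ∧ B'.Nonempty ∧ ∀ c' ∈ B', ∀ z' ∈ S, (z', c') ∈ G)
    ?_ ?_ ?_ ?_
  · exact ⟨1, one_pos, fun B hB hne _ => ⟨B, subset_rfl, hB, hne, fun c' _ z' hz' => hz'.elim⟩⟩
  · rintro S T hST ⟨ε, hε, hT⟩
    refine ⟨ε, hε, fun B hB hne hsub => ?_⟩
    obtain ⟨B', h1, h2, h3, h4⟩ := hT B hB hne hsub
    exact ⟨B', h1, h2, h3, fun c' hc' z' hz' => h4 c' hc' z' (hST hz')⟩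
  · rintro S T ⟨ε, hε, hS⟩ ⟨δ, hδ, hT⟩
    refine ⟨min ε δ, lt_min hε hδ, fun B hB hne hsub => ?_⟩
    obtain ⟨B1, h1, h2, h3, h4⟩ := hS B hB hne
      (hsub.trans (Metric.ball_subset_ball (min_le_left _ _)))
    obtain ⟨B2, k1, k2, k3, k4⟩ := hT B1 h2 h3
      (h1.trans (hsub.trans (Metric.ball_subset_ball (min_le_right _ _))))
    refine ⟨B2, k1.trans h1, k2, k3, fun c' hc' z' hz' => ?_⟩
    rcases hz' with hz' | hz'
    · exact h4 c' (k1 hc') z' hz'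
    · exact k4 c' hc' z' hz'
  · intro z hz
    obtain ⟨ε, hε, hd⟩ := h z hz
    refine ⟨Metric.closedBall z ε, mem_nhdsWithin_of_mem_nhds (Metric.closedBall_mem_nhds z hε),
      ε, hε, fun B hB hne hsub => ?_⟩
    obtain ⟨c', hc', h1⟩ := hd B hB hne hsub
    obtain ⟨V, hV, hcV, h2⟩ := dloc_aux hG (isCompact_closedBall z ε) h1
    exact ⟨B ∩ V, Set.inter_subset_left, hB.inter hV, ⟨c', hc', hcV⟩,
      fun c'' hc'' z' hz' => h2 c'' hc''.2 z' hz'⟩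

/-- Proof. For `z` in `K` let `ε_z` be the radius of `DLoc G z c`; finitely many balls `ball z_i ε_{z_i}` cover `K`. Let `ε = min ε_{z_i}`. Given `B`, choose successively open nonempty sets
`B ⊇ B_1 ⊇ B_2 ⊇ …` such that `(z', c') ∈ G` for all `z' ∈ closedBall z_i ε_{z_i}`, `c' ∈ B_i`: `DLoc` gives one `c' ∈ B_(i-1)`, and by compactness of the closed ball and
openness of `G` (`generalized_tube_lemma`) all nearby `c''` are good as well. -/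
theorem dloc_compact {C : Type} [PseudoMetricSpace C] {G : Set (ℂ × C)} (hG : IsOpen G) {K : Set ℂ}
    (hK : IsCompact K) {c : C} (h : ∀ z ∈ K, DLoc G z c) :
    ∃ ε > 0, ∀ B : Set C, IsOpen B → B.Nonempty → B ⊆ Metric.ball c ε →
      ∃ c' ∈ B, ∀ z' ∈ K, (z', c') ∈ G := by
  obtain ⟨ε, hε, h1⟩ := dloc_compact_aux hG hK h
  refine ⟨ε, hε, fun B hB hne hsub => ?_⟩
  obtain ⟨B', h2, -, ⟨c', hc'⟩, h3⟩ := h1 B hB hne hsub
  exact ⟨c', h2 hc', h3 c' hc'⟩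

/-- Proof. `Ω` is a countable union of compact sets `K_n`; the sets `{c | ∀ z ∈ K_n, (z, c) ∈ G}` are open (tube lemma) and dense (`dloc_compact`), so by Baire's theorem they
have a common point. -/
theorem dloc_baire {C : Type} [MetricSpace C] [CompleteSpace C] [Nonempty C] {G : Set (ℂ × C)}
    (hG : IsOpen G) {Ω : Set ℂ} (hΩ : IsOpen Ω) (h : ∀ z ∈ Ω, ∀ c, DLoc G z c) :
    ∃ c, ∀ z ∈ Ω, (z, c) ∈ G := by
  obtain ⟨F, hF1, hF2, hF3, hF4⟩ := hΩ.exists_iUnion_isClosed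
  have hcpt : ∀ n : ℕ, IsCompact (F n ∩ Metric.closedBall (0 : ℂ) n) := fun n =>
    (isCompact_closedBall (0 : ℂ) (n : ℝ)).inter_left (hF1 n)
  have hopen : ∀ n : ℕ, IsOpen {c : C | ∀ z ∈ F n ∩ Metric.closedBall (0 : ℂ) n, (z, c) ∈ G} := by
    intro n
    rw [isOpen_iff_forall_mem_open]
    intro c hc
    obtain ⟨V, hV, hcV, h1⟩ := dloc_aux hG (hcpt n) hc
    exact ⟨V, fun c' hc' => h1 c' hc', hV, hcV⟩
  have hdense : ∀ n : ℕ, Dense {c : C | ∀ z ∈ F n ∩ Metric.closedBall (0 : ℂ) n, (z, c) ∈ G} := by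
    intro n
    rw [dense_iff_inter_open]
    rintro V hV ⟨c, hc⟩
    obtain ⟨ε, hε, h1⟩ := dloc_compact hG (hcpt n) (c := c) fun z hz => h z (hF2 n hz.1) c
    obtain ⟨c', hc', h2⟩ := h1 (V ∩ Metric.ball c ε) (hV.inter Metric.isOpen_ball)
      ⟨c, hc, Metric.mem_ball_self hε⟩ Set.inter_subset_right
    exact ⟨c', hc'.1, h2⟩
  obtain ⟨c, hc⟩ := (dense_iInter_of_isOpen_nat hopen hdense).nonempty
  refine ⟨c, fun z hz => ?_⟩
  rw [← hF3, Set.mem_iUnion] at hz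
  obtain ⟨m, hm⟩ := hz
  obtain ⟨k, hk⟩ := exists_nat_ge ‖z‖
  rw [Set.mem_iInter] at hc
  refine hc (max m k) z ⟨hF4 (le_max_left m k) hm, ?_⟩
  rw [mem_closedBall_zero_iff]
  exact hk.trans (by exact_mod_cast le_max_right m k)

end Pool.Agent.AbPencil
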