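import Pool.Agent.Lib_MP_1209e6_tu.O2

/-! PIECE O4: the implicit function. -/

set_option autoImplicit false

open Filter Topology

namespace Pool.Agent.AbPencil

/-- the derivative of `(z, c) ↦ (h (z, c), c)` as an equivalence -/
theorem implicit_equiv {g : ℕ} (f' : ℂ × (Fin g → ℂ) →L[ℂ] ℂ)
    (h : f' ((1 : ℂ), (0 : Fin g → ℂ)) ≠ 0) :
    ∃ e : (ℂ × (Fin g → ℂ)) ≃L[ℂ] (ℂ × (Fin g → ℂ)),
      (e : ℂ × (Fin g → ℂ) →L[ℂ] ℂ × (Fin g → ℂ)) =
        f'.prod (ContinuousLinearMap.snd ℂ ℂ (Fin g → ℂ)) := by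
  have hinj : Function.Injective (f'.prod (ContinuousLinearMap.snd ℂ ℂ (Fin g → ℂ))).toLinearMap := by
    rw [injective_iff_map_eq_zero]
    rintro ⟨a, b⟩ hab
    have h2 : f' (a, b) = 0 ∧ b = 0 := by
      have := Prod.ext_iff.1 hab
      exact ⟨this.1, this.2⟩
    obtain ⟨h3, rfl⟩ := h2
    have h4 : ((a, 0) : ℂ × (Fin g → ℂ)) = a • ((1 : ℂ), (0 : Fin g → ℂ)) := by
      ext <;> simp
    rw [h4, map_smul, smul_eq_mul, mul_eq_zero] at h3
    rcases h3 with h3 | h3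
    · rw [h3]; rfl
    · exact absurd h3 h
  refine ⟨(LinearEquiv.ofInjectiveEndo _ hinj).toContinuousLinearEquiv, ?_⟩
  ext x <;> simp

/-- Proof. `h` has a strict derivative at each point of `U` (`ghol_strict`), the partial derivative `dd (1, 0) h` is continuous (`ghol_dd`) and nonzero at `(z₀, c₀)`, so on a neighbourhood.
Apply the implicit function theorem (`Mathlib/Analysis/Calculus/ImplicitFunction/ProdDomain.lean`, `Bivariate.lean`, or `HasStrictFDerivAt.toOpenPartialHomeomorph` for the map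
`(z, c) ↦ (h (z, c), c)`, whose strict derivative is invertible at each point of a neighbourhood): it is a homeomorphism of a neighbourhood onto an open set, `ζ c` is the first component of the
inverse at `(0, c)`; it is strictly differentiable at each `c` near `c₀` (`HasStrictFDerivAt.to_localInverse`, or the theorem applied at the point `(ζ c, c)`). Shrink `ε`: first choose `ε` for `z` such that
`h` is injective in `z` on the closed ball for each `c`, then choose `δ ≤ ε` for `c`; the statement has two radii. -/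
theorem implicit {g : ℕ} {h : ℂ × (Fin g → ℂ) → ℂ} {U : Set (ℂ × (Fin g → ℂ))} (hh : GHol h U)
    {z₀ : ℂ} {c₀ : Fin g → ℂ} (hp : (z₀, c₀) ∈ U) (h0 : h (z₀, c₀) = 0)
    (h1 : dd ((1 : ℂ), (0 : Fin g → ℂ)) h (z₀, c₀) ≠ 0) :
    ∃ ε > 0, ∃ δ > 0, ∃ ζ : (Fin g → ℂ) → ℂ,
      (∀ z ∈ Metric.closedBall z₀ ε, ∀ c ∈ Metric.ball c₀ δ, (z, c) ∈ U ∧
        dd ((1 : ℂ), (0 : Fin g → ℂ)) h (z, c) ≠ 0) ∧
      (∀ c ∈ Metric.ball c₀ δ, ζ c ∈ Metric.ball z₀ ε ∧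
        ∀ z ∈ Metric.closedBall z₀ ε, h (z, c) = 0 ↔ z = ζ c) ∧
      ∀ c ∈ Metric.ball c₀ δ, ∃ ζ' : (Fin g → ℂ) →L[ℂ] ℂ, HasStrictFDerivAt ζ ζ' c := by
  obtain ⟨f₀, hf₀, hf₀'⟩ := ghol_strict hh hp
  rw [← hf₀'] at h1
  obtain ⟨e₀, he₀⟩ := implicit_equiv f₀ h1
  have hΦ : HasStrictFDerivAt (fun p : ℂ × (Fin g → ℂ) => (h p, p.2))
      (e₀ : ℂ × (Fin g → ℂ) →L[ℂ] ℂ × (Fin g → ℂ)) (z₀, c₀) := by
    rw [he₀]
    exact hf₀.prodMk hasStrictFDerivAt_snd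
  obtain ⟨E, hE, hE0⟩ : ∃ E : OpenPartialHomeomorph (ℂ × (Fin g → ℂ)) (ℂ × (Fin g → ℂ)),
      (∀ p, E p = (h p, p.2)) ∧ (z₀, c₀) ∈ E.source :=
    ⟨hΦ.toOpenPartialHomeomorph _, fun _ => rfl, hΦ.mem_toOpenPartialHomeomorph_source⟩
  have hdd := ghol_dd hh ((1 : ℂ), (0 : Fin g → ℂ))
  have hN : E.source ∩ {p | p ∈ U ∧ dd ((1 : ℂ), (0 : Fin g → ℂ)) h p ≠ 0} ∈ 𝓝 (z₀, c₀) := by
    refine inter_mem (E.open_source.mem_nhds hE0) ?_
    have h2 : ContinuousAt (dd ((1 : ℂ), (0 : Fin g → ℂ)) h) (z₀, c₀) :=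
      hdd.cont.continuousAt (hh.op.mem_nhds hp)
    exact (hh.op.eventually_mem hp).and (h2.eventually_ne (by rw [← hf₀']; exact h1))
  obtain ⟨ε, hε, hεN⟩ := Metric.nhds_basis_closedBall.mem_iff.1 hN
  have hεN' : ∀ z ∈ Metric.closedBall z₀ ε, ∀ c ∈ Metric.closedBall c₀ ε,
      (z, c) ∈ E.source ∧ (z, c) ∈ U ∧ dd ((1 : ℂ), (0 : Fin g → ℂ)) h (z, c) ≠ 0 := by
    intro z hz c hc
    have := hεN (show (z, c) ∈ Metric.closedBall (z₀, c₀) ε by
      rw [← closedBall_prod_same]; exact ⟨hz, hc⟩)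
    exact this
  have hE1 : E (z₀, c₀) = (0, c₀) := by rw [hE, h0]
  have hT0 : ((0 : ℂ), c₀) ∈ E.target := by
    rw [← hE1]; exact E.map_source hE0
  have hs0 : E.symm (0, c₀) = (z₀, c₀) := by
    rw [← hE1]; exact E.left_inv hE0
  have hcont : ContinuousAt (fun c : Fin g → ℂ => E.symm ((0 : ℂ), c)) c₀ := by
    have h2 : ContinuousAt E.symm ((0 : ℂ), c₀) := E.continuousAt_symm hT0
    exact ContinuousAt.comp (f := fun c : Fin g → ℂ => ((0 : ℂ), c)) h2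
      (by fun_prop)
  have hev : ∀ᶠ c in 𝓝 c₀, ((0 : ℂ), c) ∈ E.target ∧
      E.symm ((0 : ℂ), c) ∈ Metric.ball z₀ ε ×ˢ Metric.ball c₀ ε := by
    refine Filter.Eventually.and ?_ ?_
    · have h2 : ContinuousAt (fun c : Fin g → ℂ => ((0 : ℂ), c)) c₀ := by fun_prop
      exact h2 (E.open_target.mem_nhds hT0)
    · refine hcont ?_
      show _ ∈ 𝓝 (E.symm (0, c₀))
      rw [hs0]
      exact prod_mem_nhds (Metric.ball_mem_nhds _ hε) (Metric.ball_mem_nhds _ hε)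
  obtain ⟨δ, hδ, hδ'⟩ := Metric.eventually_nhds_iff_ball.1 hev
  have key : ∀ c ∈ Metric.ball c₀ (min δ ε), ((0 : ℂ), c) ∈ E.target ∧
      (E.symm (0, c)).1 ∈ Metric.ball z₀ ε ∧
      E.symm (0, c) = ((E.symm (0, c)).1, c) := by
    intro c hc
    obtain ⟨h2, h3⟩ := hδ' c (Metric.ball_subset_ball (min_le_left _ _) hc)
    refine ⟨h2, h3.1, ?_⟩
    have h4 := E.right_inv h2
    rw [hE] at h4
    have h5 : (E.symm (0, c)).2 = c := (Prod.ext_iff.1 h4).2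
    exact Prod.ext rfl h5
  refine ⟨ε, hε, min δ ε, lt_min hδ hε, fun c => (E.symm (0, c)).1, ?_, ?_, ?_⟩
  · intro z hz c hc
    exact (hεN' z hz c (Metric.ball_subset_closedBall
      (Metric.ball_subset_ball (min_le_right _ _) hc))).2
  · intro c hc
    obtain ⟨h2, h3, h4⟩ := key c hc
    refine ⟨h3, fun z hz => ⟨fun hz0 => ?_, fun hz0 => ?_⟩⟩
    · have h5 : (z, c) ∈ E.source := (hεN' z hz c (Metric.ball_subset_closedBall
        (Metric.ball_subset_ball (min_le_right _ _) hc))).1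
      have h6 : E (z, c) = (0, c) := by rw [hE, hz0]
      have h7 := E.left_inv h5
      rw [h6] at h7
      show z = (E.symm (0, c)).1
      rw [h7]
    · have h5 := E.right_inv h2
      rw [h4, hE] at h5
      rw [hz0]
      exact (Prod.ext_iff.1 h5).1
  · intro c hc
    obtain ⟨h2, h3, h4⟩ := key c hc
    have hcε : c ∈ Metric.closedBall c₀ ε := Metric.ball_subset_closedBall
      (Metric.ball_subset_ball (min_le_right _ _) hc)
    obtain ⟨-, h5, h6⟩ := hεN' _ (Metric.ball_subset_closedBall h3) c hcε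
    obtain ⟨f₁, hf₁, hf₁'⟩ := ghol_strict hh h5
    rw [← hf₁'] at h6
    obtain ⟨e₁, he₁⟩ := implicit_equiv f₁ h6
    have h7 : HasStrictFDerivAt (E : ℂ × (Fin g → ℂ) → ℂ × (Fin g → ℂ))
        (e₁ : ℂ × (Fin g → ℂ) →L[ℂ] ℂ × (Fin g → ℂ)) (E.symm (0, c)) := by
      have h8 : (E : ℂ × (Fin g → ℂ) → ℂ × (Fin g → ℂ)) = fun p => (h p, p.2) := funext hE
      rw [h8, he₁, h4]
      exact hf₁.prodMk hasStrictFDerivAt_snd
    have h9 := E.hasStrictFDerivAt_symm h2 h7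
    have h10 : HasStrictFDerivAt (fun c : Fin g → ℂ => ((0 : ℂ), c))
        ((0 : (Fin g → ℂ) →L[ℂ] ℂ).prod (ContinuousLinearMap.id ℂ (Fin g → ℂ))) c :=
      (hasStrictFDerivAt_const _ _).prodMk (hasStrictFDerivAt_id _)
    exact ⟨_, (hasStrictFDerivAt_fst.comp c (h9.comp c h10))⟩

end Pool.Agent.AbPencil
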