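import Pool.Agent.Lib_MP_1209e6_tu.O2

/-! PIECE Rk: a rank argument. -/

set_option autoImplicit false

open Filter Topology

namespace Pool.Agent.AbPencil

/-- functionals without a common zero: as many as the dimension suffice -/
theorem Rk_select {ι : Type} : ∀ (m : ℕ) (K : Type) [AddCommGroup K] [Module ℂ K] [FiniteDimensional ℂ K]
    (φ : ι → K →ₗ[ℂ] ℂ), Module.finrank ℂ K = m → (∀ d, (∀ l, φ l d = 0) → d = 0) →
    ∃ κ : Fin m → ι, ∀ d, (∀ i, φ (κ i) d = 0) → d = 0 := by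
  intro m
  induction m with
  | zero =>
    intro K _ _ _ φ hK _
    refine ⟨fun i => i.elim0, fun d _ => ?_⟩
    have : Subsingleton K := Module.finrank_zero_iff.1 hK
    exact Subsingleton.elim _ _
  | succ k ih =>
    intro K _ _ _ φ hK hφ
    obtain ⟨l₀, hl₀⟩ : ∃ l, φ l ≠ 0 := by
      by_contra hcon
      push Not at hcon
      have hall : ∀ d : K, d = 0 := fun d => hφ d fun l => by rw [hcon l]; rfl
      have : Subsingleton K := ⟨fun a b => by rw [hall a, hall b]⟩
      rw [Module.finrank_zero_of_subsingleton] at hK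
      omega
    have hker : Module.finrank ℂ (LinearMap.ker (φ l₀)) = k := by
      have := Module.Dual.finrank_ker_add_one_of_ne_zero (f := φ l₀) hl₀
      omega
    obtain ⟨κ, hκ⟩ := ih (LinearMap.ker (φ l₀)) (fun l => (φ l).domRestrict _) hker (by
      intro d hd
      apply Subtype.ext
      exact hφ d.1 fun l => hd l)
    refine ⟨Fin.cons l₀ κ, fun d hd => ?_⟩
    have h0 : φ l₀ d = 0 := by simpa using hd 0
    have h1 : (⟨d, h0⟩ : LinearMap.ker (φ l₀)) = 0 := hκ _ fun i => by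
      have := hd i.succ
      simpa using this
    exact congrArg Subtype.val h1

/-- a polynomial which vanishes on a nonempty open set is zero -/
theorem Rk_poly {e : ℕ} (P : MvPolynomial (Fin e) ℂ) (T : Fin e → ℂ)
    (h : ∀ᶠ T' in 𝓝 T, MvPolynomial.eval T' P = 0) : P = 0 := by
  obtain ⟨r, hr, hball⟩ := Metric.eventually_nhds_iff_ball.1 h
  refine MvPolynomial.funext_set (fun i => Metric.ball (T i) r) (fun i => ?_) fun x hx => ?_
  · exact infinite_of_mem_nhds (T i) (Metric.ball_mem_nhds _ hr)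
  · rw [map_zero]
    apply hball
    rw [Metric.mem_ball, dist_pi_lt_iff hr]
    exact fun i => hx i (Set.mem_univ i)

/-- Proof. For `c ∈ B` consider the map `Ψ : c ↦ (ζ c, (V l (ζ c, c))_l) ∈ ℂ × ℂ^(N+1)`, strictly differentiable (`ghol_strict`, chain rule). Its derivative at `c` is injective: if `ζ' d = 0` and
the derivative of `c ↦ V l (ζ c, c)` in the direction `d`, which is `f' (ζ' d, d) = f' (0, d) = dd (0, d) (V l) (ζ c, c)`, vanishes for all `l`, then `d = 0` (`imm`).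
Case 1: `ζ' ≠ 0` at some `c₂ ∈ B`. The linear forms `ζ'` and the derivatives of the `V l (ζ c, c)` span the dual of `ℂ^(e+1)`; extend `ζ'` by `e` of them, with indices `κ`, to a basis. Then
`c ↦ (ζ c, (V (κ m) (ζ c, c))_m) ∈ ℂ × ℂ^e` has a surjective strict derivative at `c₂`, so it maps neighbourhoods of `c₂` onto neighbourhoods (`HasStrictFDerivAt.map_nhds_eq_of_surj`). As
`qe (q κ) (ζ c) (V (κ ·) (ζ c, c)) = f κ (ζ c, c) = 0` for `c ∈ B`, `qe (q κ) z T = 0` for `(z, T)` in a neighbourhood of the image point `(z₂, T₂)`; in particular (`z = z₂`) the polynomial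
`(q κ).map (eval z₂)` vanishes on a nonempty open subset of `ℂ^e`, so it is zero (`MvPolynomial.funext_set` or an own lemma: a polynomial over `ℂ` which vanishes on an open set is zero), contradiction to
`q0`. Case 2: `ζ' = 0` at all points of `B`. On a ball `B' ⊂ B` the function `ζ` is constant, `= z₂`. The derivatives of `c ↦ V l (z₂, c)` at `c₂` span the dual of `ℂ^(e+1)`, so `e` of them, with indices
`κ`, are linearly independent, and `c ↦ (V (κ m) (z₂, c))_m ∈ ℂ^e` is open at `c₂`. Again `(q κ).map (eval z₂)` vanishes on an open set. -/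
theorem rank_contra {e N : ℕ} (D : LocData e N) (B : Set (Fin (e + 1) → ℂ)) (hB : IsOpen B)
    (hne : B.Nonempty) (ζ : (Fin (e + 1) → ℂ) → ℂ)
    (hζ : ∀ c ∈ B, ∃ ζ' : (Fin (e + 1) → ℂ) →L[ℂ] ℂ, HasStrictFDerivAt ζ ζ' c)
    (hU : ∀ c ∈ B, (ζ c, c) ∈ D.U) (h0 : ∀ c ∈ B, ∀ κ, D.f κ (ζ c, c) = 0) : False := by
  -- strict derivatives
  have hstr : ∀ c ∈ B, ∀ ζ' : (Fin (e + 1) → ℂ) →L[ℂ] ℂ, HasStrictFDerivAt ζ ζ' c →
      ∃ φ : Fin (N + 1) → (Fin (e + 1) → ℂ) →L[ℂ] ℂ,
        (∀ l, HasStrictFDerivAt (fun c => D.V l (ζ c, c)) (φ l) c) ∧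
        ∀ d, ζ' d = 0 → (∀ l, φ l d = 0) → d = 0 := by
    intro c hc ζ' hζ'
    have hV := fun l => ghol_strict (D.hV l) (hU c hc)
    choose f' hf' hf'd using hV
    refine ⟨fun l => (f' l).comp (ζ'.prod (ContinuousLinearMap.id ℂ _)), fun l => ?_, fun d hd hl => ?_⟩
    · exact HasStrictFDerivAt.comp (g := D.V l) (f := fun c => (ζ c, c)) c (hf' l)
        (hζ'.prodMk (hasStrictFDerivAt_id c))
    · refine D.imm _ (hU c hc) d fun l => ?_
      rw [← hf'd l]
      have := hl l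
      simpa [hd] using this
  by_cases hcase : ∃ c ∈ B, ∃ ζ' : (Fin (e + 1) → ℂ) →L[ℂ] ℂ, HasStrictFDerivAt ζ ζ' c ∧ ζ' ≠ 0
  · obtain ⟨c, hc, ζ', hζ', hne'⟩ := hcase
    obtain ⟨φ, hφ, hinj⟩ := hstr c hc ζ' hζ'
    have hnel : (ζ' : (Fin (e + 1) → ℂ) →ₗ[ℂ] ℂ) ≠ 0 := by
      intro h
      apply hne'
      ext1 d
      exact LinearMap.congr_fun h d
    have hker : Module.finrank ℂ (LinearMap.ker (ζ' : (Fin (e + 1) → ℂ) →ₗ[ℂ] ℂ)) = e := by
      have := Module.Dual.finrank_ker_add_one_of_ne_zero (f := (ζ' : (Fin (e + 1) → ℂ) →ₗ[ℂ] ℂ)) hnel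
      rw [Module.finrank_fin_fun] at this
      omega
    obtain ⟨κ, hκ⟩ := Rk_select e (LinearMap.ker (ζ' : (Fin (e + 1) → ℂ) →ₗ[ℂ] ℂ))
      (fun l => (φ l : (Fin (e + 1) → ℂ) →ₗ[ℂ] ℂ).domRestrict _) hker (by
        intro d hd
        apply Subtype.ext
        exact hinj d.1 d.2 fun l => hd l)
    have hinj2 : ∀ d, ζ' d = 0 → (∀ i, φ (κ i) d = 0) → d = 0 := by
      intro d hd hl
      have h1 : (⟨d, hd⟩ : LinearMap.ker (ζ' : (Fin (e + 1) → ℂ) →ₗ[ℂ] ℂ)) = 0 := hκ _ fun i => hl i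
      exact congrArg Subtype.val h1
    have hF : HasStrictFDerivAt (fun c => ((ζ c, fun m => D.V (κ m) (ζ c, c)) : ℂ × (Fin e → ℂ)))
        (ζ'.prod (ContinuousLinearMap.pi fun m => φ (κ m))) c :=
      hζ'.prodMk (hasStrictFDerivAt_pi.2 fun m => hφ (κ m))
    have hsurj : (ζ'.prod (ContinuousLinearMap.pi fun m => φ (κ m))).range = ⊤ := by
      have hi : Function.Injective
          ((ζ'.prod (ContinuousLinearMap.pi fun m => φ (κ m))) :
            (Fin (e + 1) → ℂ) →ₗ[ℂ] ℂ × (Fin e → ℂ)) := by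
        rw [← LinearMap.ker_eq_bot, LinearMap.ker_eq_bot']
        intro d hd
        have h1 : ζ' d = 0 := congrArg Prod.fst hd
        have h2 : (fun m => φ (κ m) d) = 0 := congrArg Prod.snd hd
        exact hinj2 d h1 fun i => congrFun h2 i
      have hs := (LinearMap.injective_iff_surjective_of_finrank_eq_finrank (by
        rw [Module.finrank_prod, Module.finrank_fin_fun, Module.finrank_fin_fun, Module.finrank_self]
        omega)).1 hi
      exact LinearMap.range_eq_top.2 hs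
    have hopen := hF.map_nhds_eq_of_surj hsurj
    have h1 : ∀ᶠ y in 𝓝 ((ζ c, fun m => D.V (κ m) (ζ c, c)) : ℂ × (Fin e → ℂ)),
        ∃ c' ∈ B, (ζ c', fun m => D.V (κ m) (ζ c', c')) = y := by
      rw [← hopen, eventually_map]
      filter_upwards [hB.mem_nhds hc] with c' hc'
      exact ⟨c', hc', rfl⟩
    have h2 : ∀ᶠ T in 𝓝 (fun m => D.V (κ m) (ζ c, c)),
        ∃ c' ∈ B, ((ζ c', fun m => D.V (κ m) (ζ c', c')) : ℂ × (Fin e → ℂ)) = (ζ c, T) := by
      have ht : Tendsto (fun T : Fin e → ℂ => ((ζ c, T) : ℂ × (Fin e → ℂ)))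
          (𝓝 (fun m => D.V (κ m) (ζ c, c))) (𝓝 (ζ c, fun m => D.V (κ m) (ζ c, c))) :=
        (Continuous.prodMk_right (ζ c)).tendsto _
      exact ht.eventually h1
    refine D.q0 κ _ (hU c hc) (Rk_poly _ (fun m => D.V (κ m) (ζ c, c)) ?_)
    filter_upwards [h2] with T hT
    obtain ⟨c', hc', hcT⟩ := hT
    have hz : ζ c' = ζ c := congrArg Prod.fst hcT
    have hTT : (fun m => D.V (κ m) (ζ c', c')) = T := congrArg Prod.snd hcT
    have h3 := h0 c' hc' κ
    unfold LocData.f qe at h3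
    rw [← hTT]
    rw [hz] at h3 ⊢
    exact h3
  · push Not at hcase
    obtain ⟨c, hc⟩ := hne
    have hz0 : ∀ c ∈ B, HasStrictFDerivAt ζ (0 : (Fin (e + 1) → ℂ) →L[ℂ] ℂ) c := by
      intro c hc
      obtain ⟨ζ', hζ'⟩ := hζ c hc
      have := hcase c hc ζ' hζ'
      rwa [this] at hζ'
    obtain ⟨r, hr, hrB⟩ := Metric.isOpen_iff.1 hB c hc
    have hconst : ∀ c' ∈ Metric.ball c r, ζ c' = ζ c := by
      intro c' hc'
      refine (convex_ball c r).is_const_of_fderivWithin_eq_zero (𝕜 := ℂ) ?_ ?_ hc'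
        (Metric.mem_ball_self hr)
      · exact fun x hx => ((hz0 x (hrB hx)).hasFDerivAt.differentiableAt).differentiableWithinAt
      · intro x hx
        rw [fderivWithin_of_isOpen Metric.isOpen_ball hx]
        exact (hz0 x (hrB hx)).hasFDerivAt.fderiv
    obtain ⟨φ, hφ, hinj⟩ := hstr c hc 0 (hz0 c hc)
    obtain ⟨κ', hκ'⟩ := Rk_select (e + 1) (Fin (e + 1) → ℂ)
      (fun l => (φ l : (Fin (e + 1) → ℂ) →ₗ[ℂ] ℂ)) (Module.finrank_fin_fun ℂ)
      (fun d hd => hinj d rfl fun l => hd l)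
    set κ : Fin e → Fin (N + 1) := fun i => κ' i.castSucc with hκdef
    have hF : HasStrictFDerivAt (fun c => (fun m => D.V (κ m) (ζ c, c) : Fin e → ℂ))
        (ContinuousLinearMap.pi fun m => φ (κ m)) c :=
      hasStrictFDerivAt_pi.2 fun m => hφ (κ m)
    have hbig : Function.Surjective
        (LinearMap.pi fun i => (φ (κ' i) : (Fin (e + 1) → ℂ) →ₗ[ℂ] ℂ)) := by
      have hi : Function.Injective
          (LinearMap.pi fun i => (φ (κ' i) : (Fin (e + 1) → ℂ) →ₗ[ℂ] ℂ)) := by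
        rw [← LinearMap.ker_eq_bot, LinearMap.ker_eq_bot']
        intro d hd
        exact hκ' d fun i => congrFun hd i
      exact (LinearMap.injective_iff_surjective_of_finrank_eq_finrank rfl).1 hi
    have hsurj : (ContinuousLinearMap.pi fun m => φ (κ m)).range = ⊤ := by
      refine LinearMap.range_eq_top.2 fun y => ?_
      obtain ⟨d, hd⟩ := hbig (Fin.snoc y 0)
      refine ⟨d, ?_⟩
      funext m
      have := congrFun hd m.castSucc
      simpa using this
    have hopen := hF.map_nhds_eq_of_surj hsurj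
    refine D.q0 κ _ (hU c hc) (Rk_poly _ (fun m => D.V (κ m) (ζ c, c)) ?_)
    rw [← hopen, eventually_map]
    filter_upwards [Metric.ball_mem_nhds c hr] with c' hc'
    have h3 := h0 c' (hrB hc') κ
    unfold LocData.f qe at h3
    rw [hconst c' hc'] at h3 ⊢
    exact h3

end Pool.Agent.AbPencil
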