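import Pool.Agent.Lib_MP_1209e6_tu.O3
import Pool.Agent.Lib_MP_1209e6_tu.O4
import Pool.Agent.Lib_MP_1209e6_tu.Rk
import Pool.Agent.Lib_MP_1209e6_tu.Fo
import Pool.Agent.Lib_MP_1209e6_tu.L2

/-! Avoidance of sets of codimension two: the local statement (assembly). -/

set_option autoImplicit false

open Filter Topology

namespace Pool.Agent.AbPencil

/-- the derivative in the direction of `z` -/
noncomputable abbrev dz {g : ℕ} (f : ℂ × (Fin g → ℂ) → ℂ) : ℂ × (Fin g → ℂ) → ℂ :=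
  dd ((1 : ℂ), (0 : Fin g → ℂ)) f

theorem ghol_iter {g : ℕ} {f : ℂ × (Fin g → ℂ) → ℂ} {U : Set (ℂ × (Fin g → ℂ))} (hf : GHol f U)
    (i : ℕ) : GHol (dz^[i] f) U := by
  induction i with
  | zero => exact hf
  | succ i ih =>
    rw [Function.iterate_succ', Function.comp]
    exact ghol_dd ih _

theorem data_f {e N : ℕ} (D : LocData e N) (κ : Fin e → Fin (N + 1)) : GHol (D.f κ) D.U :=
  ghol_qe D.op (D.q κ) (fun m => D.V (κ m)) (D.hq κ) fun m => D.hV _

theorem good_open {e N : ℕ} (D : LocData e N) : IsOpen D.good := by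
  rw [isOpen_iff_mem_nhds]
  rintro p ⟨hp, κ, hκ⟩
  have h1 : ContinuousAt (D.f κ) p := ((data_f D κ).cont p hp).continuousAt (D.op.mem_nhds hp)
  filter_upwards [D.op.mem_nhds hp, h1.eventually_ne hκ] with p' h2 h3
  exact ⟨h2, κ, h3⟩

/-- an open set containing `(z, c)` gives `DLoc` -/
theorem dloc_of_mem {C : Type} [PseudoMetricSpace C] {G : Set (ℂ × C)} (hG : IsOpen G) {z : ℂ} {c : C}
    (h : (z, c) ∈ G) : DLoc G z c := by
  obtain ⟨ε, hε, h1⟩ := Metric.isOpen_iff.1 hG _ h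
  refine ⟨ε / 2, by positivity, fun B _ hne hB => ?_⟩
  obtain ⟨c', hc'⟩ := hne
  refine ⟨c', hc', fun z' hz' => h1 ?_⟩
  rw [Metric.mem_ball, Prod.dist_eq, max_lt_iff]
  have h2 := Metric.mem_ball.1 (hB hc')
  have h3 := Metric.mem_closedBall.1 hz'
  exact ⟨by dsimp only; linarith, by dsimp only; linarith⟩

/-- the induction on the order of vanishing -/
theorem dloc_of_order {e N : ℕ} (D : LocData e N) (κ : Fin e → Fin (N + 1)) (m : ℕ) :
    ∀ z c, (z, c) ∈ D.U → (∃ i ≤ m, (dz^[i] (D.f κ)) (z, c) ≠ 0) → DLoc D.good z c := by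
  induction m with
  | zero =>
    rintro z c hU ⟨i, hi, h⟩
    obtain rfl : i = 0 := by omega
    exact dloc_of_mem (good_open D) ⟨hU, κ, h⟩
  | succ m ih =>
    rintro z₀ c₀ hU ⟨i, hi, h⟩
    by_cases hlow : ∃ i ≤ m, (dz^[i] (D.f κ)) (z₀, c₀) ≠ 0
    · exact ih z₀ c₀ hU hlow
    push Not at hlow
    obtain rfl : i = m + 1 := by
      by_contra h1
      exact h (hlow i (by omega))
    have hGm := ghol_iter (data_f D κ) m
    rw [Function.iterate_succ', Function.comp] at h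
    obtain ⟨ε, hε, δ, hδ, ζ, h1, h2, h3⟩ := implicit hGm hU (hlow m le_rfl) h
    refine ⟨min (ε / 2) δ, lt_min (by positivity) hδ, fun B hB hne hBδ => ?_⟩
    have hBδ' : B ⊆ Metric.ball c₀ δ := hBδ.trans (Metric.ball_subset_ball (min_le_right _ _))
    have hBε : ∀ z ∈ Metric.closedBall z₀ (min (ε / 2) δ), z ∈ Metric.closedBall z₀ ε := fun z hz =>
      Metric.closedBall_subset_closedBall ((min_le_left _ _).trans (by linarith)) hz
    -- it is enough to find a point of `B` at which all points are locally good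
    suffices hmain : ∃ c ∈ B, ∀ z ∈ Metric.closedBall z₀ ε, DLoc D.good z c by
      obtain ⟨c, hc, hz⟩ := hmain
      obtain ⟨r, hr, h4⟩ := dloc_compact (good_open D) (isCompact_closedBall z₀ ε) hz
      obtain ⟨c', hc', h5⟩ := h4 (B ∩ Metric.ball c r) (hB.inter Metric.isOpen_ball)
        ⟨c, hc, Metric.mem_ball_self hr⟩ Set.inter_subset_right
      exact ⟨c', hc'.1, fun z hz => h5 z (hBε z hz)⟩
    by_cases hcase : ∃ c ∈ B, ∃ i ≤ m, (dz^[i] (D.f κ)) (ζ c, c) ≠ 0
    · obtain ⟨c, hc, i, hi, h4⟩ := hcase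
      refine ⟨c, hc, fun z hz => ?_⟩
      have h5 := (h1 z hz c (hBδ' hc)).1
      by_cases hzζ : z = ζ c
      · subst hzζ
        exact ih _ c h5 ⟨i, hi, h4⟩
      · refine ih z c h5 ⟨m, le_rfl, fun h6 => hzζ ?_⟩
        exact ((h2 c (hBδ' hc)).2 z hz).1 h6
    · push Not at hcase
      by_cases hbad : ∃ c ∈ B, (ζ c, c) ∈ D.good
      · obtain ⟨c, hc, h4⟩ := hbad
        refine ⟨c, hc, fun z hz => ?_⟩
        by_cases hzζ : z = ζ c
        · subst hzζ
          exact dloc_of_mem (good_open D) h4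
        · refine ih z c (h1 z hz c (hBδ' hc)).1 ⟨m, le_rfl, fun h6 => hzζ ?_⟩
          exact ((h2 c (hBδ' hc)).2 z hz).1 h6
      · push Not at hbad
        have hζU : ∀ c ∈ B, (ζ c, c) ∈ D.U := fun c hc =>
          (h1 _ (Metric.ball_subset_closedBall (h2 c (hBδ' hc)).1) c (hBδ' hc)).1
        refine (rank_contra D B hB hne ζ (fun c hc => h3 c (hBδ' hc)) hζU
          fun c hc κ' => ?_).elim
        by_contra h4
        exact hbad c hc ⟨hζU c hc, κ', h4⟩

/-- the local statement -/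
theorem dloc_of_data {e N : ℕ} (D : LocData e N) (z : ℂ) (c : Fin (e + 1) → ℂ) (hU : (z, c) ∈ D.U) :
    DLoc D.good z c := by
  obtain ⟨r, hr, h1⟩ := Metric.isOpen_iff.1 D.op _ hU
  refine ⟨r / 2, by positivity, fun B hB hne hBr => ?_⟩
  have hmem : ∀ z' ∈ Metric.closedBall z (r / 2), ∀ c' ∈ B, (z', c') ∈ D.U := by
    intro z' hz' c' hc'
    apply h1
    rw [Metric.mem_ball, Prod.dist_eq, max_lt_iff]
    have h2 := Metric.mem_ball.1 (hBr hc')
    have h3 := Metric.mem_closedBall.1 hz'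
    exact ⟨by dsimp only; linarith, by dsimp only; linarith⟩
  have hz0 : z ∈ Metric.closedBall z (r / 2) := Metric.mem_closedBall_self (by positivity)
  have hex : ∃ c' ∈ B, ∃ κ, D.f κ (z, c') ≠ 0 := by
    by_contra hcon
    push Not at hcon
    exact rank_contra D B hB hne (fun _ => z)
      (fun c' _ => ⟨0, hasStrictFDerivAt_const z c'⟩) (fun c' hc' => hmem z hz0 c' hc')
      fun c' hc' κ => hcon c' hc' κ
  obtain ⟨c', hc', κ, hκ⟩ := hex
  have hall : ∀ z' ∈ Metric.closedBall z (r / 2), DLoc D.good z' c' := by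
    intro z' hz'
    obtain ⟨i, hi⟩ := exists_order (data_f D κ) (fun z'' hz'' => hmem z'' hz'' c' hc')
      ⟨z, hz0, hκ⟩ hz'
    exact dloc_of_order D κ i z' c' (hmem z' hz' c' hc') ⟨i, le_rfl, hi⟩
  obtain ⟨r', hr', h4⟩ := dloc_compact (good_open D) (isCompact_closedBall z (r / 2)) hall
  obtain ⟨c'', hc'', h5⟩ := h4 (B ∩ Metric.ball c' r') (hB.inter Metric.isOpen_ball)
    ⟨c', hc', Metric.mem_ball_self hr'⟩ Set.inter_subset_right
  exact ⟨c'', hc''.1, h5⟩

end Pool.Agent.AbPencil
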