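import Pool.Agent.Lib_MP_1209e6_tu.Stmt
import Pool.Agent.Lib_MP_1209e6_ag.Der

/-! PIECE P2: transcendence degrees. -/

set_option autoImplicit false

namespace Pool.Agent.AbPencil

variable {L : Type} [Field L] [Algebra ℂ L]

/-- Proof. If `a, b ∈ F'` are algebraically independent over `coordField F F' x j (Set.range κ)`, the field generated over `F` by the `e` elements `w m = x (κ m) / x j`, which are algebraically independent over `F`, then
`w, a, b` are `e + 2` elements of `F'` algebraically independent over `F` (`AlgebraicIndependent.sumElim`, `algebraicIndependent_sum…`; the intermediate field `adjoin ℂ (F ∪ W)` is the restriction of scalars of `adjoin F W`; independence over a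
field is the same as independence over the field generated). -/
theorem coord_trdeg {F F' : IntermediateField ℂ L} (hle : F ≤ F') {N e : ℕ}
    (x : Fin (N + 1) → F') (j : Fin (N + 1)) (κ : Fin e → Fin (N + 1))
    (hF : ∀ s : Fin (e + 2) → L, (∀ i, s i ∈ F') → ¬ AlgebraicIndependent F s)
    (hκ : AlgebraicIndependent F fun m => ((x (κ m) / x j : F') : L)) :
    ∀ a ∈ F', ∀ b ∈ F', ¬ AlgebraicIndependent (coordField F F' x j (Set.range κ)) ![a, b] := by
  intro a ha b hb hab
  have hFC : F ≤ coordField F F' x j (Set.range κ) := fun z hz =>
    IntermediateField.subset_adjoin ℂ _ (Or.inl hz)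
  let _ : Algebra F (coordField F F' x j (Set.range κ)) :=
    (IntermediateField.inclusion hFC).toRingHom.toAlgebra
  have : IsScalarTower F (coordField F F' x j (Set.range κ)) L :=
    IsScalarTower.of_algebraMap_eq fun _ => rfl
  have h1 : AlgebraicIndependent F
      (Sum.elim ![a, b] fun m => ((x (κ m) / x j : F') : L)) := by
    refine hκ.sumElim_of_tower (S := coordField F F' x j (Set.range κ)) ?_ hab
    rintro _ ⟨m, rfl⟩
    exact ⟨⟨((x (κ m) / x j : F') : L), IntermediateField.subset_adjoin ℂ _
      (Or.inr ⟨κ m, ⟨m, rfl⟩, rfl⟩)⟩, rfl⟩
  have h2 := h1.comp (fun i : Fin (e + 2) => (finSumFinEquiv.symm i).swap)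
    (Sum.swap_leftInverse.injective.comp finSumFinEquiv.symm.injective)
  refine hF _ (fun i => ?_) h2
  show Sum.elim ![a, b] (fun m => ((x (κ m) / x j : F') : L)) (finSumFinEquiv.symm i).swap ∈ F'
  rcases finSumFinEquiv.symm i with m | m
  · exact (x (κ m) / x j : F').2
  · fin_cases m
    · exact ha
    · exact hb

/-- Proof. If `s` is algebraically independent over `k` then there are derivations `D_i` of `K` with `D_i = 0` on `k` and `D_i (s j) = δ_ij` (extend `s` to a transcendence basis of `K` over `k`; characteristic zero; derivations with given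
values on an algebraically independent family exist, there are such lemmas in the `fl`, `ab`, `sl`, `ag` libraries). They are `g + 1` elements of the span of `g` derivations, linearly independent over `K`. -/
theorem no_indep_of_span {K : Type} [Field K] [Algebra ℂ K]
    (hfg : ∃ T : Finset K, IntermediateField.adjoin ℂ (T : Set K) = ⊤) (k : IntermediateField ℂ K)
    {g : ℕ} (E : Fin g → Derivation ℂ K K)
    (hspan : ∀ D : Derivation ℂ K K, (∀ a ∈ k, D a = 0) → D ∈ Submodule.span K (Set.range E))
    (s : Fin (g + 1) → K) : ¬ AlgebraicIndependent k s := by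
  classical
  intro hs
  have : CharZero k := charZero_of_injective_algebraMap (algebraMap ℂ k).injective
  have h1 : ∀ i : Fin (g + 1), ∃ D : Derivation k K K, ∀ j, D (s j) = (Pi.single i 1 : Fin (g + 1) → K) j :=
    fun i => Pool.Agent.Campana.exists_derivation s hs _
  choose D hD using h1
  have h2 : ∀ i, (D i).restrictScalars ℂ ∈ Submodule.span K (Set.range E) := by
    intro i
    refine hspan _ fun a ha => ?_
    exact (D i).map_algebraMap (⟨a, ha⟩ : k)
  have h3 : LinearIndependent K fun i => (D i).restrictScalars ℂ := by
    rw [Fintype.linearIndependent_iff]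
    intro c hc j
    have h4 := congrArg (fun δ : Derivation ℂ K K => δ (s j)) hc
    have h5 : (∑ i, c i • (D i).restrictScalars ℂ) (s j) = ∑ i, c i * D i (s j) := by
      have h := congrFun (map_sum (Derivation.coeFnAddMonoidHom (R := ℂ) (A := K) (M := K))
        (fun i => c i • (D i).restrictScalars ℂ) Finset.univ) (s j)
      rw [Finset.sum_apply] at h
      exact h
    have h6 : ∑ i, c i * D i (s j) = c j := by
      simp only [hD]
      rw [Finset.sum_eq_single j]
      · simp
      · intro i _ hij
        rw [Pi.single_eq_of_ne hij.symm, mul_zero]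
      · intro h; exact absurd (Finset.mem_univ j) h
    rw [← h6, ← h5]
    exact h4
  have h7 := linearIndependent_le_span_aux' (R := K) _ h3 (Set.range E) (by
    rintro _ ⟨i, rfl⟩
    exact h2 i)
  have h8 : Fintype.card (Set.range E) ≤ Fintype.card (Fin g) :=
    Fintype.card_le_of_surjective (Set.rangeFactorization E) Set.rangeFactorization_surjective
  rw [Fintype.card_fin] at h7 h8
  omega

/-- Proof. A relation over `ℂ(t) ⊂ F'` is a relation over `ℂ(t) ⊂ L` (the inclusion `F' → L` maps the first field onto the second, and it is injective). -/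
theorem indep_transfer {F' : IntermediateField ℂ L} {n : ℕ} {ι : Type} (t : Fin n → F') (s : ι → F')
    (h : AlgebraicIndependent (IntermediateField.adjoin ℂ (Set.range fun i => (t i : L)))
      fun i => (s i : L)) :
    AlgebraicIndependent (IntermediateField.adjoin ℂ (Set.range t)) s := by
  have hmem : ∀ z : IntermediateField.adjoin ℂ (Set.range t),
      ((z : F') : L) ∈ IntermediateField.adjoin ℂ (Set.range fun i => (t i : L)) := by
    intro z
    have h1 : ((z : F') : L) ∈ (IntermediateField.adjoin ℂ (Set.range t)).map F'.val :=
      ⟨(z : F'), z.2, rfl⟩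
    rw [IntermediateField.adjoin_map] at h1
    have h2 : (F'.val '' Set.range t) = Set.range fun i => (t i : L) := by
      rw [← Set.range_comp]
      rfl
    rwa [h2] at h1
  let f : IntermediateField.adjoin ℂ (Set.range t) →+*
      IntermediateField.adjoin ℂ (Set.range fun i => (t i : L)) :=
    { toFun := fun z => ⟨((z : F') : L), hmem z⟩
      map_one' := rfl
      map_mul' := fun _ _ => rfl
      map_zero' := rfl
      map_add' := fun _ _ => rfl }
  exact AlgebraicIndependent.of_ringHom_of_comp_eq f (F'.val : F' →+* L) h f.injective rfl

end Pool.Agent.AbPencil
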