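import Pool.Agent.Lib_MP_1209e6_tv.A4
import Pool.Agent.Lib_MP_1209e6_tu.L1
import Pool.Agent.Lib_MP_1209e6_tu.F1
import Pool.Agent.Lib_MP_1209e6_tu.F2
import Pool.Agent.Lib_MP_1209e6_tu.P2

/-! Sections with given jets over entire base curves which avoid a set of codimension two (assembly). -/

set_option autoImplicit false

open Filter Topology

namespace Pool.Agent.AbFib

open Pool.Agent.Campana Pool.Agent.CampanaFlow Pool.Agent.AbPencil MvPolynomial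

/-- the point `p` over `z` is not a common zero of the `q j κ` in some chart -/
def GoodPt {e N : ℕ} (q : Fin (N + 1) → (Fin e → Fin (N + 1)) → MvPolynomial (Fin e) (ℂ → ℂ)) (z : ℂ)
    (p : PS N) : Prop :=
  ∃ v, p = pm v ∧ ∃ j, v j ≠ 0 ∧ ∃ κ, qe (q j κ) z (fun m => v (κ m) / v j) ≠ 0

theorem goodPt_iff {e N : ℕ} (q : Fin (N + 1) → (Fin e → Fin (N + 1)) → MvPolynomial (Fin e) (ℂ → ℂ))
    (z : ℂ) (v : Fin (N + 1) → ℂ) : GoodPt q z (pm v) ↔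
      ∃ j, v j ≠ 0 ∧ ∃ κ, qe (q j κ) z (fun m => v (κ m) / v j) ≠ 0 := by
  constructor
  · rintro ⟨v', hv', j, hj, κ, hκ⟩
    obtain ⟨c, hc, rfl⟩ := pm_eq_iff.1 hv'
    have h1 : v' j ≠ 0 := hj
    refine ⟨j, ?_, κ, ?_⟩
    · rw [Pi.smul_apply, smul_eq_mul]
      exact mul_ne_zero hc h1
    · have h2 : (fun m => (c • v') (κ m) / (c • v') j) = fun m => v' (κ m) / v' j := by
        funext m
        rw [Pi.smul_apply, Pi.smul_apply, smul_eq_mul, smul_eq_mul, mul_div_mul_left _ _ hc]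
      rw [h2]
      exact hκ
  · rintro ⟨j, hj, κ, hκ⟩
    exact ⟨v, rfl, j, hj, κ, hκ⟩

section flow

variable {K : Type} [Field K] [Algebra ℂ K] {n N e : ℕ} {F : Fam n N (e + 1) K}

/-- local data for the flow along a section -/
theorem flow_data (Φ : FlowAPI F) (A : AlgPack F) (u : ℂ → Fin n → ℂ) (hu : Differentiable ℂ u)
    (a : ℂ → PS N) (ha : ∀ z, F.Sec u a z) (σ : ℂ → Fin (e + 1) → ℂ) (hσ : Differentiable ℂ σ)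
    (ε : ℂ → ℂ) (hε : Differentiable ℂ ε)
    (q : Fin (N + 1) → (Fin e → Fin (N + 1)) → MvPolynomial (Fin e) (ℂ → ℂ)) (Ω : Set ℂ)
    (hΩ : IsOpen Ω) (hq : ∀ j κ α, ∀ z ∈ Ω, AnalyticAt ℂ ((q j κ).coeff α) z)
    (hq0 : ∀ j κ, ∀ z ∈ Ω, (q j κ).map (Pi.evalRingHom (fun _ : ℂ => ℂ) z) ≠ 0)
    (hc : ∀ z ∈ Ω, eval (u z) A.c ≠ 0) (hε0 : ∀ z ∈ Ω, ε z ≠ 0) (p : ℂ × (Fin (e + 1) → ℂ))
    (hp : p.1 ∈ Ω) :
    ∃ (j : Fin (N + 1)) (D : LocData e N), p ∈ D.U ∧ D.q = q j ∧ (∀ p' ∈ D.U, p'.1 ∈ Ω) ∧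
      ∀ p' ∈ D.U, D.V j p' = 1 ∧
        Φ.Φ (u p'.1) (σ p'.1 + ε p'.1 • p'.2) (a p'.1) = pm fun l => D.V l p' := by
  obtain ⟨v, hv, hav⟩ := (ha p.1).2.self_of_nhds
  obtain ⟨v₁, hv₁, hΦ⟩ := Φ.mem (u p.1) (σ p.1 + ε p.1 • p.2) (a p.1) ⟨v, hv, hav⟩
  obtain ⟨j, hj⟩ : ∃ j, v₁ j ≠ 0 := by
    by_contra hcon
    push Not at hcon
    exact hv₁.1 (funext hcon)
  obtain ⟨U, V, hU, hpU, hV, hVU⟩ := flow_chart Φ u hu a ha σ hσ ε hε p v₁ hΦ j hj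
  have hU' : IsOpen (U ∩ Prod.fst ⁻¹' Ω) := hU.inter (hΩ.preimage continuous_fst)
  refine ⟨j, ⟨U ∩ Prod.fst ⁻¹' Ω, V, q j, hU', fun l => ?_, fun p' hp' d hd => ?_, ?_, ?_⟩, ⟨hpU, hp⟩,
    rfl, fun p' hp' => hp'.2, fun p' hp' => ⟨(hVU p' hp'.1).1, (hVU p' hp'.1).2.2⟩⟩
  · exact ⟨hU', (hV l).cont.mono Set.inter_subset_left, fun p' hp' => (hV l).line p' hp'.1⟩
  · exact flow_imm Φ A u a ha σ ε U hU V hV j hVU p' hp'.1 (hc _ hp'.2) (hε0 _ hp'.2) d hd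
  · intro κ α p' hp'
    exact hq j κ α _ hp'.2
  · intro κ p' hp'
    exact hq0 j κ _ hp'.2

/-- good parameters give good points -/
theorem good_of_data {Φ : FlowAPI F} {u : ℂ → Fin n → ℂ} {a : ℂ → PS N}
    {σ : ℂ → Fin (e + 1) → ℂ} {ε : ℂ → ℂ}
    {q : Fin (N + 1) → (Fin e → Fin (N + 1)) → MvPolynomial (Fin e) (ℂ → ℂ)} {j : Fin (N + 1)}
    {D : LocData e N} (hDq : D.q = q j) (hD : ∀ p' ∈ D.U, D.V j p' = 1 ∧
      Φ.Φ (u p'.1) (σ p'.1 + ε p'.1 • p'.2) (a p'.1) = pm fun l => D.V l p')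
    {p : ℂ × (Fin (e + 1) → ℂ)} (hp : p ∈ D.good) :
    GoodPt q p.1 (Φ.Φ (u p.1) (σ p.1 + ε p.1 • p.2) (a p.1)) := by
  obtain ⟨hU, κ, hκ⟩ := hp
  obtain ⟨h1, h2⟩ := hD p hU
  rw [h2, goodPt_iff]
  refine ⟨j, by rw [h1]; exact one_ne_zero, κ, ?_⟩
  have h3 : (fun m => D.V (κ m) p / D.V j p) = fun m => D.V (κ m) p := by
    funext m
    rw [h1, div_one]
  rw [h3, ← hDq]
  exact hκ

/-- the good parameters are open and locally dense -/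
theorem good_set (Φ : FlowAPI F) (A : AlgPack F) (u : ℂ → Fin n → ℂ) (hu : Differentiable ℂ u)
    (a : ℂ → PS N) (ha : ∀ z, F.Sec u a z) (σ : ℂ → Fin (e + 1) → ℂ) (hσ : Differentiable ℂ σ)
    (ε : ℂ → ℂ) (hε : Differentiable ℂ ε)
    (q : Fin (N + 1) → (Fin e → Fin (N + 1)) → MvPolynomial (Fin e) (ℂ → ℂ)) (Ω : Set ℂ)
    (hΩ : IsOpen Ω) (hq : ∀ j κ α, ∀ z ∈ Ω, AnalyticAt ℂ ((q j κ).coeff α) z)
    (hq0 : ∀ j κ, ∀ z ∈ Ω, (q j κ).map (Pi.evalRingHom (fun _ : ℂ => ℂ) z) ≠ 0)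
    (hc : ∀ z ∈ Ω, eval (u z) A.c ≠ 0) (hε0 : ∀ z ∈ Ω, ε z ≠ 0) :
    IsOpen {p : ℂ × (Fin (e + 1) → ℂ) | p.1 ∈ Ω ∧
      GoodPt q p.1 (Φ.Φ (u p.1) (σ p.1 + ε p.1 • p.2) (a p.1))} ∧
    ∀ z ∈ Ω, ∀ c, DLoc {p : ℂ × (Fin (e + 1) → ℂ) | p.1 ∈ Ω ∧
      GoodPt q p.1 (Φ.Φ (u p.1) (σ p.1 + ε p.1 • p.2) (a p.1))} z c := by
  constructor
  · rw [isOpen_iff_mem_nhds]
    rintro p ⟨hp, hg⟩
    obtain ⟨j, D, hpU, hDq, hDΩ, hD⟩ := flow_data Φ A u hu a ha σ hσ ε hε q Ω hΩ hq hq0 hc hε0 p hp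
    rw [(hD p hpU).2, goodPt_iff] at hg
    obtain ⟨j', hj', κ, hκ⟩ := hg
    have hVc : ∀ l, ContinuousAt (D.V l) p := fun l =>
      ((D.hV l).cont p hpU).continuousAt (D.op.mem_nhds hpU)
    have h1 : ContinuousAt (fun p' => qe (q j' κ) p'.1 fun m => D.V (κ m) p' / D.V j' p') p :=
      qe_cont (q j' κ) Prod.fst (fun m p' => D.V (κ m) p' / D.V j' p') p continuousAt_fst
        (fun α => hq j' κ α _ hp) fun m => (hVc _).div (hVc _) hj'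
    filter_upwards [D.op.mem_nhds hpU, (hVc j').eventually_ne hj', h1.eventually_ne hκ] with p' h2 h3 h4
    refine ⟨hDΩ p' h2, ?_⟩
    rw [(hD p' h2).2, goodPt_iff]
    exact ⟨j', h3, κ, h4⟩
  · intro z hz c
    obtain ⟨j, D, hpU, hDq, hDΩ, hD⟩ := flow_data Φ A u hu a ha σ hσ ε hε q Ω hΩ hq hq0 hc hε0 (z, c) hz
    obtain ⟨r, hr, h1⟩ := dloc_of_data D z c hpU
    refine ⟨r, hr, fun B hB hne hBr => ?_⟩
    obtain ⟨c', hc', h2⟩ := h1 B hB hne hBr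
    refine ⟨c', hc', fun z' hz' => ⟨hDΩ _ (h2 z' hz').1, ?_⟩⟩
    exact good_of_data hDq hD (h2 z' hz')

end flow

end Pool.Agent.AbFib
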