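import Pool.Agent.Lib_MP_1209e6_tu.E1

/-! Sections with given jets over entire base curves which avoid a set of codimension two (assembly, 2). -/

set_option autoImplicit false

open Filter Topology

namespace Pool.Agent.AbFib

open Pool.Agent.Campana Pool.Agent.CampanaFlow Pool.Agent.AbPencil MvPolynomial

theorem ab_entire_avoid {K : Type} [Field K] [Algebra ℂ K] {n N : ℕ} (t : Fin n → K)
    (x : Fin (N + 1) → K) (h : IsAbelianFibration t x) (u : ℂ → Fin n → ℂ)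
    (hu : Differentiable ℂ u)
    (hd : ∀ Q : MvPolynomial (Fin n) ℂ, aeval t Q ≠ 0 → ∀ z, ∀ᶠ w in 𝓝[≠] z, eval (u w) Q ≠ 0)
    (v₀ : ℂ → ℂ → Fin (N + 1) → ℂ)
    (hv₀ : ∀ z, AnalyticAt ℂ (v₀ z) z ∧ v₀ z z ≠ 0 ∧ ∀ᶠ w in 𝓝[≠] z, v₀ z w ∈ Fibre t x (u w))
    (Zb : Set ℂ) (hZ : ∀ z, ∀ᶠ w in 𝓝[≠] z, w ∉ Zb) (k : ℂ → ℕ) :
    ∃ g : ℕ, (∀ s : Fin (g + 1) → K,
        ¬ AlgebraicIndependent (IntermediateField.adjoin ℂ (Set.range t)) s) ∧
      ∀ e, g = e + 1 →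
      ∀ (q : Fin (N + 1) → (Fin e → Fin (N + 1)) → MvPolynomial (Fin e) (ℂ → ℂ)) (Zq : Set ℂ),
      (∀ z, ∀ᶠ w in 𝓝[≠] z, w ∉ Zq) →
      (∀ j κ α, ∀ z, z ∉ Zq → AnalyticAt ℂ ((q j κ).coeff α) z) →
      (∀ j κ, ∀ z, z ∉ Zq → (q j κ).map (Pi.evalRingHom (fun _ : ℂ => ℂ) z) ≠ 0) →
      ∃ (Bb : Set ℂ) (b : ℂ → PS N), Zb ⊆ Bb ∧ Zq ⊆ Bb ∧ (∀ z, ∀ᶠ w in 𝓝[≠] z, w ∉ Bb) ∧
        (∀ z, ∃ V : ℂ → Fin (N + 1) → ℂ, AnalyticAt ℂ V z ∧ V z ≠ 0 ∧
          (∀ᶠ w in 𝓝 z, V w ∈ Fibre t x (u w) ∧ b w = pm (V w)) ∧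
          (z ∈ Bb → ∀ j, v₀ z z j ≠ 0 → V z j ≠ 0 ∧ ∀ l, (((k z : ℕ) : ℤ) : WithTop ℤ) ≤
            meromorphicOrderAt (fun w => V w l / V w j - v₀ z w l / v₀ z w j) z)) ∧
        (∀ z, z ∉ Bb → GoodPt q z (b z)) ∧
        ∀ r : MvPolynomial (Fin n ⊕ Fin (N + 1)) ℂ, aeval (co t x 0) r ≠ 0 →
          ∃ (z : ℂ) (v : Fin (N + 1) → ℂ), v ∈ Fibre t x (u z) ∧ v 0 = 1 ∧ b z = pm v ∧
            aeval (Sum.elim (u z) v) r ≠ 0 := by
  classical
  obtain ⟨g, F, rfl, rfl, hspan, c₀, hc₀, hc⟩ := exists_fam t x h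
  have hfgK : ∃ T : Finset K, IntermediateField.adjoin ℂ (T : Set K) = ⊤ := by
    refine ⟨Finset.univ.image (co F.t F.x 0), ?_⟩
    rw [Finset.coe_image, Finset.coe_univ, Set.image_univ]
    exact h.gen
  refine ⟨g, no_indep_of_span hfgK _ F.E fun D hD => hspan D fun a =>
    hD _ (IntermediateField.subset_adjoin ℂ _ ⟨a, rfl⟩), ?_⟩
  rintro e rfl q Zq hZq hq hq0
  obtain ⟨A⟩ := nonempty_algPack F hspan c₀ hc₀ hc
  obtain ⟨Φ⟩ := F.nonempty_flowAPI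
  obtain ⟨h₀, hh₀, hconn⟩ := h.connected
  obtain ⟨G⟩ := nonempty_good Φ A h₀ hh₀ hconn
  have hua : ∀ z, AnalyticAt ℂ u z := fun z => hu.analyticAt z
  have hvn : ∀ z, ∀ᶠ w in 𝓝 z, v₀ z w ∈ F.fib (u w) := by
    intro z
    obtain ⟨hv, hv0, hv1⟩ := hv₀ z
    have hvz : v₀ z z ∈ F.fib (u z) := F.fib_closed (f := 𝓝[≠] z)
      ((hua z).continuousAt.tendsto.mono_left nhdsWithin_le_nhds)
      (hv.continuousAt.tendsto.mono_left nhdsWithin_le_nhds) hv0 hv1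
    rw [eventually_nhdsWithin_iff] at hv1
    filter_upwards [hv1] with w hw
    by_cases hwz : w = z
    · rw [hwz]
      exact hvz
    · exact hw hwz
  have hsec : ∀ z, F.Sec u (fun w => pm (v₀ z w)) z := by
    intro z
    obtain ⟨hv, hv0, hv1⟩ := hv₀ z
    refine ⟨⟨v₀ z, hv, hv0, Filter.Eventually.of_forall fun _ => rfl⟩, ?_⟩
    filter_upwards [hvn z] with w hw
    exact ⟨_, hw, rfl⟩
  set D := glueData Φ G u hua hd (fun z => ⟨_, hsec z⟩) with hD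
  set Bb : Set ℂ := ({z | eval (u z) G.h = 0} ∪ {z | eval (u z) A.c = 0}) ∪ (Zb ∪ Zq) with hBb
  have hBdisc : ∀ z, ∀ᶠ w in 𝓝[≠] z, w ∉ Bb := by
    intro z
    filter_upwards [hd G.h G.h_ne z, hd A.c A.c_ne z, hZ z, hZq z] with w h1 h2 h3 h4
    rintro ((h5 | h5) | (h5 | h5))
    · exact h1 h5
    · exact h2 h5
    · exact h3 h5
    · exact h4 h5
  have hBopen : IsOpen Bbᶜ := isOpen_iff_mem_nhds.2 fun z hz => by
    have h1 := eventually_nhdsWithin_iff.1 (hBdisc z)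
    filter_upwards [h1] with w hw
    by_cases hwz : w = z
    · rw [hwz]
      exact hz
    · exact hw hwz
  obtain ⟨E, hE, hEord⟩ := weierstrass (fun z => if z ∈ Bb then k z + 1 else 0) (fun z => by
    filter_upwards [hBdisc z] with w hw
    rw [if_neg hw])
  have hE0 : ∀ z, z ∉ Bb → E z ≠ 0 := by
    intro z hz
    have h1 := hEord z
    rw [if_neg hz] at h1
    exact (hE.analyticAt z).analyticOrderAt_eq_zero.1 (by simpa using h1)
  obtain ⟨a, ha, haB⟩ := glue_jets D Bb hBdisc (fun z hz => Or.inl (Or.inl hz)) E hE hE0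
    (fun z w => pm (v₀ z w)) (fun z _ => hsec z)
  -- good times are dense at each point off `Bb`
  have hG : ∀ z, z ∉ Bb → ∀ B : Set (Fin (e + 1) → ℂ), IsOpen B → B.Nonempty →
      ∃ τ ∈ B, GoodPt q z (Φ.Φ (u z) τ (a z)) := by
    intro z hz B hB hne
    obtain ⟨τ₀, hτ₀⟩ := hne
    obtain ⟨-, h2⟩ := good_set Φ A u hu a ha (fun _ => 0) (differentiable_const _) (fun _ => 1)
      (differentiable_const _) q Bbᶜ hBopen (fun j κ α z' hz' => hq j κ α z' fun h' =>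
        hz' (Or.inr (Or.inr h'))) (fun j κ z' hz' => hq0 j κ z' fun h' => hz' (Or.inr (Or.inr h')))
      (fun z' hz' h' => hz' (Or.inl (Or.inr h'))) (fun _ _ => one_ne_zero)
    obtain ⟨r, hr, h3⟩ := h2 z hz τ₀
    obtain ⟨τ, hτ, h4⟩ := h3 (B ∩ Metric.ball τ₀ r) (hB.inter Metric.isOpen_ball)
      ⟨τ₀, hτ₀, Metric.mem_ball_self hr⟩ Set.inter_subset_right
    refine ⟨τ, hτ.1, ?_⟩
    have h5 := (h4 z (Metric.mem_closedBall_self hr.le)).2
    dsimp only at h5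
    rwa [one_smul, zero_add] at h5
  obtain ⟨τ, Zd, hτ, hZd, hZdg, hdense⟩ := dense_section_good Φ A u hd a ha E Bb hBdisc hE0
    (fun z p => GoodPt q z p) hG
  obtain ⟨E₁, hE₁, hE₁ord⟩ := weierstrass (fun z => if z ∈ Zd then 1 else 0) (fun z => by
    filter_upwards [hZd z] with w hw
    rw [if_neg hw])
  have hE₁0 : ∀ z, z ∉ Zd → E₁ z ≠ 0 := by
    intro z hz
    have h1 := hE₁ord z
    rw [if_neg hz] at h1
    exact (hE₁.analyticAt z).analyticOrderAt_eq_zero.1 (by simpa using h1)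
  have hE₁d : ∀ z ∈ Zd, E₁ z = 0 := by
    intro z hz
    have h1 := hE₁ord z
    rw [if_pos hz] at h1
    by_contra h2
    rw [(hE₁.analyticAt z).analyticOrderAt_eq_zero.2 h2] at h1
    norm_num at h1
  -- the perturbation
  set Ω : Set ℂ := (Bb ∪ Zd)ᶜ with hΩ
  have hΩopen : IsOpen Ω := isOpen_iff_mem_nhds.2 fun z hz => by
    have h1 := eventually_nhdsWithin_iff.1 ((hBdisc z).and (hZd z))
    filter_upwards [h1] with w hw
    by_cases hwz : w = z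
    · rw [hwz]
      exact hz
    · rintro (h2 | h2)
      · exact (hw hwz).1 h2
      · exact (hw hwz).2 h2
  have hΩB : ∀ z ∈ Ω, z ∉ Bb := fun z hz h' => hz (Or.inl h')
  have hσ : Differentiable ℂ fun w => E w • τ w := hE.smul hτ
  have hε : Differentiable ℂ fun w => E w * E₁ w := hE.mul hE₁
  obtain ⟨hopen, hdl⟩ := good_set Φ A u hu a ha (fun w => E w • τ w) hσ (fun w => E w * E₁ w) hε q Ω
    hΩopen (fun j κ α z' hz' => hq j κ α z' fun h' => hΩB z' hz' (Or.inr (Or.inr h')))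
    (fun j κ z' hz' => hq0 j κ z' fun h' => hΩB z' hz' (Or.inr (Or.inr h')))
    (fun z' hz' h' => hΩB z' hz' (Or.inl (Or.inr h')))
    (fun z' hz' => mul_ne_zero (hE0 z' (hΩB z' hz')) (hE₁0 z' fun h' => hz' (Or.inr h')))
  obtain ⟨cc, hcc⟩ := dloc_baire hopen hΩopen hdl
  set τ' : ℂ → Fin (e + 1) → ℂ := fun w => τ w + E₁ w • cc with hτ'
  have hτ'd : Differentiable ℂ τ' := hτ.add (hE₁.smul_const cc)
  have hτ'e : ∀ w, E w • τ w + (E w * E₁ w) • cc = E w • τ' w := by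
    intro w
    rw [hτ', smul_add, mul_smul]
  have hEτ : ∀ z, AnalyticAt ℂ (fun w => E w • τ' w) z := fun z =>
    (hE.analyticAt z).smul (hτ'd.analyticAt z)
  have hb : ∀ z, F.Sec u (fun w => Φ.Φ (u w) (E w • τ' w) (a w)) z := fun z =>
    sec_flow Φ (hua z) (hEτ z) (ha z)
  have hτZ : ∀ z ∈ Zd, τ' z = τ z := by
    intro z hz
    rw [hτ']
    dsimp only
    rw [hE₁d z hz, zero_smul, add_zero]
  refine ⟨Bb, fun w => Φ.Φ (u w) (E w • τ' w) (a w), fun z hz => Or.inr (Or.inl hz),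
    fun z hz => Or.inr (Or.inr hz), hBdisc, fun z => ?_, fun z hz => ?_, fun r hr => ?_⟩
  · obtain ⟨⟨V, hV, hV0, hVb⟩, hVP⟩ := hb z
    refine ⟨V, hV, hV0, ?_, ?_⟩
    · filter_upwards [hVb, hVP] with w h1 h2
      refine ⟨?_, h1⟩
      rw [h1] at h2
      exact F.pm_mem_iff.1 h2
    · intro hzB j hj
      obtain ⟨σ, hσ, haσ⟩ := haB z hzB
      have hord : ∀ i, ((k z + 1 : ℕ) : ℕ∞) ≤
          analyticOrderAt (fun w => (E w • (τ' w + σ w)) i) z := by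
        intro i
        have h1 : (fun w => (E w • (τ' w + σ w)) i) = fun w => E w * (τ' w i + σ w i) := by
          funext w
          simp
        have h2 : AnalyticAt ℂ (fun w => τ' w i + σ w i) z :=
          (analyticAt_pi_iff.1 (hτ'd.analyticAt z) i).add (analyticAt_pi_iff.1 hσ i)
        have h3 := analyticOrderAt_mul (hE.analyticAt z) h2
        rw [h1]
        have h4 : analyticOrderAt E z = ((k z + 1 : ℕ) : ℕ∞) := by
          rw [hEord z, if_pos hzB]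
        change _ ≤ analyticOrderAt (E * fun w => τ' w i + σ w i) z
        rw [h3, h4]
        exact le_self_add
      have hΦ : ∀ᶠ w in 𝓝 z, Φ.Φ (u w) (E w • (τ' w + σ w)) (pm (v₀ z w)) = pm (V w) := by
        filter_upwards [haσ, hVb, hvn z] with w h1 h2 h3
        rw [← h2, h1]
        change _ = Φ.Φ (u w) (E w • τ' w) (Φ.Φ (u w) (E w • σ w) (pm (v₀ z w)))
        rw [smul_add, Φ.add _ _ _ _ ⟨_, h3, rfl⟩]
      have h5 := flow_close Φ u z (hua z) (v₀ z) (hv₀ z).1 j hj (hvn z)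
        (fun w => E w • (τ' w + σ w)) (k z + 1) (Nat.le_add_left _ _)
        ((hE.analyticAt z).smul ((hτ'd.analyticAt z).add hσ)) hord V hV hV0 hΦ
      refine ⟨h5.1, fun l => le_trans ?_ (h5.2 l)⟩
      exact_mod_cast Nat.le_succ (k z)
  · by_cases hzd : z ∈ Zd
    · have h1 := (hZdg z hzd).2
      dsimp only
      rw [hτZ z hzd]
      exact h1
    · have h1 := (hcc z fun h' => h'.elim hz hzd).2
      dsimp only at h1
      rw [hτ'e] at h1
      exact h1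
  · obtain ⟨z, hz, v, hv, hv0, hΦ, hr'⟩ := hdense r hr
    refine ⟨z, v, hv, hv0, ?_, hr'⟩
    dsimp only
    rw [hτZ z hz]
    exact hΦ

end Pool.Agent.AbFib
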