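import Mathlib

/-! PIECE K0: the action of `exp (τ √a)` on `x + y √a`. -/

set_option autoImplicit false

open Filter Topology

namespace Pool.Agent.AbPencil

/-- `cosh √ξ` -/
noncomputable def chs (ξ : ℂ) : ℂ := ∑' k : ℕ, ξ ^ k / ((2 * k).factorial : ℂ)

/-- `sinh √ξ / √ξ` -/
noncomputable def shs (ξ : ℂ) : ℂ := ∑' k : ℕ, ξ ^ k / ((2 * k + 1).factorial : ℂ)

/-- Proof. `Complex.hasSum_cosh`. -/
theorem chs_sq (r : ℂ) : chs (r ^ 2) = Complex.cosh r := by
  have h := (Complex.hasSum_cosh r).tsum_eq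
  rw [← h, chs]
  simp only [pow_mul]

/-- Proof. `Complex.hasSum_sinh`. -/
theorem shs_sq (r : ℂ) : r * shs (r ^ 2) = Complex.sinh r := by
  have h := (Complex.hasSum_sinh r).tsum_eq
  rw [← h, shs, ← tsum_mul_left]
  congr 1
  funext k
  rw [pow_succ r (2 * k), pow_mul]
  ring

private theorem K0_diff (c : ℕ → ℕ) (hc : ∀ k, k.factorial ≤ c k) :
    Differentiable ℂ fun ξ : ℂ => ∑' k : ℕ, ξ ^ k / (c k : ℂ) := by
  intro z
  have hR : 0 ≤ ‖z‖ + 1 := by positivity
  have h : DifferentiableOn ℂ (fun ξ : ℂ => ∑' k : ℕ, ξ ^ k / (c k : ℂ))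
      (Metric.ball 0 (‖z‖ + 1)) := by
    apply Complex.differentiableOn_tsum_of_summable_norm (Real.summable_pow_div_factorial (‖z‖ + 1))
    · intro k
      exact ((differentiable_pow k).div_const _).differentiableOn
    · exact Metric.isOpen_ball
    · intro k w hw
      rw [mem_ball_zero_iff] at hw
      rw [norm_div, norm_pow, Complex.norm_natCast]
      have h1 : (0 : ℝ) < (k.factorial : ℝ) := by exact_mod_cast k.factorial_pos
      have h2 : (k.factorial : ℝ) ≤ (c k : ℝ) := by exact_mod_cast hc k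
      have h3 : ‖w‖ ^ k ≤ (‖z‖ + 1) ^ k := pow_le_pow_left₀ (norm_nonneg _) hw.le k
      exact div_le_div₀ (pow_nonneg hR k) h3 h1 h2
  exact h.differentiableAt (Metric.isOpen_ball.mem_nhds (by
    rw [mem_ball_zero_iff]
    linarith))

/-- Proof. A power series with infinite radius of convergence; or: locally (`ξ ≠ 0`) `chs ξ = cosh √ξ` with a holomorphic square root, and `chs` is continuous at `0`. -/
theorem chs_diff : Differentiable ℂ chs :=
  K0_diff (fun k => (2 * k).factorial) fun k => Nat.factorial_le (by omega)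

/-- Proof. As above. -/
theorem shs_diff : Differentiable ℂ shs :=
  K0_diff (fun k => (2 * k + 1).factorial) fun k => Nat.factorial_le (by omega)

theorem chs_zero : chs 0 = 1 := by
  have h := chs_sq 0
  rwa [zero_pow two_ne_zero, Complex.cosh_zero] at h

theorem shs_zero : shs 0 = 1 := by
  rw [shs, tsum_eq_single 0]
  · norm_num
  · intro k hk
    rw [zero_pow hk, zero_div]

/-- multiplication of `v.1 + v.2 √a` by `exp (τ √a)` -/
noncomputable def cact (a τ : ℂ) (v : ℂ × ℂ) : ℂ × ℂ :=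
  (v.1 * chs (a * τ ^ 2) + a * v.2 * (τ * shs (a * τ ^ 2)),
    v.1 * (τ * shs (a * τ ^ 2)) + v.2 * chs (a * τ ^ 2))

theorem cact_zero (a : ℂ) (v : ℂ × ℂ) : cact a 0 v = v := by
  simp [cact, chs_zero]

private theorem K0_comp (r τ : ℂ) (v : ℂ × ℂ) :
    (cact (r ^ 2) τ v).1 + r * (cact (r ^ 2) τ v).2 = (v.1 + r * v.2) * Complex.exp (r * τ) := by
  have h1 : chs (r ^ 2 * τ ^ 2) = Complex.cosh (r * τ) := by rw [← mul_pow, chs_sq]
  have h2 : r * τ * shs (r ^ 2 * τ ^ 2) = Complex.sinh (r * τ) := by rw [← mul_pow, shs_sq]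
  have h3 : Complex.exp (r * τ) = Complex.cosh (r * τ) + Complex.sinh (r * τ) :=
    (Complex.cosh_add_sinh _).symm
  rw [h3, ← h1, ← h2]
  simp only [cact]
  ring

private theorem K0_comp' (r τ : ℂ) (v : ℂ × ℂ) :
    (cact (r ^ 2) τ v).1 - r * (cact (r ^ 2) τ v).2 =
      (v.1 - r * v.2) * Complex.exp (-(r * τ)) := by
  have h := K0_comp (-r) τ v
  rw [neg_sq, neg_mul, neg_mul, neg_mul] at h
  rw [sub_eq_add_neg, h]
  ring

/-- Proof. Let `r ^ 2 = a`. The components `v.1 ± r v.2` of `cact a τ v` are multiplied by `exp (± r τ)` (`chs_sq`, `shs_sq`). If `r ≠ 0` the components determine the vector; if `r = 0`,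
`cact 0 τ v = (v.1, v.1 τ + v.2)`. -/
theorem cact_add (a σ τ : ℂ) (v : ℂ × ℂ) : cact a (σ + τ) v = cact a σ (cact a τ v) := by
  obtain ⟨r, rfl⟩ := IsAlgClosed.exists_pow_nat_eq a (n := 2) two_pos
  by_cases hr : r = 0
  · subst hr
    simp only [cact, zero_pow two_ne_zero, zero_mul, chs_zero, shs_zero]
    refine Prod.ext ?_ ?_
    · ring
    · simp only
      ring
  · have h1 := K0_comp r (σ + τ) v
    have h2 := K0_comp' r (σ + τ) v
    have h3 := K0_comp r σ (cact (r ^ 2) τ v)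
    have h4 := K0_comp' r σ (cact (r ^ 2) τ v)
    rw [K0_comp r τ v] at h3
    rw [K0_comp' r τ v] at h4
    have e1 : Complex.exp (r * (σ + τ)) = Complex.exp (r * τ) * Complex.exp (r * σ) := by
      rw [← Complex.exp_add]
      congr 1
      ring
    have e2 : Complex.exp (-(r * (σ + τ))) = Complex.exp (-(r * τ)) * Complex.exp (-(r * σ)) := by
      rw [← Complex.exp_add]
      congr 1
      ring
    rw [e1, ← mul_assoc, ← h3] at h1
    rw [e2, ← mul_assoc, ← h4] at h2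
    have g1 : (cact (r ^ 2) (σ + τ) v).1 = (cact (r ^ 2) σ (cact (r ^ 2) τ v)).1 := by
      linear_combination (h1 + h2) / 2
    have g2 : r * (cact (r ^ 2) (σ + τ) v).2 = r * (cact (r ^ 2) σ (cact (r ^ 2) τ v)).2 := by
      linear_combination (h1 - h2) / 2
    exact Prod.ext g1 (mul_left_cancel₀ hr g2)

/-- Proof. `v.1² - a v.2² = (v.1 + r v.2)(v.1 - r v.2)`. -/
theorem cact_norm (a τ : ℂ) (v : ℂ × ℂ) :
    (cact a τ v).1 ^ 2 - a * (cact a τ v).2 ^ 2 = v.1 ^ 2 - a * v.2 ^ 2 := by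
  obtain ⟨r, rfl⟩ := IsAlgClosed.exists_pow_nat_eq a (n := 2) two_pos
  have h1 := K0_comp r τ v
  have h2 := K0_comp' r τ v
  have h3 : Complex.exp (r * τ) * Complex.exp (-(r * τ)) = 1 := by
    rw [← Complex.exp_add, add_neg_cancel, Complex.exp_zero]
  calc (cact (r ^ 2) τ v).1 ^ 2 - r ^ 2 * (cact (r ^ 2) τ v).2 ^ 2 =
        ((cact (r ^ 2) τ v).1 + r * (cact (r ^ 2) τ v).2) *
          ((cact (r ^ 2) τ v).1 - r * (cact (r ^ 2) τ v).2) := by ring
    _ = (v.1 + r * v.2) * (v.1 - r * v.2) * (Complex.exp (r * τ) * Complex.exp (-(r * τ))) := by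
        rw [h1, h2]
        ring
    _ = v.1 ^ 2 - r ^ 2 * v.2 ^ 2 := by
        rw [h3]
        ring

/-- Proof. As above: the component `v.1 + r v.2` is multiplied by `exp (r τ)`. -/
theorem cact_comp (r τ : ℂ) (v : ℂ × ℂ) :
    (cact (r ^ 2) τ v).1 + r * (cact (r ^ 2) τ v).2 = (v.1 + r * v.2) * Complex.exp (r * τ) :=
  K0_comp r τ v

end Pool.Agent.AbPencil
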