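import Mathlib

/-! PIECE K1: logarithms along segments, normal forms of meromorphic functions. -/

set_option autoImplicit false

open Filter Topology

namespace Pool.Agent.AbPencil

/-- Proof. By compactness a thickening `U` of the segment (an open convex set) consists of points where `f` is analytic and nonzero. On `U` the function `f' / f` has a primitive (define it by integration along the segments `[z₀, z]`, or glue the primitives on
the discs (`DifferentiableOn.isExactOn_ball`) of a finite chain of discs which covers the segment, by constants: induction along a subdivision of the segment with Lebesgue's number); `f exp (-g)` is constant, adjust `g` by a constant. -/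
theorem exists_log_segment (z₀ z₁ : ℂ) (f : ℂ → ℂ)
    (hf : ∀ z ∈ segment ℝ z₀ z₁, AnalyticAt ℂ f z ∧ f z ≠ 0) :
    ∃ g : ℂ → ℂ, ∀ z ∈ segment ℝ z₀ z₁, AnalyticAt ℂ g z ∧ ∀ᶠ w in 𝓝 z, Complex.exp (g w) = f w := by
  have hcpt : IsCompact (segment ℝ z₀ z₁) := by
    rw [segment_eq_image]
    exact isCompact_Icc.image (by fun_prop)
  set U : Set ℂ := {z | ∀ᶠ w in 𝓝 z, AnalyticAt ℂ f w ∧ f w ≠ 0} with hU
  have hUo : IsOpen U := isOpen_setOfPred_eventually_nhds
  have hsU : segment ℝ z₀ z₁ ⊆ U := by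
    intro z hz
    obtain ⟨h1, h2⟩ := hf z hz
    exact h1.eventually_analyticAt.and (h1.continuousAt.eventually_ne h2)
  obtain ⟨δ, hδ, hδU⟩ := hcpt.exists_thickening_subset_open hUo hsU
  set V : Set ℂ := Metric.thickening δ (segment ℝ z₀ z₁) with hV
  have hVo : IsOpen V := Metric.isOpen_thickening
  have hVc : Convex ℝ V := (convex_segment z₀ z₁).thickening δ
  have hsV : segment ℝ z₀ z₁ ⊆ V := Metric.self_subset_thickening hδ _
  have hz₀ : z₀ ∈ V := hsV (left_mem_segment ℝ z₀ z₁)
  have hA : ∀ z ∈ V, AnalyticAt ℂ f z ∧ f z ≠ 0 := fun z hz => (hδU hz).self_of_nhds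
  have hdiff : DifferentiableOn ℂ (fun z => deriv f z / f z) V := by
    intro z hz
    obtain ⟨h1, h2⟩ := hA z hz
    exact (h1.deriv.differentiableAt.div h1.differentiableAt h2).differentiableWithinAt
  obtain ⟨g₀, hg₀⟩ := hVc.exists_forall_hasDerivWithinAt hdiff
  have hg : ∀ z ∈ V, HasDerivAt g₀ (deriv f z / f z) z := fun z hz =>
    (hg₀ z hz).hasDerivAt (hVo.mem_nhds hz)
  -- the quotient is constant
  have hder : ∀ z ∈ V, HasDerivAt (fun w => f w * Complex.exp (-g₀ w)) 0 z := by
    intro z hz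
    obtain ⟨h1, h2⟩ := hA z hz
    have h3 := h1.differentiableAt.hasDerivAt.mul ((hg z hz).neg.cexp)
    have h4 : deriv f z * Complex.exp ((-g₀) z) +
        f z * (Complex.exp ((-g₀) z) * -(deriv f z / f z)) = 0 := by
      field_simp
      ring
    rw [h4] at h3
    exact h3
  have hconst : ∀ z ∈ V, f z * Complex.exp (-g₀ z) = f z₀ * Complex.exp (-g₀ z₀) := by
    intro z hz
    refine hVc.is_const_of_fderivWithin_eq_zero (𝕜 := ℂ)
      (f := fun w => f w * Complex.exp (-g₀ w))
      (fun w hw => (hder w hw).differentiableAt.differentiableWithinAt) (fun w hw => ?_) hz hz₀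
    have h4 := (hder w hw).hasFDerivAt.hasFDerivWithinAt (s := V)
    rw [h4.fderivWithin (hVo.uniqueDiffWithinAt hw)]
    ext
    simp
  set c : ℂ := f z₀ * Complex.exp (-g₀ z₀) with hc
  have hc0 : c ≠ 0 := mul_ne_zero (hA z₀ hz₀).2 (Complex.exp_ne_zero _)
  refine ⟨fun w => g₀ w + Complex.log c, fun z hz => ⟨?_, ?_⟩⟩
  · have hzV := hsV hz
    have hd : DifferentiableOn ℂ (fun w => g₀ w + Complex.log c) V := fun w hw =>
      ((hg w hw).differentiableAt.add_const _).differentiableWithinAt
    exact hd.analyticAt (hVo.mem_nhds hzV)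
  · filter_upwards [hVo.mem_nhds (hsV hz)] with w hw
    rw [Complex.exp_add, Complex.exp_log hc0, ← hconst w hw, mul_comm (f w), ← mul_assoc,
      ← Complex.exp_add, add_neg_cancel, Complex.exp_zero, one_mul]

/-- Proof. `toMeromorphicNFOn f univ` (`Mathlib/Analysis/Meromorphic/NormalForm.lean`). -/
theorem exists_normal (f : ℂ → ℂ) (hf : ∀ z, MeromorphicAt f z) :
    ∃ f' : ℂ → ℂ, (∀ z, f' =ᶠ[𝓝[≠] z] f) ∧
      (∀ z, 0 ≤ meromorphicOrderAt f z → AnalyticAt ℂ f' z) ∧
      ∀ z, meromorphicOrderAt f z = 0 → f' z ≠ 0 := by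
  have hfU : MeromorphicOn f Set.univ := fun z _ => hf z
  have hNF : MeromorphicNFOn (toMeromorphicNFOn f Set.univ) Set.univ :=
    meromorphicNFOn_toMeromorphicNFOn f Set.univ
  have heq : ∀ z, toMeromorphicNFOn f Set.univ =ᶠ[𝓝[≠] z] f := fun z =>
    hfU.toMeromorphicNFOn_eq_self_on_nhdsNE (Set.mem_univ z)
  have hord : ∀ z, meromorphicOrderAt (toMeromorphicNFOn f Set.univ) z = meromorphicOrderAt f z :=
    fun z => meromorphicOrderAt_congr (heq z)
  refine ⟨toMeromorphicNFOn f Set.univ, heq, fun z hz => ?_, fun z hz => ?_⟩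
  · exact (hNF (Set.mem_univ z)).meromorphicOrderAt_nonneg_iff_analyticAt.1 (by rwa [hord z])
  · exact (hNF (Set.mem_univ z)).meromorphicOrderAt_eq_zero_iff.1 (by rwa [hord z])

end Pool.Agent.AbPencil
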