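import Pool.Agent.Lib_MP_1209e6_ab.E4
import Pool.Agent.Lib_MP_1209e6_tu.K0
import Pool.Agent.Lib_MP_1209e6_tu.K1

/-! PIECE K2: sections of families of conics with given jets. -/

set_option autoImplicit false

open Filter Topology

namespace Pool.Agent.AbPencil

open Pool.Agent.AbFib

private theorem an_fst {v : ℂ → ℂ × ℂ} {z : ℂ} (hv : AnalyticAt ℂ v z) :
    AnalyticAt ℂ (fun w => (v w).1) z :=
  ((ContinuousLinearMap.fst ℂ ℂ ℂ).analyticAt (v z)).comp hv

private theorem an_snd {v : ℂ → ℂ × ℂ} {z : ℂ} (hv : AnalyticAt ℂ v z) :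
    AnalyticAt ℂ (fun w => (v w).2) z :=
  ((ContinuousLinearMap.snd ℂ ℂ ℂ).analyticAt (v z)).comp hv

private theorem cact_an {α τ : ℂ → ℂ} {v : ℂ → ℂ × ℂ} {z : ℂ} (hα : AnalyticAt ℂ α z)
    (hτ : AnalyticAt ℂ τ z) (hv : AnalyticAt ℂ v z) :
    AnalyticAt ℂ (fun w => cact (α w) (τ w) (v w)) z := by
  have h0 : AnalyticAt ℂ (fun w => α w * τ w ^ 2) z := hα.mul (hτ.pow 2)
  have h1 : AnalyticAt ℂ (fun w => chs (α w * τ w ^ 2)) z :=
    AnalyticAt.fun_comp (f := fun w => α w * τ w ^ 2) (chs_diff.analyticAt _) h0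
  have h2 : AnalyticAt ℂ (fun w => shs (α w * τ w ^ 2)) z :=
    AnalyticAt.fun_comp (f := fun w => α w * τ w ^ 2) (shs_diff.analyticAt _) h0
  have h3 : AnalyticAt ℂ (fun w => (v w).1) z := an_fst hv
  have h4 : AnalyticAt ℂ (fun w => (v w).2) z := an_snd hv
  unfold cact
  exact ((h3.mul h1).add ((hα.mul h4).mul (hτ.mul h2))).prod ((h3.mul (hτ.mul h2)).add (h4.mul h1))

/-- two points of a conic with the same component are equal -/
private theorem pt_eq {r c x y x' y' : ℂ} (hr : r ≠ 0) (hc : c ≠ 0) (h : x ^ 2 - r ^ 2 * y ^ 2 = c)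
    (h' : x' ^ 2 - r ^ 2 * y' ^ 2 = c) (he : x + r * y = x' + r * y') : x = x' ∧ y = y' := by
  have h1 : (x + r * y) * (x - r * y) = c := by rw [← h]; ring
  have h2 : (x + r * y) * (x' - r * y') = c := by rw [he, ← h']; ring
  have h3 : x + r * y ≠ 0 := by
    intro h0
    rw [h0, zero_mul] at h1
    exact hc h1.symm
  have h4 : x - r * y = x' - r * y' := mul_left_cancel₀ h3 (h1.trans h2.symm)
  have h5 : x = x' := by
    have : (2 : ℂ) * x = 2 * x' := by linear_combination he + h4
    exact mul_left_cancel₀ two_ne_zero this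
  refine ⟨h5, ?_⟩
  have h6 : r * y = r * y' := by rw [h5] at he; exact add_left_cancel he
  exact mul_left_cancel₀ hr h6

/-- Proof. `GlueData.exists_section` (`ab/E4`; `GlueData` in `ab/Defs`; compare `glue_jets`, `tv/A1`) for `g = 1`, `M = ℂ × ℂ`, `B = Zb`, `act z τ v = cact (A z) (E z * τ 0) v`, and `Sec s z` if and only if: if `z ∉ Zb` then `s` is analytic at `z` and
`(s w).1 ^ 2 - A w * (s w).2 ^ 2 = C w` for `w` near `z`; if `z ∈ Zb` then there is `τ` analytic at `z` with `s w = cact (A w) (E w * τ w) (v₀ z w)` for all `w` near `z` (including `z`). `evt`: clear for `z ∉ Zb`; for `z ∈ Zb`, at `w ≠ z` near `z` the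
functions `A, E, τ, v₀ z` are analytic (`chs_diff`, `shs_diff`), and `cact_norm`. `hact`: `cact_add`. `loc`: for `z ∉ Zb` the section `(√C, 0)` with a holomorphic square root of `C` near `z`; for `z ∈ Zb`, `v₀ z` (`τ = 0`). `trans`: on a segment
off `Zb` there are analytic `r` with `r ^ 2 = A` (half of a logarithm of `A`, `exists_log_segment`) and for two sections `a, b` the functions `f = a.1 + r a.2`, `f' = b.1 + r b.2` are analytic and nonzero
(`f (a.1 - r a.2) = C`); let `ℓ` be a logarithm of `f' / f` and `τ = ℓ / (r E)`. Then the components `± r` of `cact A (E τ) a` and of `b` agree (`cact_comp` for `r` and `-r`; the product of the components is `C` for both), so they are equal. -/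
theorem conic_glue (A C : ℂ → ℂ) (Zb : Set ℂ) (hZ : ∀ z, ∀ᶠ w in 𝓝[≠] z, w ∉ Zb)
    (hA : ∀ z, z ∉ Zb → AnalyticAt ℂ A z ∧ A z ≠ 0) (hC : ∀ z, z ∉ Zb → AnalyticAt ℂ C z ∧ C z ≠ 0)
    (E : ℂ → ℂ) (hE : Differentiable ℂ E) (hE0 : ∀ z, z ∉ Zb → E z ≠ 0) (v₀ : ℂ → ℂ → ℂ × ℂ)
    (hv₀ : ∀ z ∈ Zb, ∀ᶠ w in 𝓝[≠] z, AnalyticAt ℂ (v₀ z) w ∧
      (v₀ z w).1 ^ 2 - A w * (v₀ z w).2 ^ 2 = C w) :
    ∃ v : ℂ → ℂ × ℂ, (∀ z, z ∉ Zb → AnalyticAt ℂ v z ∧ (v z).1 ^ 2 - A z * (v z).2 ^ 2 = C z) ∧
      ∀ z ∈ Zb, ∃ τ : ℂ → ℂ, AnalyticAt ℂ τ z ∧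
        ∀ᶠ w in 𝓝[≠] z, v w = cact (A w) (E w * τ w) (v₀ z w) := by
  have hEa : ∀ z, AnalyticAt ℂ E z := fun z => hE.analyticAt z
  -- punctured neighbourhoods
  have hpn : ∀ (z : ℂ) (P : ℂ → Prop), (∀ᶠ w in 𝓝[≠] z, P w) →
      ∀ᶠ w in 𝓝 z, w ≠ z → ∀ᶠ w' in 𝓝 w, P w' := by
    intro z P hP
    have h1 := eventually_eventually_nhdsWithin.2 hP
    rw [eventually_nhdsWithin_iff] at h1
    filter_upwards [h1] with w hw hwz
    have h2 := hw hwz
    rwa [isOpen_compl_singleton.nhdsWithin_eq hwz] at h2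
  let D : GlueData 1 (ℂ × ℂ) :=
    { act := fun z τ v => cact (A z) (E z * τ 0) v
      Sec := fun s z => (z ∉ Zb → AnalyticAt ℂ s z ∧
          ∀ᶠ w in 𝓝 z, (s w).1 ^ 2 - A w * (s w).2 ^ 2 = C w) ∧
        (z ∈ Zb → ∃ τ : ℂ → ℂ, AnalyticAt ℂ τ z ∧
          ∀ᶠ w in 𝓝 z, s w = cact (A w) (E w * τ w) (v₀ z w))
      B := Zb
      disc := hZ
      congr := by
        intro a a' z h ha
        refine ⟨fun hz => ⟨(ha.1 hz).1.congr h, ?_⟩, fun hz => ?_⟩
        · filter_upwards [h, (ha.1 hz).2] with w h1 h2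
          rw [← h1]
          exact h2
        · obtain ⟨τ, hτ, h'⟩ := ha.2 hz
          refine ⟨τ, hτ, ?_⟩
          filter_upwards [h, h'] with w h1 h2
          rw [← h1]
          exact h2
      evt := by
        intro a z ha
        by_cases hz : z ∈ Zb
        · obtain ⟨τ, hτ, h'⟩ := ha.2 hz
          filter_upwards [hpn z _ (hZ z), hpn z _ (hv₀ z hz), hτ.eventually_analyticAt,
            eventually_eventually_nhds.2 h'] with w h1 h2 h3 h4
          by_cases hwz : w = z
          · subst hwz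
            exact ha
          · have hw : w ∉ Zb := (h1 hwz).self_of_nhds
            refine ⟨fun _ => ⟨?_, ?_⟩, fun hw' => absurd hw' hw⟩
            · have h5 : AnalyticAt ℂ (fun w => cact (A w) (E w * τ w) (v₀ z w)) w :=
                cact_an (hA w hw).1 ((hEa w).mul h3) (h2 hwz).self_of_nhds.1
              exact h5.congr (h4.mono fun w' h => h.symm)
            · filter_upwards [h4, h2 hwz] with w' h6 h7
              rw [h6, cact_norm]
              exact h7.2
        · have h1 : ∀ᶠ w in 𝓝 z, w ∉ Zb := by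
            have := hZ z
            rw [eventually_nhdsWithin_iff] at this
            filter_upwards [this] with w hw
            by_cases hwz : w = z
            · rw [hwz]; exact hz
            · exact hw hwz
          filter_upwards [h1, (ha.1 hz).1.eventually_analyticAt,
            eventually_eventually_nhds.2 (ha.1 hz).2] with w h2 h3 h4
          exact ⟨fun _ => ⟨h3, h4⟩, fun hw => absurd hw h2⟩
      hact := by
        intro a τ z ha hτ
        have hτ0 : AnalyticAt ℂ (fun w => τ w 0) z := (analyticAt_pi_iff.1 hτ) 0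
        refine ⟨fun hz => ⟨?_, ?_⟩, fun hz => ?_⟩
        · exact cact_an (hA z hz).1 ((hEa z).mul hτ0) (ha.1 hz).1
        · filter_upwards [(ha.1 hz).2] with w hw
          rw [cact_norm]
          exact hw
        · obtain ⟨σ, hσ, h'⟩ := ha.2 hz
          refine ⟨fun w => τ w 0 + σ w, hτ0.add hσ, ?_⟩
          filter_upwards [h'] with w hw
          rw [hw, mul_add, cact_add]
      add := by
        intro a z σ τ _
        change cact (A z) (E z * (σ 0 + τ 0)) (a z) = cact (A z) (E z * σ 0) (cact (A z) (E z * τ 0) (a z))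
        rw [mul_add, cact_add]
      zero := by
        intro a z _
        change cact (A z) (E z * 0) (a z) = a z
        rw [mul_zero, cact_zero]
      loc := by
        intro z
        by_cases hz : z ∈ Zb
        · refine ⟨v₀ z, fun h => absurd hz h, fun _ => ⟨fun _ => 0, analyticAt_const, ?_⟩⟩
          filter_upwards with w
          rw [mul_zero, cact_zero]
        · obtain ⟨g, hg⟩ := exists_log_segment z z C (fun w hw => by
            rw [segment_same] at hw
            rw [Set.mem_singleton_iff.1 hw]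
            exact hC z hz)
          obtain ⟨hg1, hg2⟩ := hg z (left_mem_segment ℝ z z)
          refine ⟨fun w => (Complex.exp (g w / 2), 0), fun _ => ⟨?_, ?_⟩, fun h => absurd h hz⟩
          · exact (AnalyticAt.cexp (hg1.div_const)).prod analyticAt_const
          · filter_upwards [hg2] with w hw
            show Complex.exp (g w / 2) ^ 2 - A w * (0 : ℂ) ^ 2 = C w
            rw [← Complex.exp_nat_mul, ← hw]
            have : ((2 : ℕ) : ℂ) * (g w / 2) = g w := by push_cast; ring
            rw [this]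
            ring
      trans := by
        intro z₀ z₁ a b h
        obtain ⟨gA, hgA⟩ := exists_log_segment z₀ z₁ A fun z hz => hA z (h z hz).1
        -- the square root of `A`
        have hr : ∀ z ∈ segment ℝ z₀ z₁, AnalyticAt ℂ (fun w => Complex.exp (gA w / 2)) z := fun z hz =>
          AnalyticAt.cexp ((hgA z hz).1.div_const)
        have hr2 : ∀ z ∈ segment ℝ z₀ z₁, ∀ᶠ w in 𝓝 z, Complex.exp (gA w / 2) ^ 2 = A w := by
          intro z hz
          filter_upwards [(hgA z hz).2] with w hw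
          rw [← Complex.exp_nat_mul, ← hw]
          have : ((2 : ℕ) : ℂ) * (gA w / 2) = gA w := by push_cast; ring
          rw [this]
        have hfa : ∀ (s : ℂ → ℂ × ℂ) (z : ℂ), z ∈ segment ℝ z₀ z₁ → AnalyticAt ℂ s z →
            AnalyticAt ℂ (fun w => (s w).1 + Complex.exp (gA w / 2) * (s w).2) z := fun s z hz hs =>
          (an_fst hs).add ((hr z hz).mul (an_snd hs))
        have hf0 : ∀ (s : ℂ → ℂ × ℂ) (z : ℂ), z ∈ segment ℝ z₀ z₁ →
            (s z).1 ^ 2 - A z * (s z).2 ^ 2 = C z →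
            (s z).1 + Complex.exp (gA z / 2) * (s z).2 ≠ 0 := by
          intro s z hz hs h0
          have h1 := (hr2 z hz).self_of_nhds
          have h2 : C z = ((s z).1 + Complex.exp (gA z / 2) * (s z).2) *
              ((s z).1 - Complex.exp (gA z / 2) * (s z).2) := by
            rw [← hs, ← h1]; ring
          rw [h0, zero_mul] at h2
          exact (hC z (h z hz).1).2 h2
        obtain ⟨ℓ, hℓ⟩ := exists_log_segment z₀ z₁
          (fun w => ((b w).1 + Complex.exp (gA w / 2) * (b w).2) /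
            ((a w).1 + Complex.exp (gA w / 2) * (a w).2)) (fun z hz => by
            obtain ⟨h1, h2, h3⟩ := h z hz
            have ha := h2.1 h1
            have hb := h3.1 h1
            have ha0 := hf0 a z hz ha.2.self_of_nhds
            have hb0 := hf0 b z hz hb.2.self_of_nhds
            exact ⟨(hfa b z hz hb.1).div (hfa a z hz ha.1) ha0, div_ne_zero hb0 ha0⟩)
        refine ⟨fun w _ => ℓ w / (Complex.exp (gA w / 2) * E w), fun z hz => ?_⟩
        obtain ⟨h1, h2, h3⟩ := h z hz
        have ha := h2.1 h1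
        have hb := h3.1 h1
        have hE1 : E z ≠ 0 := hE0 z h1
        refine ⟨analyticAt_pi_iff.2 fun _ => ?_, ?_⟩
        · exact (hℓ z hz).1.div ((hr z hz).mul (hEa z)) (mul_ne_zero (Complex.exp_ne_zero _) hE1)
        · filter_upwards [(hℓ z hz).2, ha.2, hb.2, hr2 z hz, (hEa z).continuousAt.eventually_ne hE1,
            (hC z h1).1.continuousAt.eventually_ne (hC z h1).2,
            (hfa a z hz ha.1).continuousAt.eventually_ne (hf0 a z hz ha.2.self_of_nhds)]
            with w e1 e2 e3 e4 e5 e6 e7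
          change cact (A w) (E w * (ℓ w / (Complex.exp (gA w / 2) * E w))) (a w) = b w
          have hr0 : Complex.exp (gA w / 2) ≠ 0 := Complex.exp_ne_zero _
          have e8 : Complex.exp (gA w / 2) * (E w * (ℓ w / (Complex.exp (gA w / 2) * E w))) = ℓ w := by
            field_simp
          have e9 := cact_comp (Complex.exp (gA w / 2))
            (E w * (ℓ w / (Complex.exp (gA w / 2) * E w))) (a w)
          rw [e8, e1, mul_div_cancel₀ _ e7] at e9
          have e10 := cact_norm (Complex.exp (gA w / 2) ^ 2)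
            (E w * (ℓ w / (Complex.exp (gA w / 2) * E w))) (a w)
          rw [← e4] at e2 e3 ⊢
          obtain ⟨k1, k2⟩ := pt_eq hr0 e6 (e10.trans e2) e3 e9
          exact Prod.ext k1 k2 }
  obtain ⟨v, hv⟩ := D.exists_section
  refine ⟨v, fun z hz => ?_, fun z hz => ?_⟩
  · have h1 := (hv z).1 hz
    exact ⟨h1.1, h1.2.self_of_nhds⟩
  · obtain ⟨τ, h1, h2⟩ := (hv z).2 hz
    exact ⟨τ, h1, h2.filter_mono nhdsWithin_le_nhds⟩

end Pool.Agent.AbPencil
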