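import Pool.Agent.Lib_MP_1209e6_tu.K0

/-! PIECE K3: closeness. -/

set_option autoImplicit false

open Filter Topology

namespace Pool.Agent.AbPencil

private theorem K3_lb (f : ℂ → ℂ) (z : ℂ) : ∃ n : ℤ, (n : WithTop ℤ) ≤ meromorphicOrderAt f z := by
  rcases h : meromorphicOrderAt f z with _ | n
  · exact ⟨0, by exact le_top⟩
  · exact ⟨n, le_refl _⟩

private theorem K3_mul {f g : ℂ → ℂ} {z : ℂ} {a b : ℤ} (hf : MeromorphicAt f z)
    (hg : MeromorphicAt g z) (ha : (a : WithTop ℤ) ≤ meromorphicOrderAt f z)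
    (hb : (b : WithTop ℤ) ≤ meromorphicOrderAt g z) :
    ((a + b : ℤ) : WithTop ℤ) ≤ meromorphicOrderAt (fun w => f w * g w) z := by
  have h1 : meromorphicOrderAt (fun w => f w * g w) z =
      meromorphicOrderAt f z + meromorphicOrderAt g z := meromorphicOrderAt_mul hf hg
  rw [h1, WithTop.coe_add]
  exact add_le_add ha hb

private theorem K3_add {f g : ℂ → ℂ} {z : ℂ} {a : ℤ} (hf : MeromorphicAt f z)
    (hg : MeromorphicAt g z) (ha : (a : WithTop ℤ) ≤ meromorphicOrderAt f z)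
    (hb : (a : WithTop ℤ) ≤ meromorphicOrderAt g z) :
    (a : WithTop ℤ) ≤ meromorphicOrderAt (fun w => f w + g w) z :=
  (le_min ha hb).trans (meromorphicOrderAt_add hf hg)

private theorem K3_ext {ψ : ℂ → ℂ} {z : ℂ} {n : ℤ} (hn : 1 ≤ n)
    (h : (n : WithTop ℤ) ≤ meromorphicOrderAt ψ z) :
    ∃ φ : ℂ → ℂ, AnalyticAt ℂ φ z ∧ φ z = 0 ∧ ψ =ᶠ[𝓝[≠] z] φ := by
  have hpos : 0 < meromorphicOrderAt ψ z := by
    refine lt_of_lt_of_le ?_ h
    exact_mod_cast hn
  refine ⟨Function.update ψ z 0, ?_, Function.update_self .., ?_⟩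
  · have hE : Function.update ψ z 0 =ᶠ[𝓝[≠] z] ψ := by
      filter_upwards [self_mem_nhdsWithin] with w hw
      exact Function.update_of_ne hw _ _
    apply AnalyticAt.of_meromorphicOrderAt_pos
    · rw [meromorphicOrderAt_congr hE]; exact hpos
    · exact Function.update_self ..
  · filter_upwards [self_mem_nhdsWithin] with w hw
    exact (Function.update_of_ne hw _ _).symm

private theorem K3_hs {ψ : ℂ → ℂ} {z : ℂ} {n : ℤ} (hn : 1 ≤ n) (hψ : MeromorphicAt ψ z)
    (h : (n : WithTop ℤ) ≤ meromorphicOrderAt ψ z) :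
    MeromorphicAt (fun w => chs (ψ w) - 1) z ∧
      (n : WithTop ℤ) ≤ meromorphicOrderAt (fun w => chs (ψ w) - 1) z ∧
      MeromorphicAt (fun w => shs (ψ w)) z ∧
      ((0 : ℤ) : WithTop ℤ) ≤ meromorphicOrderAt (fun w => shs (ψ w)) z := by
  obtain ⟨φ, hφ, h0, hE⟩ := K3_ext hn h
  have hd : Differentiable ℂ (dslope chs 0) := by
    rw [← differentiableOn_univ, Complex.differentiableOn_dslope univ_mem]
    exact chs_diff.differentiableOn
  have h1 : ∀ ξ, chs ξ - 1 = ξ * dslope chs 0 ξ := by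
    intro ξ
    have := sub_smul_dslope chs 0 ξ
    rw [chs_zero, sub_zero, smul_eq_mul] at this
    exact this.symm
  have hEc : (fun w => chs (ψ w) - 1) =ᶠ[𝓝[≠] z] fun w => ψ w * dslope chs 0 (φ w) := by
    filter_upwards [hE] with w hw
    rw [h1, hw]
  have hEs : (fun w => shs (ψ w)) =ᶠ[𝓝[≠] z] fun w => shs (φ w) := by
    filter_upwards [hE] with w hw
    rw [hw]
  have hA1 : AnalyticAt ℂ (fun w => dslope chs 0 (φ w)) z :=
    (hd.analyticAt (φ z)).comp hφ
  have hA2 : AnalyticAt ℂ (fun w => shs (φ w)) z := (shs_diff.analyticAt (φ z)).comp hφ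
  have hM1 : MeromorphicAt (fun w => ψ w * dslope chs 0 (φ w)) z := hψ.mul hA1.meromorphicAt
  refine ⟨hM1.congr hEc.symm, ?_, hA2.meromorphicAt.congr hEs.symm, ?_⟩
  · rw [meromorphicOrderAt_congr hEc]
    have := K3_mul hψ hA1.meromorphicAt h (b := 0) (by exact_mod_cast hA1.meromorphicOrderAt_nonneg)
    simpa using this
  · rw [meromorphicOrderAt_congr hEs]
    exact_mod_cast hA2.meromorphicOrderAt_nonneg

private theorem K3_an {σ : ℂ → ℂ} {z : ℂ} {k : ℕ} (hσ : AnalyticAt ℂ σ z)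
    (h : (k : ℕ∞) ≤ analyticOrderAt σ z) :
    (((k : ℤ) : ℤ) : WithTop ℤ) ≤ meromorphicOrderAt σ z := by
  rw [hσ.meromorphicOrderAt_eq]
  rcases hn : analyticOrderAt σ z with _ | n
  · exact le_top
  · have h2 : k ≤ n := by
      rw [hn] at h
      exact WithTop.coe_le_coe.1 h
    change ((k : ℤ) : WithTop ℤ) ≤ (((n : ℕ) : ℤ) : WithTop ℤ)
    exact_mod_cast h2

/-- Proof. Let `σ = E τ`, analytic of order at least `k` at `z`. For `k` large `A σ²` has positive order (it tends to `0`, and is holomorphic after removing the singularity), so `chs (A σ²) - 1` and `shs (A σ²) - 1` have order at least the order of `A σ²`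
(`chs ξ - 1 = ξ (…)`, `chs_diff`, `chs_zero`), which is at least `2 k + ord A`. `(cact …).1 - v₀.1 = v₀.1 (chs - 1) + A v₀.2 σ shs`, `(cact …).2 - v₀.2 = v₀.1 σ shs + v₀.2 (chs - 1)`: the orders are at least `Λ` for `k` large (depending
on the orders of `A`, `v₀.1`, `v₀.2` and on `Λ`; if one of them is identically zero its order is `⊤`). -/
theorem cact_close (A : ℂ → ℂ) (z : ℂ) (hA : MeromorphicAt A z) (v₀ : ℂ → ℂ × ℂ)
    (h1 : MeromorphicAt (fun w => (v₀ w).1) z) (h2 : MeromorphicAt (fun w => (v₀ w).2) z) (Λ : ℤ) :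
    ∃ k : ℕ, ∀ E τ : ℂ → ℂ, AnalyticAt ℂ E z → AnalyticAt ℂ τ z →
      (k : ℕ∞) ≤ analyticOrderAt E z →
      MeromorphicAt (fun w => (cact (A w) (E w * τ w) (v₀ w)).1) z ∧
      MeromorphicAt (fun w => (cact (A w) (E w * τ w) (v₀ w)).2) z ∧
      (Λ : WithTop ℤ) ≤ meromorphicOrderAt
        (fun w => (cact (A w) (E w * τ w) (v₀ w)).1 - (v₀ w).1) z ∧
      (Λ : WithTop ℤ) ≤ meromorphicOrderAt
        (fun w => (cact (A w) (E w * τ w) (v₀ w)).2 - (v₀ w).2) z := by
  obtain ⟨a, ha⟩ := K3_lb A z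
  obtain ⟨b, hb⟩ := K3_lb (fun w => (v₀ w).1) z
  obtain ⟨c, hc⟩ := K3_lb (fun w => (v₀ w).2) z
  refine ⟨(|a| + |b| + |c| + |Λ| + 1).toNat, fun E τ hE hτ hk => ?_⟩
  set k : ℕ := (|a| + |b| + |c| + |Λ| + 1).toNat with hkdef
  have hk0 : (k : ℤ) = |a| + |b| + |c| + |Λ| + 1 := by
    rw [hkdef]; exact Int.toNat_of_nonneg (by positivity)
  have hσ : AnalyticAt ℂ (fun w => E w * τ w) z := hE.mul hτ
  have hσk : (k : ℕ∞) ≤ analyticOrderAt (fun w => E w * τ w) z := by
    have : analyticOrderAt (fun w => E w * τ w) z = analyticOrderAt E z + analyticOrderAt τ z :=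
      analyticOrderAt_mul hE hτ
    rw [this]
    exact hk.trans le_self_add
  have hσm : (((k : ℤ) : ℤ) : WithTop ℤ) ≤ meromorphicOrderAt (fun w => E w * τ w) z :=
    K3_an hσ hσk
  have hσM := hσ.meromorphicAt
  have hψM : MeromorphicAt (fun w => A w * (E w * τ w) ^ 2) z := hA.mul (hσM.pow 2)
  have hψ : ((a + (k + k) : ℤ) : WithTop ℤ) ≤
      meromorphicOrderAt (fun w => A w * (E w * τ w) ^ 2) z := by
    have h3 := K3_mul hσM hσM hσm hσm
    have h4 := K3_mul hA (hσM.mul hσM) ha h3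
    have h5 : (fun w => A w * (E w * τ w) ^ 2) = fun w => A w * (E w * τ w * (E w * τ w)) := by
      ext w; ring
    rw [h5]
    exact h4
  have hn1 : 1 ≤ a + (k + k : ℤ) := by
    have := neg_abs_le a
    have := abs_nonneg b
    have := abs_nonneg c
    have := abs_nonneg Λ
    have := abs_nonneg a
    omega
  obtain ⟨hcM, hco, hsM, hso⟩ := K3_hs hn1 hψM hψ
  have hτs : (((k : ℤ) : ℤ) : WithTop ℤ) ≤
      meromorphicOrderAt (fun w => E w * τ w * shs (A w * (E w * τ w) ^ 2)) z := by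
    have := K3_mul hσM hsM hσm hso
    rwa [add_zero] at this
  have hτsM := hσM.mul hsM
  have hle : ∀ {x : ℤ} {y : WithTop ℤ}, Λ ≤ x → (x : WithTop ℤ) ≤ y → (Λ : WithTop ℤ) ≤ y :=
    fun h h' => le_trans (by exact_mod_cast h) h'
  have hab := neg_abs_le a
  have hbb := neg_abs_le b
  have hcb := neg_abs_le c
  have hΛ := le_abs_self Λ
  have ha0 := abs_nonneg a
  have hb0 := abs_nonneg b
  have hc0 := abs_nonneg c
  have hΛ0 := abs_nonneg Λ
  have e1 : (fun w => (cact (A w) (E w * τ w) (v₀ w)).1 - (v₀ w).1) =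
      fun w => (v₀ w).1 * (chs (A w * (E w * τ w) ^ 2) - 1) +
        A w * (v₀ w).2 * (E w * τ w * shs (A w * (E w * τ w) ^ 2)) := by
    ext w; simp only [cact]; ring
  have e2 : (fun w => (cact (A w) (E w * τ w) (v₀ w)).2 - (v₀ w).2) =
      fun w => (v₀ w).1 * (E w * τ w * shs (A w * (E w * τ w) ^ 2)) +
        (v₀ w).2 * (chs (A w * (E w * τ w) ^ 2) - 1) := by
    ext w; simp only [cact]; ring
  have M1 : MeromorphicAt (fun w => (cact (A w) (E w * τ w) (v₀ w)).1 - (v₀ w).1) z := by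
    rw [e1]
    exact (h1.mul hcM).add ((hA.mul h2).mul hτsM)
  have M2 : MeromorphicAt (fun w => (cact (A w) (E w * τ w) (v₀ w)).2 - (v₀ w).2) z := by
    rw [e2]
    exact (h1.mul hτsM).add (h2.mul hcM)
  refine ⟨?_, ?_, ?_, ?_⟩
  · have := M1.add h1
    have e : (fun w => (cact (A w) (E w * τ w) (v₀ w)).1) =
        (fun w => (cact (A w) (E w * τ w) (v₀ w)).1 - (v₀ w).1) + fun w => (v₀ w).1 := by
      ext w; simp
    rw [e]; exact this
  · have := M2.add h2
    have e : (fun w => (cact (A w) (E w * τ w) (v₀ w)).2) =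
        (fun w => (cact (A w) (E w * τ w) (v₀ w)).2 - (v₀ w).2) + fun w => (v₀ w).2 := by
      ext w; simp
    rw [e]; exact this
  · rw [e1]
    refine K3_add (h1.mul hcM) ((hA.mul h2).mul hτsM) ?_ ?_
    · exact hle (by omega) (K3_mul h1 hcM hb hco)
    · exact hle (by omega) (K3_mul (hA.mul h2) hτsM (K3_mul hA h2 ha hc) hτs)
  · rw [e2]
    refine K3_add (h1.mul hτsM) (h2.mul hcM) ?_ ?_
    · exact hle (by omega) (K3_mul h1 hτsM hb hτs)
    · exact hle (by omega) (K3_mul h2 hcM hc hco)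

end Pool.Agent.AbPencil
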