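import Pool.Agent.Lib_MP_1209e6_tv.M1
import Pool.Agent.Lib_MP_1209e6_tu.K0
import Pool.Agent.Lib_MP_1209e6_tw.A2

/-! PIECE K4: independence. -/

set_option autoImplicit false

open Filter Topology

namespace Pool.Agent.AbPencil

open Tw

/-- a polynomial with polynomial coefficients, evaluated -/
private theorem K4_option {B : Type} [CommRing B] [Algebra ℂ B] {n : ℕ} (x : Fin n → B) (a : B)
    (P : MvPolynomial (Option (Fin n)) ℂ) :
    (MvPolynomial.optionEquivLeft ℂ (Fin n) P).eval₂ (MvPolynomial.aeval x).toRingHom a =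
      MvPolynomial.aeval (fun o : Option (Fin n) => o.elim a x) P := by
  induction P using MvPolynomial.induction_on with
  | C c =>
    rw [MvPolynomial.optionEquivLeft_C, Polynomial.eval₂_C, MvPolynomial.aeval_C]
    exact MvPolynomial.aeval_C x c
  | add p q hp hq => rw [map_add, Polynomial.eval₂_add, hp, hq, map_add]
  | mul_X p i hp =>
    rw [map_mul, Polynomial.eval₂_mul, hp, map_mul, MvPolynomial.aeval_X]
    congr 1
    cases i with
    | none => rw [MvPolynomial.optionEquivLeft_X_none, Polynomial.eval₂_X, Option.elim_none]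
    | some i =>
      rw [MvPolynomial.optionEquivLeft_X_some, Polynomial.eval₂_C, Option.elim_some]
      exact MvPolynomial.aeval_X x i

/-- transcendence in terms of the relations -/
private theorem K4_trans {n : ℕ} (x : Fin n → Mer) (a : Mer) :
    Transcendental (Algebra.adjoin ℂ (Set.range x)) a ↔
      ∀ q : Polynomial (MvPolynomial (Fin n) ℂ),
        q.eval₂ (MvPolynomial.aeval x).toRingHom a = 0 →
          ∀ k, MvPolynomial.aeval x (q.coeff k) = 0 := by
  have hr : (MvPolynomial.aeval x : MvPolynomial (Fin n) ℂ →ₐ[ℂ] Mer).range =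
      Algebra.adjoin ℂ (Set.range x) := (Algebra.adjoin_range_eq_range_aeval ℂ x).symm
  have hmem : ∀ p : MvPolynomial (Fin n) ℂ,
      MvPolynomial.aeval x p ∈ Algebra.adjoin ℂ (Set.range x) := by
    intro p
    rw [← hr]
    exact ⟨p, rfl⟩
  let ρ : MvPolynomial (Fin n) ℂ →ₐ[ℂ] Algebra.adjoin ℂ (Set.range x) :=
    (MvPolynomial.aeval x).codRestrict _ hmem
  have hρ : ∀ p, ((ρ p : Algebra.adjoin ℂ (Set.range x)) : Mer) = MvPolynomial.aeval x p :=
    fun p => rfl
  have hsur : Function.Surjective ρ.toRingHom := by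
    rintro ⟨b, hb⟩
    rw [← hr] at hb
    obtain ⟨p, hp⟩ := hb
    exact ⟨p, Subtype.ext hp⟩
  have hev : ∀ q : Polynomial (MvPolynomial (Fin n) ℂ),
      Polynomial.aeval a (q.map ρ.toRingHom) = q.eval₂ (MvPolynomial.aeval x).toRingHom a := by
    intro q
    rw [Polynomial.aeval_def, Polynomial.eval₂_map]
    rfl
  rw [transcendental_iff]
  constructor
  · intro h q hq k
    have h1 := h (q.map ρ.toRingHom) (by rw [hev, hq])
    have h2 := congrArg (fun p => ((p.coeff k : Algebra.adjoin ℂ (Set.range x)) : Mer)) h1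
    simp only [Polynomial.coeff_map, Polynomial.coeff_zero] at h2
    exact h2
  · intro h p hp
    obtain ⟨q, rfl⟩ := Polynomial.map_surjective ρ.toRingHom hsur p
    rw [hev] at hp
    have h1 := h q hp
    refine Polynomial.ext fun k => Subtype.ext ?_
    rw [Polynomial.coeff_map, Polynomial.coeff_zero]
    exact h1 k

private theorem K4_mero {ι : Type} (H : ι → ℂ → ℂ) (hH : ∀ i z, MeromorphicAt (H i) z)
    (P : MvPolynomial ι ℂ) (z : ℂ) :
    MeromorphicAt (fun w => MvPolynomial.aeval (fun i => H i w) P) z := by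
  induction P using MvPolynomial.induction_on with
  | C c =>
    have h : (fun w => MvPolynomial.aeval (fun i => H i w) (MvPolynomial.C c : MvPolynomial ι ℂ)) =
        fun _ => c := by
      funext w
      rw [MvPolynomial.aeval_C]
      rfl
    rw [h]
    exact MeromorphicAt.const c z
  | add p q hp hq =>
    have h : (fun w => MvPolynomial.aeval (fun i => H i w) (p + q)) =
        (fun w => MvPolynomial.aeval (fun i => H i w) p) +
          fun w => MvPolynomial.aeval (fun i => H i w) q := by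
      funext w
      rw [map_add]
      rfl
    rw [h]
    exact hp.add hq
  | mul_X p i hp =>
    have h : (fun w => MvPolynomial.aeval (fun i => H i w) (p * MvPolynomial.X i)) =
        (fun w => MvPolynomial.aeval (fun i => H i w) p) * H i := by
      funext w
      rw [map_mul, MvPolynomial.aeval_X]
      rfl
    rw [h]
    exact hp.mul (hH i z)

/-- the relations of germs of global functions do not depend on the point -/
private theorem K4_rel {ι : Type} (H : ι → ℂ → ℂ) (hH : ∀ i z, MeromorphicAt (H i) z)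
    (P : MvPolynomial ι ℂ) (z z' : ℂ) :
    MvPolynomial.aeval (fun i => gz (H i) z) P = 0 →
      MvPolynomial.aeval (fun i => gz (H i) z') P = 0 := by
  rw [aeval_gz H z (fun i => hH i z), aeval_gz H z' (fun i => hH i z'),
    gz_zero_iff (fun z => K4_mero H hH P z) z z']
  exact id

/-- the exponent `∑ s_j τ^j` -/
private noncomputable def K4Lam (τ : ℂ) {n : ℕ} (s : Fin n →₀ ℕ) : ℂ := ∑ j, (s j : ℂ) * τ ^ (j : ℕ)

private theorem K4Lam_inj {τ : ℂ} (hτ : Transcendental ℚ τ) {n : ℕ} :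
    Function.Injective (K4Lam τ (n := n)) := by
  intro s t hst
  rw [transcendental_iff] at hτ
  have h1 := hτ (∑ j : Fin n, Polynomial.monomial (j : ℕ) (((s j : ℚ)) - (t j : ℚ))) (by
    rw [map_sum]
    have h2 : ∀ j : Fin n, Polynomial.aeval τ (Polynomial.monomial (j : ℕ) ((s j : ℚ) - (t j : ℚ))) =
        (s j : ℂ) * τ ^ (j : ℕ) - (t j : ℂ) * τ ^ (j : ℕ) := by
      intro j
      rw [Polynomial.aeval_monomial, map_sub, map_natCast, map_natCast, sub_mul]
    rw [Finset.sum_congr rfl fun j _ => h2 j, Finset.sum_sub_distrib]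
    exact sub_eq_zero.2 hst)
  ext j
  have h3 := congrArg (fun q : Polynomial ℚ => q.coeff (j : ℕ)) h1
  simp only [Polynomial.finset_sum_coeff, Polynomial.coeff_monomial, Polynomial.coeff_zero] at h3
  rw [Finset.sum_eq_single j] at h3
  · rw [if_pos rfl, sub_eq_zero] at h3
    exact_mod_cast h3
  · intro i _ hij
    rw [if_neg]
    intro h
    exact hij (Fin.ext h)
  · intro h
    exact absurd (Finset.mem_univ j) h

/-- the character `w ↦ exp (c w)` -/
private noncomputable def K4Char (c : ℂ) : Multiplicative ℂ →* ℂ where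
  toFun w := Complex.exp (c * Multiplicative.toAdd w)
  map_one' := by
    rw [toAdd_one, mul_zero, Complex.exp_zero]
  map_mul' := by
    intro a b
    rw [toAdd_mul, mul_add, Complex.exp_add]

private theorem K4Char_inj : Function.Injective K4Char := by
  intro a b hab
  have h1 : (fun w : ℂ => Complex.exp (a * w)) = fun w : ℂ => Complex.exp (b * w) := by
    funext w
    exact DFunLike.congr_fun hab (Multiplicative.ofAdd w)
  have h2 : ∀ c : ℂ, deriv (fun w : ℂ => Complex.exp (c * w)) 0 = c := by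
    intro c
    have h3 : HasDerivAt (fun w : ℂ => Complex.exp (c * w)) (Complex.exp (c * 0) * (c * 1)) 0 :=
      ((hasDerivAt_id (0 : ℂ)).const_mul c).cexp
    rw [h3.deriv, mul_zero, Complex.exp_zero, one_mul, mul_one]
  rw [← h2 a, ← h2 b, h1]

private theorem K4_phi {n : ℕ} (τ : ℂ) (p : MvPolynomial (Fin n) ℂ) (w : ℂ) :
    MvPolynomial.eval (fun j : Fin n => Complex.exp (τ ^ (j : ℕ) * w)) p =
      ∑ s ∈ p.support, p.coeff s * Complex.exp (K4Lam τ s * w) := by
  rw [MvPolynomial.eval_eq']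
  refine Finset.sum_congr rfl fun s _ => ?_
  congr 1
  rw [K4Lam, Finset.sum_mul, Complex.exp_sum]
  refine Finset.prod_congr rfl fun j _ => ?_
  rw [← Complex.exp_nat_mul, mul_assoc]


/-- The germs of `exp (τ^j G)`, `j < n`, are algebraically independent over `ℂ` if `τ` is transcendental over `ℚ` and `G` is
analytic and not constant near `0`. -/
private theorem K4_exp (G : ℂ → ℂ) (hG : AnalyticAt ℂ G 0) (hc : ¬ ∀ᶠ z in 𝓝 (0 : ℂ), G z = G 0)
    (τ : ℂ) (hτ : Transcendental ℚ τ) (n : ℕ)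
    (hm : ∀ j : Fin n, MeromorphicAt (fun z => Complex.exp (τ ^ (j : ℕ) * G z)) 0) :
    AlgebraicIndependent ℂ fun j : Fin n => gm (fun z => Complex.exp (τ ^ (j : ℕ) * G z)) (hm j) := by
  rw [algebraicIndependent_iff]
  intro p hp
  have h1 := (aeval_gm (fun z (j : Fin n) => Complex.exp (τ ^ (j : ℕ) * G z)) hm p).1 hp
  set φ : ℂ → ℂ := fun w => ∑ s ∈ p.support, p.coeff s * Complex.exp (K4Lam τ s * w) with hφ
  have hφd : Differentiable ℂ φ := by
    refine Differentiable.fun_sum fun s _ => ?_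
    exact (((differentiable_id).const_mul (K4Lam τ s)).cexp).const_mul (p.coeff s)
  have h2 : ∀ᶠ z in 𝓝[≠] (0 : ℂ), φ (G z) = 0 := by
    filter_upwards [h1] with z hz
    rw [← hz]
    exact (K4_phi τ p (G z)).symm
  have hφ0 : ∀ w, φ w = 0 := by
    have h3 : ∀ᶠ z in 𝓝[≠] (0 : ℂ), G z ≠ G 0 := by
      rcases hG.eventually_eq_or_eventually_ne (analyticAt_const (v := G 0)) with h | h
      · exact absurd h hc
      · exact h
    have h4 : Tendsto G (𝓝[≠] 0) (𝓝[≠] (G 0)) := by
      rw [tendsto_nhdsWithin_iff]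
      exact ⟨(hG.continuousAt.tendsto).mono_left nhdsWithin_le_nhds, h3⟩
    have h5 : ∃ᶠ w in 𝓝[≠] (G 0), φ w = 0 := h4.frequently h2.frequently
    have h6 : AnalyticOnNhd ℂ φ Set.univ := fun z _ => hφd.analyticAt z
    have h7 := AnalyticOnNhd.eq_of_frequently_eq h6 analyticOnNhd_const h5
    intro w
    exact congrFun h7 w
  have hinj : Function.Injective fun s : Fin n →₀ ℕ => K4Char (K4Lam τ s) :=
    K4Char_inj.comp (K4Lam_inj hτ)
  have hli := (linearIndependent_monoidHom (Multiplicative ℂ) ℂ).comp _ hinj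
  rw [linearIndependent_iff'] at hli
  have h7 := hli p.support (fun s => p.coeff s) (by
    funext w
    rw [Finset.sum_apply, Pi.zero_apply]
    exact hφ0 (Multiplicative.toAdd w))
  ext s
  rw [MvPolynomial.coeff_zero]
  by_cases hs : s ∈ p.support
  · exact h7 s hs
  · exact MvPolynomial.notMem_support_iff.1 hs

/-- not all exponentials of a nonconstant germ are algebraic over finitely many germs -/
private theorem K4_rank {n : ℕ} (x : Fin n → Mer) (G : ℂ → ℂ) (hG : AnalyticAt ℂ G 0)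
    (hc : ¬ ∀ᶠ z in 𝓝 (0 : ℂ), G z = G 0)
    (halg : ∀ (γ : ℂ) (hm : MeromorphicAt (fun z => Complex.exp (γ * G z)) 0),
      IsAlgebraic (Algebra.adjoin ℂ (Set.range x)) (gm (fun z => Complex.exp (γ * G z)) hm)) :
    False := by
  have hmer : ∀ γ : ℂ, MeromorphicAt (fun z => Complex.exp (γ * G z)) 0 := fun γ =>
    ((analyticAt_const.mul hG).cexp).meromorphicAt
  obtain ⟨τ, hτ⟩ : ∃ τ : ℂ, Transcendental ℚ τ := by
    by_contra hcon2
    push Not at hcon2
    have h1 : (Set.univ : Set ℂ) ⊆ {x : ℂ | IsAlgebraic ℚ x} := by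
      intro c _
      have h2 := hcon2 c
      rw [Transcendental, not_not] at h2
      exact h2
    exact not_countable_complex ((Algebraic.countable ℚ ℂ).mono h1)
  let M := AlgebraicIndependent.matroid ℂ Mer
  have hind := K4_exp G hG hc τ hτ (n + 1) fun j => hmer _
  have h1 : M.Indep (Set.range fun j : Fin (n + 1) =>
      gm (fun z => Complex.exp (τ ^ (j : ℕ) * G z)) (hmer _)) :=
    AlgebraicIndependent.matroid_indep_iff.2 (AlgebraicIndependent.to_subtype_range hind)
  have h2 : (Set.range fun j : Fin (n + 1) =>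
      gm (fun z => Complex.exp (τ ^ (j : ℕ) * G z)) (hmer _)) ⊆
      M.closure (Set.range x) := by
    rintro _ ⟨j, rfl⟩
    rw [AlgebraicIndependent.matroid_closure_eq, SetLike.mem_coe, Subalgebra.mem_algebraicClosure]
    exact halg _ _
  have h3 := M.eRk_mono h2
  rw [h1.eRk_eq_encard, M.eRk_closure_eq] at h3
  have h4 : (Set.range fun j : Fin (n + 1) =>
      gm (fun z => Complex.exp (τ ^ (j : ℕ) * G z)) (hmer _)).encard = (n + 1 : ℕ) := by
    rw [← Set.image_univ, hind.injective.encard_image]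
    simp
  have h5 : M.eRk (Set.range x) ≤ (n : ℕ) := by
    refine (M.eRk_le_encard _).trans ?_
    rw [← Set.image_univ]
    exact (Set.encard_image_le _ _).trans (by simp)
  rw [h4] at h3
  have h6 := h3.trans h5
  have h7 : n + 1 ≤ n := by exact_mod_cast h6
  omega

/-- a local square root -/
private theorem K4_sqrt {A : ℂ → ℂ} {z : ℂ} (hA : AnalyticAt ℂ A z) (h0 : A z ≠ 0) :
    ∃ r : ℂ → ℂ, AnalyticAt ℂ r z ∧ r z ≠ 0 ∧ ∀ᶠ w in 𝓝 z, r w ^ 2 = A w := by
  obtain ⟨s, hs⟩ : ∃ s : ℂ, s ^ 2 = A z := IsAlgClosed.exists_pow_nat_eq (A z) two_pos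
  have hs0 : s ≠ 0 := by
    rintro rfl
    rw [zero_pow two_ne_zero] at hs
    exact h0 hs.symm
  have hq : AnalyticAt ℂ (fun w => A w / A z) z := hA.div analyticAt_const h0
  have hq1 : A z / A z ∈ Complex.slitPlane := by
    rw [div_self h0]
    exact Complex.one_mem_slitPlane
  refine ⟨fun w => s * Complex.exp (1 / 2 * Complex.log (A w / A z)), ?_, ?_, ?_⟩
  · exact analyticAt_const.mul ((analyticAt_const.mul (hq.clog hq1)).cexp)
  · exact mul_ne_zero hs0 (Complex.exp_ne_zero _)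
  · have h1 : ∀ᶠ w in 𝓝 z, A w ≠ 0 := hA.continuousAt.eventually_ne h0
    filter_upwards [h1] with w hw
    rw [mul_pow, ← Complex.exp_nat_mul, hs]
    have h2 : ((2 : ℕ) : ℂ) * (1 / 2 * Complex.log (A w / A z)) = Complex.log (A w / A z) := by
      push_cast
      ring
    rw [h2, Complex.exp_log (div_ne_zero hw h0), mul_div_cancel₀ _ h0]

private theorem K4_gz_add {f g : ℂ → ℂ} {z : ℂ} (hf : MeromorphicAt f z) (hg : MeromorphicAt g z) :
    gz (fun w => f w + g w) z = gz f z + gz g z := by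
  have hfg : MeromorphicAt (fun w => f w + g w) z := hf.add hg
  have h1 := gz_sub hfg hg
  have h2 : (fun w => f w + g w - g w) = f := by
    funext w
    ring
  rw [h2] at h1
  rw [h1]
  ring

/-- the germ of `exp` is algebraic -/
private theorem K4_alg {n : ℕ} (x : Fin n → Mer) (z₁ : ℂ) (ia ic : Fin n) (A C : ℂ → ℂ)
    (hA : MeromorphicAt A z₁) (hC : MeromorphicAt C z₁) (hAh : gz A z₁ = x ia)
    (hCh : gz C z₁ = x ic) (hC0 : ∀ᶠ w in 𝓝[≠] z₁, C w ≠ 0) (E : ℂ → ℂ) (X Y : ℂ → ℂ)
    (hX : MeromorphicAt X z₁) (hY : MeromorphicAt Y z₁)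
    (hXY : ∀ᶠ w in 𝓝[≠] z₁, X w ^ 2 - A w * Y w ^ 2 = C w) (r : ℂ → ℂ) (hr : AnalyticAt ℂ r z₁)
    (hrA : ∀ᶠ w in 𝓝 z₁, r w ^ 2 = A w) (T : ℂ → ℂ) (hE : AnalyticAt ℂ E z₁)
    (hT : AnalyticAt ℂ T z₁)
    (hM1 : MeromorphicAt (fun w => (cact (A w) (E w * T w) (X w, Y w)).1) z₁)
    (hM2 : MeromorphicAt (fun w => (cact (A w) (E w * T w) (X w, Y w)).2) z₁)
    (h0 : IsAlgebraic (Algebra.adjoin ℂ (Set.range x)) (gz Y z₁))
    (h1 : IsAlgebraic (Algebra.adjoin ℂ (Set.range x))
      (gz (fun w => (cact (A w) (E w * T w) (X w, Y w)).2) z₁)) :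
    IsAlgebraic (Algebra.adjoin ℂ (Set.range x))
      (gz (fun w => Complex.exp (r w * (E w * T w))) z₁) := by
  have hx : ∀ i, IsAlgebraic (Algebra.adjoin ℂ (Set.range x)) (x i) := fun i =>
    isAlgebraic_algebraMap (⟨x i, Algebra.subset_adjoin ⟨i, rfl⟩⟩ : Algebra.adjoin ℂ (Set.range x))
  have hrA' : ∀ᶠ w in 𝓝[≠] z₁, r w ^ 2 = A w := hrA.filter_mono nhdsWithin_le_nhds
  have hrm : MeromorphicAt r z₁ := hr.meromorphicAt
  have hral : IsAlgebraic (Algebra.adjoin ℂ (Set.range x)) (gz r z₁) := by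
    refine IsAlgebraic.of_pow (n := 2) two_pos ?_
    have h2 : gz r z₁ ^ 2 = gz A z₁ := by
      rw [pow_two, ← gz_mul hrm hrm, gz_eq_iff (show MeromorphicAt (fun w => r w * r w) z₁ from hrm.mul hrm) hA]
      filter_upwards [hrA'] with w hw
      rw [← hw, pow_two]
    rw [h2, hAh]
    exact hx ia
  -- `X` from `Y`
  have key : ∀ U V : ℂ → ℂ, MeromorphicAt U z₁ → MeromorphicAt V z₁ →
      (∀ᶠ w in 𝓝[≠] z₁, U w ^ 2 - A w * V w ^ 2 = C w) →
      IsAlgebraic (Algebra.adjoin ℂ (Set.range x)) (gz V z₁) →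
      IsAlgebraic (Algebra.adjoin ℂ (Set.range x)) (gz (fun w => U w + r w * V w) z₁) := by
    intro U V hU hV hUV hVal
    have hrV : MeromorphicAt (fun w => r w * V w) z₁ := hrm.mul hV
    rw [K4_gz_add hU hrV, gz_mul hrm hV]
    refine IsAlgebraic.add ?_ (hral.mul hVal)
    refine IsAlgebraic.of_pow (n := 2) two_pos ?_
    have h2 : gz U z₁ ^ 2 = gz C z₁ + gz A z₁ * (gz V z₁ * gz V z₁) := by
      have hUU : MeromorphicAt (fun w => U w * U w) z₁ := hU.mul hU
      have hVV : MeromorphicAt (fun w => V w * V w) z₁ := hV.mul hV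
      have hAVV : MeromorphicAt (fun w => A w * (V w * V w)) z₁ := hA.mul hVV
      have hs : MeromorphicAt (fun w => C w + A w * (V w * V w)) z₁ := hC.add hAVV
      rw [pow_two, ← gz_mul hU hU, ← gz_mul hV hV, ← gz_mul hA hVV, ← K4_gz_add hC hAVV,
        gz_eq_iff hUU hs]
      filter_upwards [hUV] with w hw
      rw [← hw]
      ring
    rw [h2, hAh, hCh]
    exact (hx ic).add ((hx ia).mul (hVal.mul hVal))
  have hf0 := key X Y hX hY hXY h0
  have hfT := key _ _ hM1 hM2 (by
    filter_upwards [hXY] with w hw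
    rw [← hw]
    exact cact_norm (A w) (E w * T w) (X w, Y w)) h1
  have hf0m : MeromorphicAt (fun w => X w + r w * Y w) z₁ := hX.add (hrm.mul hY)
  have hem : MeromorphicAt (fun w => Complex.exp (r w * (E w * T w))) z₁ :=
    ((hr.mul (hE.mul hT)).cexp).meromorphicAt
  have hfTm : MeromorphicAt (fun w => (cact (A w) (E w * T w) (X w, Y w)).1 +
      r w * (cact (A w) (E w * T w) (X w, Y w)).2) z₁ := hM1.add (hrm.mul hM2)
  have hne : gz (fun w => X w + r w * Y w) z₁ ≠ 0 := by
    intro hz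
    rw [gz_eq_zero hf0m] at hz
    obtain ⟨w, h2, h3, h4, h5⟩ := (hz.and (hC0.and (hXY.and hrA'))).exists
    apply h3
    rw [← h4, ← h5]
    have h6 : X w ^ 2 - r w ^ 2 * Y w ^ 2 = (X w + r w * Y w) * (X w - r w * Y w) := by ring
    rw [h6, h2, zero_mul]
  have h2 : gz (fun w => (cact (A w) (E w * T w) (X w, Y w)).1 +
      r w * (cact (A w) (E w * T w) (X w, Y w)).2) z₁ =
      gz (fun w => X w + r w * Y w) z₁ * gz (fun w => Complex.exp (r w * (E w * T w))) z₁ := by
    rw [← gz_mul hf0m hem, gz_eq_iff hfTm (show MeromorphicAt (fun w => (X w + r w * Y w) *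
      Complex.exp (r w * (E w * T w))) z₁ from hf0m.mul hem)]
    filter_upwards [hrA'] with w hw
    rw [← hw]
    exact cact_comp (r w) (E w * T w) (X w, Y w)
  have h3 : gz (fun w => Complex.exp (r w * (E w * T w))) z₁ =
      (gz (fun w => X w + r w * Y w) z₁)⁻¹ * gz (fun w => (cact (A w) (E w * T w) (X w, Y w)).1 +
      r w * (cact (A w) (E w * T w) (X w, Y w)).2) z₁ := by
    rw [h2, ← mul_assoc, inv_mul_cancel₀ hne, one_mul]
  rw [h3]
  exact hf0.inv.mul hfT

/-- the contradiction at one point -/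
private theorem K4_local {n : ℕ} (x : Fin n → Mer) (z₁ : ℂ) (ia ic : Fin n) (A C : ℂ → ℂ)
    (hA : AnalyticAt ℂ A z₁) (hA1 : A z₁ ≠ 0) (hC : MeromorphicAt C z₁) (hAh : gz A z₁ = x ia)
    (hCh : gz C z₁ = x ic) (hC0 : ∀ᶠ w in 𝓝[≠] z₁, C w ≠ 0) (E : ℂ → ℂ)
    (hE : Differentiable ℂ E) (hE0 : ∀ᶠ w in 𝓝[≠] z₁, E w ≠ 0) (X Y : ℂ → ℂ)
    (hX : MeromorphicAt X z₁) (hY : MeromorphicAt Y z₁)
    (hXY : ∀ᶠ w in 𝓝[≠] z₁, X w ^ 2 - A w * Y w ^ 2 = C w)
    (hM : ∀ T : ℂ → ℂ, Differentiable ℂ T →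
      MeromorphicAt (fun w => (cact (A w) (E w * T w) (X w, Y w)).1) z₁ ∧
      MeromorphicAt (fun w => (cact (A w) (E w * T w) (X w, Y w)).2) z₁)
    (halg : ∀ T : ℂ → ℂ, Differentiable ℂ T → IsAlgebraic (Algebra.adjoin ℂ (Set.range x))
      (gz (fun w => (cact (A w) (E w * T w) (X w, Y w)).2) z₁)) : False := by
  obtain ⟨r, hr, hr0, hrA⟩ := K4_sqrt hA hA1
  have h0 : IsAlgebraic (Algebra.adjoin ℂ (Set.range x)) (gz Y z₁) := by
    have h1 := halg (fun _ => 0) (differentiable_const 0)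
    have h2 : (fun w => (cact (A w) (E w * 0) (X w, Y w)).2) = Y := by
      funext w
      rw [mul_zero, cact_zero]
    rw [h2] at h1
    exact h1
  have hex : ∀ T : ℂ → ℂ, Differentiable ℂ T → IsAlgebraic (Algebra.adjoin ℂ (Set.range x))
      (gz (fun w => Complex.exp (r w * (E w * T w))) z₁) := fun T hT =>
    K4_alg x z₁ ia ic A C hA.meromorphicAt hC hAh hCh hC0 E X Y hX hY hXY r hr hrA T
      (hE.analyticAt z₁) (hT.analyticAt z₁) (hM T hT).1 (hM T hT).2 h0 (halg T hT)
  have hshift : AnalyticAt ℂ (fun w : ℂ => z₁ + w) 0 := analyticAt_const.add analyticAt_id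
  -- the two exponents
  have hend : ∀ S : ℂ → ℂ, Differentiable ℂ S →
      ¬ (∀ᶠ w in 𝓝 (0 : ℂ), r (z₁ + w) * (E (z₁ + w) * S (z₁ + w)) =
        r (z₁ + 0) * (E (z₁ + 0) * S (z₁ + 0))) → False := by
    intro S hS hc
    have hG : AnalyticAt ℂ (fun w => r (z₁ + w) * (E (z₁ + w) * S (z₁ + w))) 0 := by
      have h1 : AnalyticAt ℂ (fun w => r w * (E w * S w)) (z₁ + 0) := by
        rw [add_zero]
        exact hr.mul ((hE.analyticAt z₁).mul (hS.analyticAt z₁))
      exact h1.comp hshift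
    refine K4_rank x _ hG hc ?_
    intro γ hm
    have h1 := hex (fun w => S w * γ) (hS.mul_const γ)
    have h2 : MeromorphicAt (fun w => Complex.exp (r w * (E w * (S w * γ)))) z₁ :=
      ((hr.mul ((hE.analyticAt z₁).mul ((hS.mul_const γ).analyticAt z₁))).cexp).meromorphicAt
    have h3 : gz (fun w => Complex.exp (r w * (E w * (S w * γ)))) z₁ =
        gm (fun w => Complex.exp (γ * (r (z₁ + w) * (E (z₁ + w) * S (z₁ + w))))) hm := by
      have h4 : gz (fun w => Complex.exp (r w * (E w * (S w * γ)))) z₁ =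
          gm _ (mero_shift.2 h2) := by
        rw [gz, dif_pos (mero_shift.2 h2)]
      rw [h4]
      refine gm_eq _ _ (Filter.Eventually.of_forall fun w => ?_)
      congr 1
      ring
    rw [h3] at h1
    exact h1
  by_cases hc : ∀ᶠ w in 𝓝 (0 : ℂ), r (z₁ + w) * (E (z₁ + w) * 1) =
        r (z₁ + 0) * (E (z₁ + 0) * 1)
  · refine hend (fun w => w) differentiable_id ?_
    intro hc2
    -- `r E = κ`, `κ ≠ 0`, `κ (z₁ + w) = κ z₁`
    have hr' : ∀ᶠ w in 𝓝 (0 : ℂ), r (z₁ + w) ≠ 0 := by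
      have h1 : ContinuousAt (fun w => r (z₁ + w)) 0 := by
        have h2 : ContinuousAt r (z₁ + 0) := by
          rw [add_zero]
          exact hr.continuousAt
        exact h2.comp hshift.continuousAt
      have h2 : (fun w => r (z₁ + w)) 0 ≠ 0 := by
        change r (z₁ + 0) ≠ 0
        rw [add_zero]
        exact hr0
      exact h1.eventually_ne h2
    have hE' : ∀ᶠ w in 𝓝[≠] (0 : ℂ), E (z₁ + w) ≠ 0 := by
      have h1 : Tendsto (fun w => z₁ + w) (𝓝[≠] (0 : ℂ)) (𝓝[≠] z₁) := by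
        apply tendsto_nhdsWithin_of_tendsto_nhds_of_eventually_within
        · have h1 : Tendsto (fun w : ℂ => z₁ + w) (𝓝 0) (𝓝 (z₁ + 0)) :=
            tendsto_const_nhds.add tendsto_id
          rw [add_zero] at h1
          exact h1.mono_left nhdsWithin_le_nhds
        · filter_upwards [self_mem_nhdsWithin] with w hw
          intro h
          apply hw
          simpa using h
      exact h1.eventually hE0
    obtain ⟨w, h1, h2, h3, h4, h5⟩ := ((hc.filter_mono nhdsWithin_le_nhds).and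
      ((hc2.filter_mono nhdsWithin_le_nhds).and ((hr'.filter_mono nhdsWithin_le_nhds).and
      (hE'.and self_mem_nhdsWithin)))).exists
    rw [mul_one, mul_one] at h1
    rw [← mul_assoc, ← mul_assoc, ← h1] at h2
    have h6 := mul_left_cancel₀ (mul_ne_zero h3 h4) h2
    apply h5
    have h7 : w = 0 := by simpa using h6
    exact h7
  · exact hend (fun _ => 1) (differentiable_const 1) hc

/-- Proof. All functions `w ↦ (cact (A w) (E w * T w) (X w, Y w)).i` are meromorphic (`hM`). As in `R1` (`tv/R1.lean`, private lemmas `R1_trans`, `R1_rel`: relations between germs of global meromorphic functions do not depend on the point) it is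
enough to find `T` such that the germ of `Y_T = (cact …).2` at ONE point `z₁` is transcendental over `ℂ[gz (h i) z₁]`. Choose `z₁` where all functions are analytic and `A, C, E` are not zero; `r` a germ with `r ^ 2 = A`. Suppose `Y_T` is algebraic over
`ℂ(h) = ℂ(gz (h i) z₁)` for all `T` of the form `c` and `c w`, `c ∈ ℂ`. Then `X_T = (cact …).1` is algebraic too (`X_T² = C + A Y_T²`, `cact_norm`), so is `f_T = X_T + r Y_T`, and `f_T = f_0 exp (r E T)` (`cact_comp`), `f_0 ≠ 0` (`f_0 (X - r Y) = C`). So `exp (c G)` is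
algebraic over `ℂ(h)` for all `c ∈ ℂ`, where `G = r E` or `G = w r E`, one of which is not constant. For `c_0, …, c_n` linearly independent over `ℚ` the germs `exp (c_i G)` are algebraically independent over `ℂ` (a relation is a linear relation
between functions `exp (λ G)` with distinct `λ`; such functions are linearly independent over `ℂ`, since `G` is not constant: `G` is open, so `∑ a_λ exp (λ s) = 0` for `s` in an open set), but they are algebraic over a field of transcendence degree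
at most `n`. (Compare `tw_step`, `tw/A2`.) -/
theorem conic_indep {n : ℕ} (h : Fin n → ℂ → ℂ) (hh : ∀ i z, MeromorphicAt (h i) z) (ia ic : Fin n)
    (A C : ℂ → ℂ) (hA : ∀ z, MeromorphicAt A z) (hC : ∀ z, MeromorphicAt C z)
    (hAh : ∀ z, gz A z = gz (h ia) z) (hCh : ∀ z, gz C z = gz (h ic) z)
    (hA0 : ∀ z, ∀ᶠ w in 𝓝[≠] z, A w ≠ 0) (hC0 : ∀ z, ∀ᶠ w in 𝓝[≠] z, C w ≠ 0) (E : ℂ → ℂ)
    (hE : Differentiable ℂ E) (hE0 : ∀ z, ∀ᶠ w in 𝓝[≠] z, E w ≠ 0) (X Y : ℂ → ℂ)
    (hX : ∀ z, MeromorphicAt X z) (hY : ∀ z, MeromorphicAt Y z)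
    (hXY : ∀ z, ∀ᶠ w in 𝓝[≠] z, X w ^ 2 - A w * Y w ^ 2 = C w)
    (hM : ∀ T : ℂ → ℂ, Differentiable ℂ T → ∀ z,
      MeromorphicAt (fun w => (cact (A w) (E w * T w) (X w, Y w)).1) z ∧
      MeromorphicAt (fun w => (cact (A w) (E w * T w) (X w, Y w)).2) z) :
    ∃ T : ℂ → ℂ, Differentiable ℂ T ∧ ∀ z,
      AlgebraicIndependent (Algebra.adjoin ℂ (Set.range fun i => gz (h i) z))
        fun _ : Fin 1 => gz (fun w => (cact (A w) (E w * T w) (X w, Y w)).2) z := by
  obtain ⟨z₁, hz1, hz2⟩ : ∃ z₁, AnalyticAt ℂ A z₁ ∧ A z₁ ≠ 0 :=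
    ((hA 0).eventually_analyticAt.and (hA0 0)).exists
  obtain ⟨T, hT, htr⟩ : ∃ T : ℂ → ℂ, Differentiable ℂ T ∧
      Transcendental (Algebra.adjoin ℂ (Set.range fun i => gz (h i) z₁))
        (gz (fun w => (cact (A w) (E w * T w) (X w, Y w)).2) z₁) := by
    by_contra hcon
    push Not at hcon
    refine K4_local (fun i => gz (h i) z₁) z₁ ia ic A C hz1 hz2 (hC z₁) (hAh z₁) (hCh z₁) (hC0 z₁)
      E hE (hE0 z₁) X Y (hX z₁) (hY z₁) (hXY z₁) (fun T hT => hM T hT z₁) ?_
    intro T hT
    have h1 := hcon T hT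
    rw [Transcendental, not_not] at h1
    exact h1
  refine ⟨T, hT, ?_⟩
  set D : ℂ → ℂ := fun w => (cact (A w) (E w * T w) (X w, Y w)).2 with hD
  have hDm : ∀ z, MeromorphicAt D z := fun z => (hM T hT z).2
  intro z
  rw [algebraicIndependent_unique_type_iff, K4_trans]
  rw [K4_trans] at htr
  intro q hq k
  obtain ⟨P, rfl⟩ := (MvPolynomial.optionEquivLeft ℂ (Fin n)).surjective q
  have hH : ∀ (o : Option (Fin n)) (z : ℂ), MeromorphicAt (o.elim D h) z := by
    intro o z
    cases o with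
    | none => exact hDm z
    | some i => exact hh i z
  have hfun : ∀ z, (fun o : Option (Fin n) => gz (o.elim D h) z) =
      fun o : Option (Fin n) => o.elim (gz D z) fun i => gz (h i) z := by
    intro z
    funext o
    cases o <;> rfl
  rw [K4_option, ← hfun] at hq
  have h2 := K4_rel (fun o : Option (Fin n) => o.elim D h) hH P z z₁ hq
  rw [hfun, ← K4_option] at h2
  exact K4_rel h hh _ z₁ z (htr _ h2 k)

end Pool.Agent.AbPencil
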