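import Pool.Agent.Lib_MP_1209e6_fl.W1
import Pool.Agent.Lib_MP_1209e6_tu.K2
import Pool.Agent.Lib_MP_1209e6_tu.K3
import Pool.Agent.Lib_MP_1209e6_tu.K4

/-! Curves in families of conics with given jets (assembly). -/

set_option autoImplicit false

open Filter Topology

namespace Pool.Agent.AbPencil

open Tw Pool.Agent.CampanaFlow

theorem cact_analytic {A σ X Y : ℂ → ℂ} {z : ℂ} (hA : AnalyticAt ℂ A z) (hσ : AnalyticAt ℂ σ z)
    (hX : AnalyticAt ℂ X z) (hY : AnalyticAt ℂ Y z) :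
    AnalyticAt ℂ (fun w => (cact (A w) (σ w) (X w, Y w)).1) z ∧
    AnalyticAt ℂ (fun w => (cact (A w) (σ w) (X w, Y w)).2) z := by
  have h1 : AnalyticAt ℂ (fun w => A w * σ w ^ 2) z := hA.mul (hσ.pow 2)
  have h2 : AnalyticAt ℂ (fun w => chs (A w * σ w ^ 2)) z := (chs_diff.analyticAt _).comp h1
  have h3 : AnalyticAt ℂ (fun w => shs (A w * σ w ^ 2)) z := (shs_diff.analyticAt _).comp h1
  exact ⟨(hX.mul h2).add ((hA.mul hY).mul (hσ.mul h3)), (hX.mul (hσ.mul h3)).add (hY.mul h2)⟩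

theorem conic_curve {n : ℕ} (h : Fin n → ℂ → ℂ) (hh : ∀ i z, MeromorphicAt (h i) z) (ia ic : Fin n)
    (Zb : Set ℂ) (hZ : ∀ z, ∀ᶠ w in 𝓝[≠] z, w ∉ Zb) (ha0 : ∀ z, gz (h ia) z ≠ 0)
    (hc0 : ∀ z, gz (h ic) z ≠ 0) (hma : ∀ z, z ∉ Zb → mo (gz (h ia) z) = 0)
    (hmc : ∀ z, z ∉ Zb → mo (gz (h ic) z) = 0) (X₀ Y₀ : ℂ → Mer)
    (h₀ : ∀ z, X₀ z ^ 2 - gz (h ia) z * Y₀ z ^ 2 = gz (h ic) z) (Λ : ℂ → ℤ) :
    ∃ X Y : ℂ → ℂ, (∀ z, MeromorphicAt X z) ∧ (∀ z, MeromorphicAt Y z) ∧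
      (∀ z, z ∉ Zb → Hol (gz X z) ∧ Hol (gz Y z)) ∧
      (∀ z, gz X z ^ 2 - gz (h ia) z * gz Y z ^ 2 = gz (h ic) z) ∧
      (∀ z ∈ Zb, (Λ z : WithTop ℤ) ≤ mo (gz X z - X₀ z) ∧ (Λ z : WithTop ℤ) ≤ mo (gz Y z - Y₀ z)) ∧
      ∀ z, AlgebraicIndependent (Algebra.adjoin ℂ (Set.range fun i => gz (h i) z))
        fun _ : Fin 1 => gz Y z := by
  classical
  obtain ⟨A, hAe, hAa, hAn⟩ := exists_normal (h ia) (hh ia)
  obtain ⟨C, hCe, hCa, hCn⟩ := exists_normal (h ic) (hh ic)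
  have hAm : ∀ z, MeromorphicAt A z := fun z => (hh ia z).congr (hAe z).symm
  have hCm : ∀ z, MeromorphicAt C z := fun z => (hh ic z).congr (hCe z).symm
  have hAh : ∀ z, gz A z = gz (h ia) z := fun z => (gz_eq_iff (hAm z) (hh ia z)).2 (hAe z)
  have hCh : ∀ z, gz C z = gz (h ic) z := fun z => (gz_eq_iff (hCm z) (hh ic z)).2 (hCe z)
  have hAo : ∀ z, z ∉ Zb → meromorphicOrderAt (h ia) z = 0 := fun z hz => by
    rw [← mo_gz (hh ia z)]
    exact hma z hz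
  have hCo : ∀ z, z ∉ Zb → meromorphicOrderAt (h ic) z = 0 := fun z hz => by
    rw [← mo_gz (hh ic z)]
    exact hmc z hz
  have hA : ∀ z, z ∉ Zb → AnalyticAt ℂ A z ∧ A z ≠ 0 := fun z hz =>
    ⟨hAa z (hAo z hz).ge, hAn z (hAo z hz)⟩
  have hC : ∀ z, z ∉ Zb → AnalyticAt ℂ C z ∧ C z ≠ 0 := fun z hz =>
    ⟨hCa z (hCo z hz).ge, hCn z (hCo z hz)⟩
  choose x₀ hx₀ hx₀g using fun z => gz_surj (X₀ z) z
  choose y₀ hy₀ hy₀g using fun z => gz_surj (Y₀ z) z
  have hrel : ∀ z, ∀ᶠ w in 𝓝[≠] z, x₀ z w ^ 2 - A w * y₀ z w ^ 2 = C w := by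
    intro z
    have m1 : MeromorphicAt (fun w => x₀ z w ^ 2) z := (hx₀ z).pow 2
    have m2 : MeromorphicAt (fun w => y₀ z w ^ 2) z := (hy₀ z).pow 2
    have m3 : MeromorphicAt (fun w => A w * y₀ z w ^ 2) z := (hAm z).mul m2
    have m4 : MeromorphicAt (fun w => x₀ z w ^ 2 - A w * y₀ z w ^ 2) z := m1.sub m3
    have e1 : gz (fun w => x₀ z w ^ 2) z = X₀ z ^ 2 := by
      have : (fun w => x₀ z w ^ 2) = fun w => x₀ z w * x₀ z w := funext fun w => pow_two _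
      rw [this, gz_mul (hx₀ z) (hx₀ z), hx₀g, pow_two]
    have e2 : gz (fun w => y₀ z w ^ 2) z = Y₀ z ^ 2 := by
      have : (fun w => y₀ z w ^ 2) = fun w => y₀ z w * y₀ z w := funext fun w => pow_two _
      rw [this, gz_mul (hy₀ z) (hy₀ z), hy₀g, pow_two]
    have e3 : gz (fun w => x₀ z w ^ 2 - A w * y₀ z w ^ 2) z = gz C z := by
      rw [gz_sub m1 m3, gz_mul (hAm z) m2, e1, e2, hAh, hCh]
      exact h₀ z
    exact (gz_eq_iff m4 (hCm z)).1 e3
  choose k hk using fun z => cact_close A z (hAm z) (fun w => (x₀ z w, y₀ z w)) (hx₀ z) (hy₀ z) (Λ z)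
  obtain ⟨E, hE, hEord⟩ := weierstrass (fun z => if z ∈ Zb then k z else 0) (fun z => by
    filter_upwards [hZ z] with w hw
    rw [if_neg hw])
  have hE0 : ∀ z, z ∉ Zb → E z ≠ 0 := by
    intro z hz
    have h1 := hEord z
    rw [if_neg hz] at h1
    exact (hE.analyticAt z).analyticOrderAt_eq_zero.1 (by simpa using h1)
  have hEk : ∀ z ∈ Zb, (k z : ℕ∞) ≤ analyticOrderAt E z := by
    intro z hz
    rw [hEord z, if_pos hz]
  obtain ⟨v, hv, hvZ⟩ := conic_glue A C Zb hZ hA hC E hE hE0 (fun z w => (x₀ z w, y₀ z w)) (by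
    intro z hz
    filter_upwards [hrel z, (hx₀ z).eventually_analyticAt, (hy₀ z).eventually_analyticAt]
      with w h1 h2 h3
    exact ⟨h2.prod h3, h1⟩)
  choose! τ hτ hvτ using hvZ
  have hv1 : ∀ z, z ∉ Zb → AnalyticAt ℂ (fun w => (v w).1) z := fun z hz =>
    analyticAt_fst.comp (hv z hz).1
  have hv2 : ∀ z, z ∉ Zb → AnalyticAt ℂ (fun w => (v w).2) z := fun z hz =>
    analyticAt_snd.comp (hv z hz).1
  -- the flow of the section
  have hflow : ∀ T : ℂ → ℂ, Differentiable ℂ T → ∀ z ∈ Zb, ∀ᶠ w in 𝓝[≠] z,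
      cact (A w) (E w * T w) ((v w).1, (v w).2) = cact (A w) (E w * (T w + τ z w)) (x₀ z w, y₀ z w) := by
    intro T _ z hz
    filter_upwards [hvτ z hz] with w hw
    rw [Prod.mk.eta, hw, ← cact_add, mul_add]
  have hclose : ∀ T : ℂ → ℂ, Differentiable ℂ T → ∀ z ∈ Zb,
      MeromorphicAt (fun w => (cact (A w) (E w * T w) ((v w).1, (v w).2)).1) z ∧
      MeromorphicAt (fun w => (cact (A w) (E w * T w) ((v w).1, (v w).2)).2) z ∧
      (Λ z : WithTop ℤ) ≤ meromorphicOrderAt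
        (fun w => (cact (A w) (E w * T w) ((v w).1, (v w).2)).1 - x₀ z w) z ∧
      (Λ z : WithTop ℤ) ≤ meromorphicOrderAt
        (fun w => (cact (A w) (E w * T w) ((v w).1, (v w).2)).2 - y₀ z w) z := by
    intro T hT z hz
    have hTτ : AnalyticAt ℂ (fun w => T w + τ z w) z := (hT.analyticAt z).add (hτ z hz)
    obtain ⟨c1, c2, c3, c4⟩ := hk z E (fun w => T w + τ z w) (hE.analyticAt z) hTτ (hEk z hz)
    have h1 := hflow T hT z hz
    refine ⟨c1.congr ?_, c2.congr ?_, c3.trans (le_of_eq (meromorphicOrderAt_congr ?_)),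
      c4.trans (le_of_eq (meromorphicOrderAt_congr ?_))⟩
    · filter_upwards [h1] with w hw
      rw [hw]
    · filter_upwards [h1] with w hw
      rw [hw]
    · filter_upwards [h1] with w hw
      rw [hw]
    · filter_upwards [h1] with w hw
      rw [hw]
  have hM : ∀ T : ℂ → ℂ, Differentiable ℂ T → ∀ z,
      MeromorphicAt (fun w => (cact (A w) (E w * T w) ((v w).1, (v w).2)).1) z ∧
      MeromorphicAt (fun w => (cact (A w) (E w * T w) ((v w).1, (v w).2)).2) z := by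
    intro T hT z
    by_cases hz : z ∈ Zb
    · exact ⟨(hclose T hT z hz).1, (hclose T hT z hz).2.1⟩
    · have h1 := cact_analytic (hA z hz).1 ((hE.analyticAt z).mul (hT.analyticAt z)) (hv1 z hz)
        (hv2 z hz)
      exact ⟨h1.1.meromorphicAt, h1.2.meromorphicAt⟩
  have hX : ∀ z, MeromorphicAt (fun w => (v w).1) z := by
    intro z
    have h1 := (hM (fun _ => 0) (differentiable_const _) z).1
    refine h1.congr (Filter.Eventually.of_forall fun w => ?_)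
    dsimp only
    rw [mul_zero, cact_zero]
  have hY : ∀ z, MeromorphicAt (fun w => (v w).2) z := by
    intro z
    have h1 := (hM (fun _ => 0) (differentiable_const _) z).2
    refine h1.congr (Filter.Eventually.of_forall fun w => ?_)
    dsimp only
    rw [mul_zero, cact_zero]
  have hXY : ∀ z, ∀ᶠ w in 𝓝[≠] z, (v w).1 ^ 2 - A w * (v w).2 ^ 2 = C w := by
    intro z
    filter_upwards [hZ z] with w hw
    exact (hv w hw).2
  have hne : ∀ (f : ℂ → ℂ), (∀ z, z ∉ Zb → f z ≠ 0) → ∀ z, ∀ᶠ w in 𝓝[≠] z, f w ≠ 0 := by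
    intro f hf z
    filter_upwards [hZ z] with w hw
    exact hf w hw
  obtain ⟨T, hT, hind⟩ := conic_indep h hh ia ic A C hAm hCm hAh hCh (hne A fun z hz => (hA z hz).2)
    (hne C fun z hz => (hC z hz).2) E hE (hne E hE0) (fun w => (v w).1) (fun w => (v w).2) hX hY hXY hM
  set X' : ℂ → ℂ := fun w => (cact (A w) (E w * T w) ((v w).1, (v w).2)).1 with hX'
  set Y' : ℂ → ℂ := fun w => (cact (A w) (E w * T w) ((v w).1, (v w).2)).2 with hY'
  have hX'm : ∀ z, MeromorphicAt X' z := fun z => (hM T hT z).1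
  have hY'm : ∀ z, MeromorphicAt Y' z := fun z => (hM T hT z).2
  refine ⟨X', Y', hX'm, hY'm, fun z hz => ?_, fun z => ?_, fun z hz => ⟨?_, ?_⟩, hind⟩
  · have h1 := cact_analytic (hA z hz).1 ((hE.analyticAt z).mul (hT.analyticAt z)) (hv1 z hz)
      (hv2 z hz)
    exact ⟨hol_gz h1.1, hol_gz h1.2⟩
  · have m1 : MeromorphicAt (fun w => X' w ^ 2) z := (hX'm z).pow 2
    have m2 : MeromorphicAt (fun w => Y' w ^ 2) z := (hY'm z).pow 2
    have m3 : MeromorphicAt (fun w => A w * Y' w ^ 2) z := (hAm z).mul m2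
    have m4 : MeromorphicAt (fun w => X' w ^ 2 - A w * Y' w ^ 2) z := m1.sub m3
    have e1 : gz (fun w => X' w ^ 2) z = gz X' z ^ 2 := by
      have : (fun w => X' w ^ 2) = fun w => X' w * X' w := funext fun w => pow_two _
      rw [this, gz_mul (hX'm z) (hX'm z), pow_two]
    have e2 : gz (fun w => Y' w ^ 2) z = gz Y' z ^ 2 := by
      have : (fun w => Y' w ^ 2) = fun w => Y' w * Y' w := funext fun w => pow_two _
      rw [this, gz_mul (hY'm z) (hY'm z), pow_two]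
    rw [← e1, ← e2, ← hAh, ← hCh, ← gz_mul (hAm z) m2, ← gz_sub m1 m3]
    refine (gz_eq_iff m4 (hCm z)).2 ?_
    filter_upwards [hXY z] with w hw
    rw [hX', hY']
    dsimp only
    rw [cact_norm]
    exact hw
  · have m1 : MeromorphicAt (fun w => X' w - x₀ z w) z := (hX'm z).sub (hx₀ z)
    rw [← hx₀g z, ← gz_sub (hX'm z) (hx₀ z), mo_gz m1]
    exact (hclose T hT z hz).2.2.1
  · have m1 : MeromorphicAt (fun w => Y' w - y₀ z w) z := (hY'm z).sub (hy₀ z)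
    rw [← hy₀g z, ← gz_sub (hY'm z) (hy₀ z), mo_gz m1]
    exact (hclose T hT z hz).2.2.2

end Pool.Agent.AbPencil
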