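import Pool.Agent.Lib_MP_1209e6_tu.Stmt
import Pool.Agent.Lib_MP_1209e6_tv.M0
import Pool.Agent.Lib_MP_1209e6_tv.H0

/-! PIECE K6: function fields of conics. -/

set_option autoImplicit false

namespace Pool.Agent.AbPencil

open Tw

variable {L : Type} [Field L] [Algebra ℂ L]

private theorem K6_sq {F : Type} [Field F] [CharZero F] {a c : F} (ha : a ≠ 0) (hc : c ≠ 0)
    {P Q : Polynomial F}
    (h : P ^ 2 - Q ^ 2 * (Polynomial.C a * Polynomial.X ^ 2 + Polynomial.C c) = 0) :
    P = 0 ∧ Q = 0 := by
  have h' : P ^ 2 = Q ^ 2 * (Polynomial.C a * Polynomial.X ^ 2 + Polynomial.C c) :=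
    sub_eq_zero.1 h
  by_cases hQ : Q = 0
  · subst hQ
    simp only [ne_eq, OfNat.ofNat_ne_zero, not_false_eq_true, zero_pow, zero_mul,
      pow_eq_zero_iff] at h'
    exact ⟨h', rfl⟩
  · exfalso
    have h1 : Q ^ 2 ∣ P ^ 2 := ⟨_, h'⟩
    rw [IsIntegrallyClosed.pow_dvd_pow_iff two_ne_zero] at h1
    obtain ⟨G, rfl⟩ := h1
    rw [mul_pow] at h'
    have h2 : G ^ 2 = Polynomial.C a * Polynomial.X ^ 2 + Polynomial.C c :=
      mul_left_cancel₀ (pow_ne_zero 2 hQ) h'
    have hD : (Polynomial.C a * Polynomial.X ^ 2 + Polynomial.C c).natDegree = 2 := by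
      have : Polynomial.C a * Polynomial.X ^ 2 + Polynomial.C c =
          Polynomial.C a * Polynomial.X ^ 2 + Polynomial.C 0 * Polynomial.X + Polynomial.C c := by
        simp
      rw [this]
      exact Polynomial.natDegree_quadratic ha
    have hG : G.natDegree = 1 := by
      have := congrArg Polynomial.natDegree h2
      rw [Polynomial.natDegree_pow, hD] at this
      omega
    have h6 := congrArg (fun p => Polynomial.coeff p 0) h2
    have h5 := congrArg (fun p => Polynomial.coeff p 1) h2
    simp only [pow_two, Polynomial.mul_coeff_zero, Polynomial.mul_coeff_one] at h5 h6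
    have h7 : (Polynomial.C a * (Polynomial.X * Polynomial.X) + Polynomial.C c).coeff 0 = c := by
      simp
    have h8 : (Polynomial.C a * (Polynomial.X * Polynomial.X) + Polynomial.C c).coeff 1 = 0 := by
      rw [← pow_two]
      simp [Polynomial.coeff_X_pow]
    rw [h7] at h6
    rw [h8] at h5
    have h9 : G.coeff 1 ≠ 0 := by
      have : G ≠ 0 := by
        rintro rfl
        simp at hG
      rw [← hG]
      exact Polynomial.leadingCoeff_ne_zero.2 this
    have h10 : G.coeff 0 ≠ 0 := by
      intro h11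
      rw [h11, zero_mul] at h6
      exact hc h6.symm
    have h12 : 2 * (G.coeff 0 * G.coeff 1) = 0 := by linear_combination h5
    exact mul_ne_zero two_ne_zero (mul_ne_zero h10 h9) h12

/-- Proof. `F(y)` is isomorphic to the field of rational functions; `φ₀` extends to `F(y) → M` with `y ↦ Y` because no nonzero polynomial over `F` vanishes at `Y` (`hY`). The polynomial `T² - (a y² + c)` over `F(y)` is irreducible: otherwise
`a y² + c` is a square in `F(y)`, so (integrally closed) a square of a polynomial in `y` over `F`, but `a y² + c` is separable of degree two (`a c ≠ 0`). So `F' = F(y)(x)` is `F(y)[T]/(T² - (a y² + c))` and the homomorphism extends with `x ↦ X`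
(`hXY`). -/
theorem conic_hom {F F' : IntermediateField ℂ L} (a c x y : L) (ha : a ∈ F) (hc : c ∈ F) (ha0 : a ≠ 0)
    (hc0 : c ≠ 0) (hxy : x ^ 2 - a * y ^ 2 = c) (hy : Transcendental F y)
    (hF' : F' = IntermediateField.adjoin ℂ (insert x (insert y (F : Set L)))) {M : Type} [Field M]
    [Algebra ℂ M] (φ₀ : F →ₐ[ℂ] M) (X Y : M) (hXY : X ^ 2 - φ₀ ⟨a, ha⟩ * Y ^ 2 = φ₀ ⟨c, hc⟩)
    (hY : ∀ p : Polynomial F, p ≠ 0 → p.eval₂ φ₀.toRingHom Y ≠ 0) :
    ∃ φ : F' →ₐ[ℂ] M, (∀ b : F', ∀ hb : (b : L) ∈ F, φ b = φ₀ ⟨b, hb⟩) ∧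
      (∀ b : F', (b : L) = y → φ b = Y) ∧ ∀ b : F', (b : L) = x → φ b = X := by
  classical
  have : CharZero F := charZero_of_injective_algebraMap (algebraMap ℂ F).injective
  obtain ⟨yv, hyv⟩ : ∃ yv : Option (Option F) → L, yv = fun i => match i with
    | none => x
    | some none => y
    | some (some b) => (b : L) := ⟨_, rfl⟩
  obtain ⟨Yv, hYv⟩ : ∃ Yv : Option (Option F) → M, Yv = fun i => match i with
    | none => X
    | some none => Y
    | some (some b) => φ₀ b := ⟨_, rfl⟩
  obtain ⟨D, hD⟩ : ∃ D : Polynomial F,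
    D = Polynomial.C ⟨a, ha⟩ * Polynomial.X ^ 2 + Polynomial.C ⟨c, hc⟩ := ⟨_, rfl⟩
  have hDL : Polynomial.aeval y D = x ^ 2 := by
    rw [hD]
    simp only [map_add, map_mul, Polynomial.aeval_C, map_pow, Polynomial.aeval_X]
    change a * y ^ 2 + c = x ^ 2
    linear_combination -hxy
  have hDM : D.eval₂ φ₀.toRingHom Y = X ^ 2 := by
    rw [hD]
    simp only [Polynomial.eval₂_add, Polynomial.eval₂_mul, Polynomial.eval₂_C,
      Polynomial.eval₂_X_pow]
    change φ₀ ⟨a, ha⟩ * Y ^ 2 + φ₀ ⟨c, hc⟩ = X ^ 2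
    linear_combination -hXY
  have hrep : ∀ p : MvPolynomial (Option (Option F)) ℂ, ∃ P Q : Polynomial F,
      MvPolynomial.aeval yv p = Polynomial.aeval y P + Polynomial.aeval y Q * x ∧
      MvPolynomial.aeval Yv p = P.eval₂ φ₀.toRingHom Y + Q.eval₂ φ₀.toRingHom Y * X := by
    intro p
    induction p using MvPolynomial.induction_on with
    | C r =>
      refine ⟨Polynomial.C (algebraMap ℂ F r), 0, ?_, ?_⟩
      · rw [MvPolynomial.aeval_C, Polynomial.aeval_C, map_zero, zero_mul, add_zero]
        rfl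
      · rw [MvPolynomial.aeval_C, Polynomial.eval₂_C, Polynomial.eval₂_zero, zero_mul, add_zero]
        exact (φ₀.commutes r).symm
    | add p q hp hq =>
      obtain ⟨P, Q, h1, h2⟩ := hp
      obtain ⟨P', Q', h1', h2'⟩ := hq
      refine ⟨P + P', Q + Q', ?_, ?_⟩
      · rw [map_add, map_add, map_add, h1, h1']
        ring
      · rw [map_add, Polynomial.eval₂_add, Polynomial.eval₂_add, h2, h2']
        ring
    | mul_X p i hp =>
      obtain ⟨P, Q, h1, h2⟩ := hp
      rcases i with _ | _ | b
      · refine ⟨Q * D, P, ?_, ?_⟩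
        · rw [map_mul, MvPolynomial.aeval_X, map_mul, hDL, h1, hyv]
          ring
        · rw [map_mul, MvPolynomial.aeval_X, Polynomial.eval₂_mul, hDM, h2, hYv]
          ring
      · refine ⟨P * Polynomial.X, Q * Polynomial.X, ?_, ?_⟩
        · rw [map_mul, MvPolynomial.aeval_X, map_mul, map_mul, Polynomial.aeval_X, h1, hyv]
          ring
        · rw [map_mul, MvPolynomial.aeval_X, Polynomial.eval₂_mul, Polynomial.eval₂_mul,
            Polynomial.eval₂_X, h2, hYv]
          ring
      · refine ⟨P * Polynomial.C b, Q * Polynomial.C b, ?_, ?_⟩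
        · rw [map_mul, MvPolynomial.aeval_X, map_mul, map_mul, Polynomial.aeval_C, h1, hyv]
          change (Polynomial.aeval y P + Polynomial.aeval y Q * x) * (b : L) =
            Polynomial.aeval y P * (b : L) + Polynomial.aeval y Q * (b : L) * x
          ring
        · rw [map_mul, MvPolynomial.aeval_X, Polynomial.eval₂_mul, Polynomial.eval₂_mul,
            Polynomial.eval₂_C, h2, hYv]
          change (Polynomial.eval₂ φ₀.toRingHom Y P + Polynomial.eval₂ φ₀.toRingHom Y Q * X) *
            φ₀ b = Polynomial.eval₂ φ₀.toRingHom Y P * φ₀ b +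
              Polynomial.eval₂ φ₀.toRingHom Y Q * φ₀ b * X
          ring
  have hrel : SameRel yv Yv := by
    intro p
    obtain ⟨P, Q, h1, h2⟩ := hrep p
    rw [h1, h2]
    by_cases h0 : P = 0 ∧ Q = 0
    · obtain ⟨rfl, rfl⟩ := h0
      simp
    · have hN : P ^ 2 - Q ^ 2 * D ≠ 0 := by
        intro h3
        rw [hD] at h3
        refine h0 (K6_sq ?_ ?_ h3)
        · intro h4
          exact ha0 (congrArg Subtype.val h4)
        · intro h4
          exact hc0 (congrArg Subtype.val h4)
      have hNL : Polynomial.aeval y (P ^ 2 - Q ^ 2 * D) ≠ 0 := fun h3 => hy ⟨_, hN, h3⟩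
      have hNM := hY _ hN
      constructor
      · intro h3
        exfalso
        apply hNL
        rw [map_sub, map_mul, map_pow, map_pow, hDL]
        linear_combination (Polynomial.aeval y P - Polynomial.aeval y Q * x) * h3
      · intro h3
        exfalso
        apply hNM
        rw [Polynomial.eval₂_sub, Polynomial.eval₂_mul, Polynomial.eval₂_pow,
          Polynomial.eval₂_pow, hDM]
        linear_combination (Polynomial.eval₂ φ₀.toRingHom Y P -
          Polynomial.eval₂ φ₀.toRingHom Y Q * X) * h3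
  have hrange : insert x (insert y (F : Set L)) = Set.range yv := by
    ext z
    constructor
    · rintro (rfl | rfl | hz)
      · exact ⟨none, by rw [hyv]⟩
      · exact ⟨some none, by rw [hyv]⟩
      · exact ⟨some (some ⟨z, hz⟩), by rw [hyv]⟩
    · rintro ⟨i, rfl⟩
      rcases i with _ | _ | b
      · rw [hyv]
        exact Or.inl rfl
      · rw [hyv]
        exact Or.inr (Or.inl rfl)
      · rw [hyv]
        exact Or.inr (Or.inr b.2)
  have y1 : yv none = x := by rw [hyv]
  have y2 : yv (some none) = y := by rw [hyv]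
  have y3 : ∀ b : F, yv (some (some b)) = b := fun b => by rw [hyv]
  rw [hrange] at hF'
  subst hF'
  obtain ⟨φ, hφ⟩ := hom_of_rel yv Yv hrel
  refine ⟨φ, ?_, ?_, ?_⟩
  · intro b hb
    have e : yv (some (some ⟨b, hb⟩)) = b := y3 _
    have hi : yv (some (some ⟨b, hb⟩)) ∈ IntermediateField.adjoin ℂ (Set.range yv) := by
      rw [e]
      exact b.2
    have h1 := hφ (some (some ⟨b, hb⟩)) hi
    have h2 : (⟨yv (some (some ⟨b, hb⟩)), hi⟩ : IntermediateField.adjoin ℂ (Set.range yv)) = b :=
      Subtype.ext e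
    rw [h2] at h1
    rw [h1, hYv]
  · intro b hb
    have e : yv (some none) = b := y2.trans hb.symm
    have hi : yv (some none) ∈ IntermediateField.adjoin ℂ (Set.range yv) := by
      rw [e]
      exact b.2
    have h1 := hφ (some none) hi
    have h2 : (⟨yv (some none), hi⟩ : IntermediateField.adjoin ℂ (Set.range yv)) = b :=
      Subtype.ext e
    rw [h2] at h1
    rw [h1, hYv]
  · intro b hb
    have e : yv none = b := y1.trans hb.symm
    have hi : yv none ∈ IntermediateField.adjoin ℂ (Set.range yv) := by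
      rw [e]
      exact b.2
    have h1 := hφ none hi
    have h2 : (⟨yv none, hi⟩ : IntermediateField.adjoin ℂ (Set.range yv)) = b :=
      Subtype.ext e
    rw [h2] at h1
    rw [h1, hYv]

open IntermediateField.algebraAdjoinAdjoin in
/-- Proof. Clear denominators: `F` is the fraction field of `ℂ[y']`, and `φ₀` maps it to the fraction field of the algebra generated by the `φ₀ (y' i)`. -/
theorem trans_of_indep {F : IntermediateField ℂ L} {n : ℕ} (y' : Fin n → L)
    (hF : F = IntermediateField.adjoin ℂ (Set.range y')) (hyF : ∀ i, y' i ∈ F) {M : Type} [Field M]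
    [Algebra ℂ M] (φ₀ : F →ₐ[ℂ] M) (Y : M)
    (hY : AlgebraicIndependent (Algebra.adjoin ℂ (Set.range fun i => φ₀ ⟨y' i, hyF i⟩))
      fun _ : Fin 1 => Y) : ∀ p : Polynomial F, p ≠ 0 → p.eval₂ φ₀.toRingHom Y ≠ 0 := by
  classical
  have hT : Transcendental (Algebra.adjoin ℂ (Set.range fun i => φ₀ ⟨y' i, hyF i⟩)) Y :=
    (algebraicIndependent_singleton_iff (0 : Fin 1)).1 hY
  have hT' : Transcendental (IntermediateField.adjoin ℂ (Set.range fun i => φ₀ ⟨y' i, hyF i⟩)) Y := by
    intro h
    exact hT ((IsFractionRing.isAlgebraic_iff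
      (Algebra.adjoin ℂ (Set.range fun i => φ₀ ⟨y' i, hyF i⟩))
      (IntermediateField.adjoin ℂ (Set.range fun i => φ₀ ⟨y' i, hyF i⟩)) M).2 h)
  have hmem : ∀ b : F, φ₀ b ∈ IntermediateField.adjoin ℂ (Set.range fun i => φ₀ ⟨y' i, hyF i⟩) := by
    have key : ∀ (z : L) (hz : z ∈ IntermediateField.adjoin ℂ (Set.range y')) (hzF : z ∈ F),
        φ₀ ⟨z, hzF⟩ ∈ IntermediateField.adjoin ℂ (Set.range fun i => φ₀ ⟨y' i, hyF i⟩) := by
      intro z hz
      refine IntermediateField.adjoin_induction (F := ℂ) (s := Set.range y')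
        (p := fun z _ => ∀ hzF : z ∈ F,
          φ₀ ⟨z, hzF⟩ ∈ IntermediateField.adjoin ℂ (Set.range fun i => φ₀ ⟨y' i, hyF i⟩))
        ?_ ?_ ?_ ?_ ?_ hz
      · rintro _ ⟨i, rfl⟩ hzF
        exact IntermediateField.subset_adjoin _ _ ⟨i, rfl⟩
      · intro r hzF
        have : φ₀ ⟨algebraMap ℂ L r, hzF⟩ = algebraMap ℂ M r := φ₀.commutes r
        rw [this]
        exact IntermediateField.algebraMap_mem _ r
      · intro z w hz hw h1 h2 hzF
        have hz' : z ∈ F := by rw [hF]; exact hz
        have hw' : w ∈ F := by rw [hF]; exact hw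
        have : φ₀ ⟨z + w, hzF⟩ = φ₀ ⟨z, hz'⟩ + φ₀ ⟨w, hw'⟩ := by
          rw [← map_add]
          rfl
        rw [this]
        exact add_mem (h1 hz') (h2 hw')
      · intro z hz h1 hzF
        have hz' : z ∈ F := by rw [hF]; exact hz
        have : φ₀ ⟨z⁻¹, hzF⟩ = (φ₀ ⟨z, hz'⟩)⁻¹ := by
          rw [← map_inv₀]
          rfl
        rw [this]
        exact inv_mem (h1 hz')
      · intro z w hz hw h1 h2 hzF
        have hz' : z ∈ F := by rw [hF]; exact hz
        have hw' : w ∈ F := by rw [hF]; exact hw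
        have : φ₀ ⟨z * w, hzF⟩ = φ₀ ⟨z, hz'⟩ * φ₀ ⟨w, hw'⟩ := by
          rw [← map_mul]
          rfl
        rw [this]
        exact mul_mem (h1 hz') (h2 hw')
    intro b
    exact key b (by rw [← hF]; exact b.2) b.2
  intro p hp h0
  let ψ : F →+* IntermediateField.adjoin ℂ (Set.range fun i => φ₀ ⟨y' i, hyF i⟩) :=
    φ₀.toRingHom.codRestrict
      (IntermediateField.adjoin ℂ (Set.range fun i => φ₀ ⟨y' i, hyF i⟩)) hmem
  apply hT'
  refine ⟨p.map ψ, ?_, ?_⟩
  · intro h1
    exact hp ((Polynomial.map_eq_zero ψ).1 h1)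
  · rw [Polynomial.aeval_def, Polynomial.eval₂_map]
    exact h0

open IntermediateField.algebraAdjoinAdjoin in
private theorem K6_trdeg {K L : Type} [Field K] [Field L] [Algebra K L] (d : L) :
    Algebra.trdeg K (IntermediateField.adjoin K {d}) ≤ 1 := by
  have h1 : Algebra.trdeg K (Algebra.adjoin K {d}) ≤ 1 := by
    have hs : Function.Surjective
        ((Polynomial.aeval (R := K) (⟨d, Algebra.subset_adjoin (Set.mem_singleton d)⟩ :
          Algebra.adjoin K {d})) : Polynomial K →ₐ[K] Algebra.adjoin K {d}) := by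
      rintro ⟨x, hx⟩
      rw [Algebra.adjoin_singleton_eq_range_aeval] at hx
      obtain ⟨p, hp⟩ := hx
      refine ⟨p, Subtype.ext ?_⟩
      have h := Polynomial.aeval_algHom_apply (Algebra.adjoin K {d}).val
        (⟨d, Algebra.subset_adjoin (Set.mem_singleton d)⟩ : Algebra.adjoin K {d}) p
      exact h.symm.trans hp
    have h2 := trdeg_le_of_surjective _ hs
    rwa [Polynomial.trdeg_of_isDomain] at h2
  have h3 := trdeg_add_eq K (Algebra.adjoin K {d})
    (A := IntermediateField.adjoin K {d})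
  have h4 : Algebra.trdeg (Algebra.adjoin K {d}) (IntermediateField.adjoin K {d}) = 0 :=
    trdeg_eq_zero
  rw [h4, add_zero] at h3
  rw [← h3]
  exact h1

private theorem K6_indep {K L : Type} [Field K] [Field L] [Algebra K L] (E : IntermediateField K L)
    (hE : Algebra.trdeg K E ≤ 1) (x : L) (hx : IsIntegral E x) (b d : L)
    (hb : b ∈ IntermediateField.adjoin E {x}) (hd : d ∈ IntermediateField.adjoin E {x}) :
    ¬ AlgebraicIndependent K ![b, d] := by
  intro hbd
  have i1 : IsScalarTower K (IntermediateField.adjoin E {x}) L :=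
    IsScalarTower.of_algebraMap_eq fun _ => rfl
  have hind : AlgebraicIndependent K
      (![(⟨b, hb⟩ : IntermediateField.adjoin E {x}), ⟨d, hd⟩]) := by
    have hcomp : ((IsScalarTower.toAlgHom K (IntermediateField.adjoin E {x}) L) :
        IntermediateField.adjoin E {x} → L) ∘
        (![(⟨b, hb⟩ : IntermediateField.adjoin E {x}), ⟨d, hd⟩]) = ![b, d] := by
      funext i
      fin_cases i <;> rfl
    have := (AlgHom.algebraicIndependent_iff
      (x := (![(⟨b, hb⟩ : IntermediateField.adjoin E {x}), ⟨d, hd⟩]))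
      (IsScalarTower.toAlgHom K (IntermediateField.adjoin E {x}) L)
      (algebraMap (IntermediateField.adjoin E {x}) L).injective)
    rw [hcomp] at this
    exact this.1 hbd
  have h1 := hind.cardinalMk_le_trdeg
  have h3 := trdeg_add_eq K E (A := IntermediateField.adjoin E {x})
  have : Algebra.IsAlgebraic E (IntermediateField.adjoin E {x}) :=
    IntermediateField.isAlgebraic_adjoin_simple hx
  have h4 : Algebra.trdeg E (IntermediateField.adjoin E {x}) = 0 := trdeg_eq_zero
  rw [h4, add_zero] at h3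
  rw [← h3] at h1
  have h2 := h1.trans hE
  rw [Cardinal.mk_fin] at h2
  have : (2 : ℕ) ≤ 1 := by exact_mod_cast h2
  omega

private theorem K6_mem {L : Type} [Field L] [Algebra ℂ L] (F : IntermediateField ℂ L)
    (E : IntermediateField F L) (x z : L) (hz : z ∈ E) : z ∈ IntermediateField.adjoin E {x} :=
  (IntermediateField.adjoin E {x}).algebraMap_mem (⟨z, hz⟩ : E)

private theorem K6_le {L : Type} [Field L] [Algebra ℂ L] (F : IntermediateField ℂ L)
    (E : IntermediateField F L) (x y : L) (hy : y ∈ E) :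
    ∀ b ∈ IntermediateField.adjoin ℂ (insert x (insert y (F : Set L))),
      b ∈ IntermediateField.adjoin E {x} := by
  intro b hb
  have hFE : ∀ z ∈ F, z ∈ E := fun z hz => E.algebraMap_mem (⟨z, hz⟩ : F)
  refine IntermediateField.adjoin_induction (F := ℂ) (s := insert x (insert y (F : Set L)))
    (p := fun z _ => z ∈ IntermediateField.adjoin E {x}) ?_ ?_ ?_ ?_ ?_ hb
  · intro z hz
    rcases hz with h | h | h
    · rw [h]
      exact IntermediateField.subset_adjoin E {x} (Set.mem_singleton x)
    · rw [h]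
      exact K6_mem F E x y hy
    · exact K6_mem F E x z (hFE z h)
  · intro r
    exact K6_mem F E x _ (hFE _ (F.algebraMap_mem r))
  · intro z w _ _ h1 h2
    exact add_mem h1 h2
  · intro z _ h1
    exact inv_mem h1
  · intro z w _ _ h1 h2
    exact mul_mem h1 h2

/-- Proof. All elements of `F'` are algebraic over `F(y)` (`x` is). As `line_trdeg` (`tv/G0`), which may be used. -/
theorem conic_trdeg {F F' : IntermediateField ℂ L} (a c x y : L) (ha : a ∈ F) (hc : c ∈ F)
    (hxy : x ^ 2 - a * y ^ 2 = c)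
    (hF' : F' = IntermediateField.adjoin ℂ (insert x (insert y (F : Set L)))) :
    ∀ b ∈ F', ∀ d ∈ F', ¬ AlgebraicIndependent F ![b, d] := by
  have hyE : y ∈ IntermediateField.adjoin F {y} :=
    IntermediateField.subset_adjoin F {y} (Set.mem_singleton y)
  have hFE : ∀ z ∈ F, z ∈ IntermediateField.adjoin F {y} := fun z hz =>
    (IntermediateField.adjoin F {y}).algebraMap_mem (⟨z, hz⟩ : F)
  have hE : Algebra.trdeg F (IntermediateField.adjoin F {y}) ≤ 1 := K6_trdeg (K := F) y
  have hxi : IsIntegral (IntermediateField.adjoin F {y}) x := by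
    have h1 : a * y ^ 2 + c ∈ IntermediateField.adjoin F {y} :=
      add_mem (mul_mem (hFE a ha) (pow_mem hyE 2)) (hFE c hc)
    refine ⟨Polynomial.X ^ 2 - Polynomial.C ⟨_, h1⟩, Polynomial.monic_X_pow_sub_C _ two_ne_zero, ?_⟩
    rw [Polynomial.eval₂_sub, Polynomial.eval₂_X_pow, Polynomial.eval₂_C]
    change x ^ 2 - (a * y ^ 2 + c) = 0
    linear_combination hxy
  intro b hb d hd
  rw [hF'] at hb hd
  exact K6_indep (IntermediateField.adjoin F {y}) hE x hxi b d
    (K6_le F (IntermediateField.adjoin F {y}) x y hyE b hb)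
    (K6_le F (IntermediateField.adjoin F {y}) x y hyE d hd)

end Pool.Agent.AbPencil
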