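import Pool.Agent.Lib_MP_1209e6_tv.Main
import Pool.Agent.Lib_MP_1209e6_tu.K5
import Pool.Agent.Lib_MP_1209e6_tu.K6

/-! The step for conics (assembly). -/

set_option autoImplicit false

open Filter Topology

namespace Pool.Agent.AbPencil

open Tw

variable {L : Type} [Field L] [Algebra ℂ L]

theorem mo_zero_of_hol {a : Tw.Mer} (ha : a ≠ 0) (h1 : Hol a) (h2 : Hol a⁻¹) : mo a = 0 := by
  obtain ⟨n, hn⟩ := exists_int ha
  have h3 := M1_mo_inv ha hn
  unfold Hol at h1 h2
  rw [hn] at h1
  rw [h3] at h2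
  rw [hn]
  have h4 : (0 : ℤ) ≤ n := by exact_mod_cast h1
  have h5 : (0 : ℤ) ≤ -n := by exact_mod_cast h2
  have h6 : n = 0 := by omega
  rw [h6]
  rfl

theorem adjoin_two {F : IntermediateField ℂ L} {n : ℕ} (y' : Fin n → L) (x y : L)
    (hF : F = IntermediateField.adjoin ℂ (Set.range y')) :
    IntermediateField.adjoin ℂ (insert x (insert y (F : Set L))) =
      IntermediateField.adjoin ℂ (Set.range (Sum.elim y' ![y, x])) := by
  subst hF
  apply le_antisymm
  · rw [IntermediateField.adjoin_le_iff]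
    rintro a (rfl | rfl | ha)
    · exact IntermediateField.subset_adjoin _ _ ⟨Sum.inr 1, rfl⟩
    · exact IntermediateField.subset_adjoin _ _ ⟨Sum.inr 0, rfl⟩
    · refine (IntermediateField.adjoin_le_iff.2 ?_ : IntermediateField.adjoin ℂ (Set.range y') ≤ _) ha
      rintro _ ⟨i, rfl⟩
      exact IntermediateField.subset_adjoin _ _ ⟨Sum.inl i, rfl⟩
  · rw [IntermediateField.adjoin_le_iff]
    rintro _ ⟨i | i, rfl⟩
    · exact IntermediateField.subset_adjoin _ _
        (Or.inr (Or.inr (IntermediateField.subset_adjoin _ _ ⟨i, rfl⟩)))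
    · fin_cases i
      · exact IntermediateField.subset_adjoin _ _ (Or.inr (Or.inl rfl))
      · exact IntermediateField.subset_adjoin _ _ (Or.inl rfl)

theorem adjoin_add {F : IntermediateField ℂ L} {n : ℕ} (y' : Fin n → L) (a c : L)
    (hF : F = IntermediateField.adjoin ℂ (Set.range y')) (ha : a ∈ F) (hc : c ∈ F) :
    F = IntermediateField.adjoin ℂ (Set.range (Fin.append y' ![a, c])) := by
  rw [range_append]
  apply le_antisymm
  · conv_lhs => rw [hF]
    rw [IntermediateField.adjoin_le_iff]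
    rintro _ ⟨i, rfl⟩
    exact IntermediateField.subset_adjoin _ _ ⟨Sum.inl i, rfl⟩
  · rw [IntermediateField.adjoin_le_iff]
    rintro _ ⟨i | i, rfl⟩
    · rw [hF]
      exact IntermediateField.subset_adjoin _ _ ⟨i, rfl⟩
    · fin_cases i
      · exact ha
      · exact hc

theorem conic_step (hfg : ∃ T : Finset L, IntermediateField.adjoin ℂ (T : Set L) = ⊤)
    {F F' : IntermediateField ℂ L} (hF : Realized F) (h : ConicStep F F') : Realized F' := by
  classical
  obtain ⟨a, c, x, y, ha, hc, ha0, hc0, hxy, hy, hF', hNM⟩ := h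
  obtain ⟨⟨n₀, y₀, hy₀⟩, H, hHm, hH⟩ := hF
  choose ε hε using hH
  set n : ℕ := n₀ + 2 with hn
  set y' : Fin n → L := Fin.append y₀ ![a, c] with hy'
  have hFy : F = IntermediateField.adjoin ℂ (Set.range y') := adjoin_add y₀ a c hy₀ ha hc
  have hyF : ∀ i, y' i ∈ F := fun i => by
    rw [hFy]
    exact IntermediateField.subset_adjoin _ _ ⟨i, rfl⟩
  set ia : Fin n := Fin.natAdd n₀ 0 with hia
  set ic : Fin n := Fin.natAdd n₀ 1 with hic
  have hya : y' ia = a := by rw [hy', hia, Fin.append_right]; rfl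
  have hyc : y' ic = c := by rw [hy', hic, Fin.append_right]; rfl
  have hFF' : F ≤ F' := by
    rw [hF']
    exact fun b hb => IntermediateField.subset_adjoin _ _ (Or.inr (Or.inr hb))
  have hxF' : x ∈ F' := by
    rw [hF']
    exact IntermediateField.subset_adjoin _ _ (Or.inl rfl)
  have hyF' : y ∈ F' := by
    rw [hF']
    exact IntermediateField.subset_adjoin _ _ (Or.inr (Or.inl rfl))
  have hF'2 : F' = IntermediateField.adjoin ℂ (Set.range (Sum.elim y' ![y, x])) := by
    rw [hF', adjoin_two y' x y hFy]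
  have hF'3 : F' = IntermediateField.adjoin ℂ (Set.range (Fin.append y' ![y, x])) := by
    rw [range_append]
    exact hF'2
  obtain ⟨Y, hYF, hlift⟩ := germs_lift hfg hFF' ⟨_, _, hF'3⟩
    (conic_trdeg a c x y ha hc hxy hF') _ hNM
  set h : Fin n → ℂ → ℂ := fun i => H ⟨y' i, hyF i⟩ with hh
  set Y' : Finset L := insert a (insert a⁻¹ (insert c (insert c⁻¹ Y))) with hY'
  set Zb : Set ℂ := {w | ∃ b : F, (b : L) ∈ Y' ∧ ¬ Hol (gz (H b) w)} with hZb
  have hεa : ∀ z, gz (h ia) z = ε z a := by
    intro z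
    have h1 := hε z ⟨y' ia, hyF ia⟩
    rw [← hya]
    exact h1.symm
  have hεc : ∀ z, gz (h ic) z = ε z c := by
    intro z
    have h1 := hε z ⟨y' ic, hyF ic⟩
    rw [← hyc]
    exact h1.symm
  have hgood : ∀ z, z ∉ Zb → ∀ b : L, b ∈ Y' → b ∈ F → Hol (ε z b) := by
    intro z hz b hb hbF
    have h1 := hε z ⟨b, hbF⟩
    change ε z b = _ at h1
    rw [h1]
    by_contra hcon
    exact hz ⟨⟨b, hbF⟩, hb, hcon⟩
  have hma : ∀ z, z ∉ Zb → mo (gz (h ia) z) = 0 := by
    intro z hz
    rw [hεa]
    refine mo_zero_of_hol ((map_ne_zero (ε z)).2 ha0) (hgood z hz a (by simp [hY']) ha) ?_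
    rw [← map_inv₀]
    exact hgood z hz a⁻¹ (by simp [hY']) (F.inv_mem ha)
  have hmc : ∀ z, z ∉ Zb → mo (gz (h ic) z) = 0 := by
    intro z hz
    rw [hεc]
    refine mo_zero_of_hol ((map_ne_zero (ε z)).2 hc0) (hgood z hz c (by simp [hY']) hc) ?_
    rw [← map_inv₀]
    exact hgood z hz c⁻¹ (by simp [hY']) (F.inv_mem hc)
  choose Λ hΛ using fun z => ext_near hfg (Fin.append y' ![y, x]) (ε z)
  obtain ⟨X, Yc, hXm, hYm, hhol, hrel, hclose, hind⟩ := conic_curve h (fun i z => hHm _ z) ia ic Zb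
    (bad_disc H hHm Y') (fun z => by rw [hεa]; exact (map_ne_zero (ε z)).2 ha0)
    (fun z => by rw [hεc]; exact (map_ne_zero (ε z)).2 hc0) hma hmc (fun z => ε z x)
    (fun z => ε z y) (fun z => by rw [hεa, hεc, ← map_pow, ← map_pow, ← map_mul, ← map_sub, hxy]) Λ
  have key : ∀ z, ∃ ψ : L →ₐ[ℂ] Tw.Mer, (∀ i, ψ (y' i) = gz (h i) z) ∧ ψ y = gz Yc z ∧
      ψ x = gz X z := by
    intro z
    have hφ₀ : ∀ b : F, ((ε z).comp F.val) b = gz (H b) z := fun b => hε z b
    have e1 : (fun i => ((ε z).comp F.val) ⟨y' i, hyF i⟩) = fun i => gz (h i) z := by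
      funext i
      exact hφ₀ _
    obtain ⟨φ, hφF, hφy, hφx⟩ := conic_hom a c x y ha hc ha0 hc0 hxy hy hF' ((ε z).comp F.val)
      (gz X z) (gz Yc z) (by
        have h1 : ((ε z).comp F.val) ⟨a, ha⟩ = gz (h ia) z := (hεa z).symm
        have h2 : ((ε z).comp F.val) ⟨c, hc⟩ = gz (h ic) z := (hεc z).symm
        rw [h1, h2]
        exact hrel z)
      (trans_of_indep y' hFy hyF ((ε z).comp F.val) (gz Yc z) (by
        rw [e1]
        exact hind z))
    have hφF' : ∀ b : F', ∀ hb : (b : L) ∈ F, φ b = gz (H ⟨b, hb⟩) z := by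
      intro b hb
      rw [hφF b hb]
      exact hφ₀ ⟨b, hb⟩
    have hφy' : φ ⟨y, hyF'⟩ = gz Yc z := hφy _ rfl
    have hφx' : φ ⟨x, hxF'⟩ = gz X z := hφx _ rfl
    by_cases hz : z ∈ Zb
    · have hs : SameRel (Sum.elim y' ![y, x])
          (Sum.elim (fun i => gz (h i) z) ![gz Yc z, gz X z]) := by
        let τ : Fin n ⊕ Fin 2 → F' := Sum.elim (fun i => ⟨y' i, hFF' (hyF i)⟩)
          ![⟨y, hyF'⟩, ⟨x, hxF'⟩]
        have h1 : SameRel τ fun i => (τ i : L) := same_of_hom F'.val τ
        have h2 : SameRel τ fun i => φ (τ i) := same_of_hom φ τ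
        have e3 : (fun i => (τ i : L)) = Sum.elim y' ![y, x] := by
          funext i
          rcases i with i | i
          · rfl
          · fin_cases i <;> rfl
        have e4 : (fun i => φ (τ i)) = Sum.elim (fun i => gz (h i) z) ![gz Yc z, gz X z] := by
          funext i
          rcases i with i | i
          · exact hφF' ⟨y' i, hFF' (hyF i)⟩ (hyF i)
          · fin_cases i
            · exact hφy'
            · exact hφx'
        rw [e3] at h1
        rw [e4] at h2
        exact fun p => (h1 p).symm.trans (h2 p)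
      obtain ⟨ψ, hψ⟩ := hΛ z (Fin.append (fun i => gz (h i) z) ![gz Yc z, gz X z])
        (same_append hs) (by
          intro i
          refine Fin.addCases (fun i => ?_) (fun i => ?_) i
          · rw [Fin.append_left, Fin.append_left]
            have h1 : gz (h i) z = ε z (y' i) := (hε z ⟨y' i, hyF i⟩).symm
            rw [h1, sub_self, mo_eq_top.2 rfl]
            exact le_top
          · rw [Fin.append_right, Fin.append_right]
            fin_cases i
            · exact (hclose z hz).2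
            · exact (hclose z hz).1)
      refine ⟨ψ, fun i => ?_, ?_, ?_⟩
      · have := hψ (Fin.castAdd 2 i)
        rwa [Fin.append_left, Fin.append_left] at this
      · have := hψ (Fin.natAdd n 0)
        rwa [Fin.append_right, Fin.append_right] at this
      · have := hψ (Fin.natAdd n 1)
        rwa [Fin.append_right, Fin.append_right] at this
    · obtain ⟨ψ, hψ⟩ := hlift φ (by
        intro b hb
        have hbF : (b : L) ∈ F := hYF _ hb
        rw [hφF' b hbF]
        by_contra hcon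
        exact hz ⟨⟨b, hbF⟩, by simp only [hY', Finset.mem_insert]; tauto, hcon⟩) (by
        intro b hb
        rcases hb with hb | hb
        · rw [hφx b hb]
          exact (hhol z hz).1
        · rw [hφy b hb]
          exact (hhol z hz).2)
      refine ⟨ψ, fun i => ?_, ?_, ?_⟩
      · have h6 := hψ ⟨y' i, hFF' (hyF i)⟩
        rw [hφF' _ (hyF i)] at h6
        exact h6
      · have h6 := hψ ⟨y, hyF'⟩
        rw [hφy'] at h6
        exact h6
      · have h6 := hψ ⟨x, hxF'⟩
        rw [hφx'] at h6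
        exact h6
  refine real_of_tuple (Sum.elim y' ![y, x]) (Sum.elim h ![Yc, X]) ?_ F' hF'2
    ⟨_, _, hF'3⟩ fun z => ?_
  · rintro (i | i) z
    · exact hHm _ z
    · fin_cases i
      · exact hYm z
      · exact hXm z
  · obtain ⟨ψ, h1, h2, h3⟩ := key z
    refine ⟨ψ, ?_⟩
    rintro (i | i)
    · exact h1 i
    · fin_cases i
      · exact h2
      · exact h3

end Pool.Agent.AbPencil
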