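import Pool.Agent.Lib_MP_1209e6_tv.Main
import Pool.Agent.Lib_MP_1209e6_mh.Pull

/-! Germs of entire curves, extension of germs to `X × ℙ^r` (assembly). -/

set_option autoImplicit false

open Filter Topology

namespace Pool.Agent.AbPencil

open Tw Pool.Agent.Campana Pool.Agent.CampanaFlow Pool.Agent.AbFib

/-- the germ at `z` of a quotient of entire functions -/
theorem exists_germ_hom (z : ℂ) : ∃ g : Pool.Agent.Campana.Mer →ₐ[ℂ] Tw.Mer,
    ∀ a b : Pool.Agent.SQ.Ent, g (algebraMap _ _ a / algebraMap _ _ b) = gz (fun w => a.1 w / b.1 w) z := by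
  have hm : ∀ a : Pool.Agent.SQ.Ent, MeromorphicAt a.1 z := fun a =>
    (ent_analyticAt a z).meromorphicAt
  have hadd : ∀ {f g : ℂ → ℂ}, MeromorphicAt f z → MeromorphicAt g z →
      gz (fun w => f w + g w) z = gz f z + gz g z := by
    intro f g hf hg
    have h1 := aeval_gz (ι := Fin 2) ![f, g] z (by
      intro i
      fin_cases i
      · exact hf
      · exact hg) (MvPolynomial.X 0 + MvPolynomial.X 1)
    simpa using h1.symm
  have hc : ∀ c : ℂ, gz (fun _ => c) z = algebraMap ℂ Tw.Mer c := by
    intro c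
    have h1 := aeval_gz (ι := Fin 0) (fun i => i.elim0) z (fun i => i.elim0) (MvPolynomial.C c)
    simpa using h1.symm
  let g₀ : Pool.Agent.SQ.Ent →ₐ[ℂ] Tw.Mer :=
    { toFun := fun a => gz a.1 z
      map_one' := by
        have := hc 1
        rw [map_one] at this
        exact this
      map_mul' := fun a b => gz_mul (hm a) (hm b)
      map_zero' := by
        have := hc 0
        rw [map_zero] at this
        exact this
      map_add' := fun a b => hadd (hm a) (hm b)
      commutes' := fun c => hc c }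
  have hinj : Function.Injective g₀ := by
    rw [injective_iff_map_eq_zero]
    intro a ha
    by_contra hne
    have h1 : ∀ᶠ w in 𝓝[≠] z, a.1 w = 0 := (gz_eq_zero (hm a)).1 ha
    have h2 := ent_order_ne_top a hne z
    apply h2
    rw [analyticOrderAt_eq_top]
    exact (AnalyticAt.frequently_zero_iff_eventually_zero (ent_analyticAt a z)).1 h1.frequently
  refine ⟨IsFractionRing.liftAlgHom hinj, fun a b => ?_⟩
  have h1 : ∀ a : Pool.Agent.SQ.Ent, (IsFractionRing.liftAlgHom hinj :
      Pool.Agent.Campana.Mer →ₐ[ℂ] Tw.Mer) (algebraMap Pool.Agent.SQ.Ent Pool.Agent.Campana.Mer a) =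
        gz a.1 z := fun a => IsFractionRing.lift_algebraMap hinj a
  rw [map_div₀, h1, h1]
  exact (gz_div (hm a) (hm b)).symm

/-- the germs of a Zariski dense entire curve -/
theorem curve_of_brody {m : ℕ} (P : Ideal (MvPolynomial (Fin (m + 1)) ℂ)) [P.IsPrime]
    (hP : IsVariety P) (hB : BrodySpecial P) : ∃ H : FunField P → ℂ → ℂ,
      (∀ a z, MeromorphicAt (H a) z) ∧ ∀ z, ∃ ε : FunField P →ₐ[ℂ] Tw.Mer, ∀ a, ε a = gz (H a) z := by
  obtain ⟨f, hf, -, hfP, hdense⟩ := hB
  obtain ⟨j₀, hj₀⟩ := hP.2.2
  obtain ⟨ψ, -⟩ := exists_pullback P j₀ hj₀ f hf hfP hdense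
  choose num den hden hnd using fun a : FunField P =>
    IsFractionRing.div_surjective (A := Pool.Agent.SQ.Ent) (ψ a)
  refine ⟨fun a w => (num a).1 w / (den a).1 w, fun a z => ?_, fun z => ?_⟩
  · exact (ent_analyticAt (num a) z).meromorphicAt.div (ent_analyticAt (den a) z).meromorphicAt
  · obtain ⟨g, hg⟩ := exists_germ_hom z
    refine ⟨g.comp ψ, fun a => ?_⟩
    change g (ψ a) = _
    rw [← hnd a, hg]

theorem kw_top {K : Type} [Field K] [Algebra ℂ K] {n r : ℕ} (y : Fin n → K)
    (hy : IntermediateField.adjoin ℂ (Set.range y) = ⊤) :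
    IntermediateField.adjoin ℂ (Set.range (Sum.elim (fun i => algebraMap K (KW K r) (y i))
      (wv : Fin r → KW K r))) = ⊤ := by
  set F := IntermediateField.adjoin ℂ (Set.range (Sum.elim (fun i => algebraMap K (KW K r) (y i))
      (wv : Fin r → KW K r))) with hF
  have hK : ∀ k : K, algebraMap K (KW K r) k ∈ F := by
    intro k
    have h1 : IntermediateField.adjoin ℂ (Set.range y) ≤
        F.comap (IsScalarTower.toAlgHom ℂ K (KW K r)) := by
      rw [IntermediateField.adjoin_le_iff]
      rintro _ ⟨i, rfl⟩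
      exact IntermediateField.subset_adjoin ℂ _ ⟨Sum.inl i, rfl⟩
    rw [hy] at h1
    exact h1 (IntermediateField.mem_top (x := k))
  have hP : ∀ p : MvPolynomial (Fin r) K, algebraMap (MvPolynomial (Fin r) K) (KW K r) p ∈ F := by
    intro p
    induction p using MvPolynomial.induction_on with
    | C a => exact hK a
    | add p q hp hq =>
      rw [map_add]
      exact add_mem hp hq
    | mul_X p i hp =>
      rw [map_mul]
      exact mul_mem hp (IntermediateField.subset_adjoin ℂ _ ⟨Sum.inr i, rfl⟩)
  rw [eq_top_iff]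
  intro y _
  obtain ⟨a, b, _, rfl⟩ := IsFractionRing.div_surjective (A := MvPolynomial (Fin r) K) y
  exact div_mem (hP a) (hP b)

/-- extension of germs to `X × ℙ^r` -/
theorem ext_kw {K : Type} [Field K] [Algebra ℂ K] {n : ℕ} (y : Fin n → K)
    (hy : IntermediateField.adjoin ℂ (Set.range y) = ⊤) (r : ℕ) (ε : K →ₐ[ℂ] Tw.Mer) :
    ∃ ψ : KW K r →ₐ[ℂ] Tw.Mer, ∀ a : K, ψ (algebraMap K (KW K r) a) = ε a := by
  obtain ⟨S, -, hS⟩ := mer_indep (g := r) (fun i => ε (y i)) (fun _ => 0) 0
  let J : K →ₐ[ℂ] KW K r := IsScalarTower.toAlgHom ℂ K (KW K r)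
  have hJ : Function.Injective J := J.injective
  have hind : AlgebraicIndependent (Algebra.adjoin ℂ (Set.range fun i => J (y i)))
      (wv : Fin r → KW K r) := by
    have h0 : AlgebraicIndependent K (wv : Fin r → KW K r) := by
      have hw : ∀ p : MvPolynomial (Fin r) K, MvPolynomial.aeval (wv : Fin r → KW K r) p =
          algebraMap (MvPolynomial (Fin r) K) (KW K r) p := by
        intro p
        have h1 : (MvPolynomial.aeval (wv : Fin r → KW K r) : MvPolynomial (Fin r) K →ₐ[K] KW K r) =
            IsScalarTower.toAlgHom K (MvPolynomial (Fin r) K) (KW K r) := by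
          apply MvPolynomial.algHom_ext
          intro i
          rw [MvPolynomial.aeval_X]
          rfl
        rw [h1]
        rfl
      intro a b hab
      rw [hw, hw] at hab
      exact IsFractionRing.injective (MvPolynomial (Fin r) K) (KW K r) hab
    have hle : Algebra.adjoin ℂ (Set.range fun i => J (y i)) ≤ J.range := by
      rw [Algebra.adjoin_le_iff]
      rintro _ ⟨i, rfl⟩
      exact ⟨y i, rfl⟩
    let f : Algebra.adjoin ℂ (Set.range fun i => J (y i)) →+* K :=
      ((AlgEquiv.ofInjective J hJ).symm.toAlgHom.comp (Subalgebra.inclusion hle)).toRingHom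
    have hfJ : ∀ b, J (f b) = (b : KW K r) := by
      intro b
      have h1 := (AlgEquiv.ofInjective J hJ).apply_symm_apply (Subalgebra.inclusion hle b)
      exact congrArg Subtype.val h1
    have hf : Function.Injective f := by
      intro b c hbc
      apply Subtype.ext
      rw [← hfJ b, ← hfJ c, hbc]
    refine AlgebraicIndependent.of_ringHom_of_comp_eq f (RingHom.id (KW K r)) (x := wv) ?_ hf ?_
    · exact h0
    · ext b
      exact hfJ b
  have hsame : SameRel (fun i => J (y i)) fun i => ε (y i) := fun p =>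
    (same_of_hom J y p).symm.trans (same_of_hom ε y p)
  have hsame2 := same_indep (fun i => J (y i)) wv hind (fun i => ε (y i)) S hS hsame
  obtain ⟨φ, hφ⟩ := hom_of_rel _ _ hsame2
  have htop := kw_top (r := r) y hy
  let ψ : KW K r →ₐ[ℂ] Tw.Mer := φ.comp ((IntermediateField.equivOfEq htop).symm.toAlgHom.comp
    IntermediateField.topEquiv.symm.toAlgHom)
  have hψ : ∀ i, ψ (J (y i)) = ε (y i) := fun i => hφ (Sum.inl i) _
  refine ⟨ψ, fun a => ?_⟩
  have h1 : (ψ.comp J) = ε := by
    have h2 : ∀ b ∈ IntermediateField.adjoin ℂ (Set.range y), (ψ.comp J) b = ε b := by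
      intro b hb
      have h3 := hom_ext_adjoin y ((ψ.comp J).comp (IntermediateField.adjoin ℂ (Set.range y)).val)
        (ε.comp (IntermediateField.adjoin ℂ (Set.range y)).val) (fun i hi => hψ i)
      exact DFunLike.congr_fun h3 ⟨b, hb⟩
    ext b
    exact h2 b (by rw [hy]; trivial)
  exact DFunLike.congr_fun h1 a

end Pool.Agent.AbPencil
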