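import Pool.Agent.Lib_MP_1209e6_tv.Stmt

/-!
# Towers of conics and abelian torsors over a pencil: definitions for the statement

`MP_1209e6_ag`. `L` is a field over `ℂ`, and `F ≤ F'` are intermediate fields: function fields of varieties with
dominant rational maps from the variety with function field `L`.
-/

set_option autoImplicit false

namespace Pool.Agent.AbPencil

open Pool.Agent.Campana Pool.Agent.AbFib

variable {L : Type} [Field L] [Algebra ℂ L]

/-- `F'` is the function field of a conic `x² - a y² = c` over `F`, and `L` has no multiple fibres over its closed points,
except over the points at infinity, the poles of `x` and `y` (for `a = c = 1` these are the points `0` and `∞` of the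
line with coordinate `x + y`). -/
def ConicStep (F F' : IntermediateField ℂ L) : Prop :=
  ∃ a c x y : L, a ∈ F ∧ c ∈ F ∧ a ≠ 0 ∧ c ≠ 0 ∧ x ^ 2 - a * y ^ 2 = c ∧ Transcendental F y ∧
    F' = IntermediateField.adjoin ℂ (insert x (insert y (F : Set L))) ∧ NoMultiple F F' {x, y}

/-- the field generated over `F` by the functions `x_l / x_j` with `l ∈ W` -/
noncomputable def coordField (F F' : IntermediateField ℂ L) {N : ℕ} (x : Fin (N + 1) → F') (j : Fin (N + 1))
    (W : Set (Fin (N + 1))) : IntermediateField ℂ L :=
  IntermediateField.adjoin ℂ ((F : Set L) ∪ (fun l => ((x l / x j : F') : L)) '' W)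

/-- `F'` is the function field of a torsor `V` under an abelian variety over `F`, a projective variety with coordinates
`x` (`IsAbelianFibration`), and `L` has no multiple fibres over the prime divisors of `V`: these are the places of `F'`
which contain the `x_l / x_j` for some `j` and the field generated over `F` by some of them, over which `F'` has
transcendence degree at most one. -/
def AbelianStep (F F' : IntermediateField ℂ L) : Prop :=
  ∃ (n N : ℕ) (t : Fin n → F') (x : Fin (N + 1) → F'), IsAbelianFibration t x ∧
    F = IntermediateField.adjoin ℂ (Set.range fun i => (t i : L)) ∧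
    ∀ (j : Fin (N + 1)) (W : Set (Fin (N + 1))),
      (∀ a ∈ F', ∀ b ∈ F', ¬ AlgebraicIndependent (coordField F F' x j W) ![a, b]) →
      NoMultiple (coordField F F' x j W) F' (Set.range fun l => ((x l / x j : F') : L))

/-- The variety with function field `L` is a tower over the variety with coordinates `t`: there are intermediate fields
`ℂ(t) = F 0 ≤ F 1 ≤ … ≤ F s = L` such that each `F (i + 1)` is the function field of a conic or of a torsor under an abelian
variety over `F i`, without multiple fibres of the variety with function field `L` over its prime divisors (except at
infinity in the first case). -/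
def TorsorTower {n : ℕ} (t : Fin n → L) : Prop :=
  ∃ (s : ℕ) (F : ℕ → IntermediateField ℂ L), F 0 = IntermediateField.adjoin ℂ (Set.range t) ∧ F s = ⊤ ∧
    ∀ i < s, ConicStep (F i) (F (i + 1)) ∨ AbelianStep (F i) (F (i + 1))

end Pool.Agent.AbPencil
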