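import Pool.Agent.Lib_MP_1209e6_tv.Main
import Pool.Agent.Lib_MP_1209e6_tu.Stmt

/-! Places over places, base curves over `L` (assembly). -/

set_option autoImplicit false

open Filter Topology

namespace Pool.Agent.AbPencil

open Tw Pool.Agent.Campana Pool.Agent.CampanaFlow Pool.Agent.AbFib

variable {K L : Type} [Field K] [Algebra ℂ K] [Field L] [Algebra ℂ L]

/-- A place of `K` extends to a place of `L` with the same orders. -/
theorem place_extend (J : K →ₐ[ℂ] L) (hno : NoMultiple ⊥ J.fieldRange ∅) (O : ValuationSubring K)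
    (v : K → ℤ) (hO : IsPlace O) (hv : IsOrd O v) :
    ∃ (O' : ValuationSubring L) (v' : L → ℤ), IsPlace O' ∧ IsOrd O' v' ∧
      (∀ a : K, J a ∈ O' ↔ a ∈ O) ∧ ∀ a : K, a ≠ 0 → v' (J a) = v a := by
  let e : K ≃ₐ[ℂ] J.fieldRange := AlgEquiv.ofInjectiveField J
  have he : ∀ a : K, ((e a : J.fieldRange) : L) = J a := fun a => rfl
  have hes : ∀ b : J.fieldRange, J (e.symm b) = (b : L) := by
    intro b
    rw [← he, AlgEquiv.apply_symm_apply]
  let O₁ : ValuationSubring J.fieldRange := O.comap (e.symm : J.fieldRange ≃ₐ[ℂ] K).toAlgHom.toRingHom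
  have hO₁ : ∀ b : J.fieldRange, b ∈ O₁ ↔ e.symm b ∈ O := fun b => Iff.rfl
  have hpl : IsPlace O₁ := by
    refine ⟨fun c => ?_, ?_⟩
    · rw [hO₁, AlgEquiv.commutes]
      exact hO.1 c
    · have := hO.2
      let ρ : O ≃+* O₁ :=
        { toFun := fun a => ⟨e a, by rw [hO₁, AlgEquiv.symm_apply_apply]; exact a.2⟩
          invFun := fun b => ⟨e.symm b, b.2⟩
          left_inv := fun a => Subtype.ext (e.symm_apply_apply (a : K))
          right_inv := fun b => Subtype.ext (e.apply_symm_apply (b : J.fieldRange))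
          map_mul' := fun a b => Subtype.ext (map_mul e (a : K) (b : K))
          map_add' := fun a b => Subtype.ext (map_add e (a : K) (b : K)) }
      exact IsDiscreteValuationRing.RingEquivClass.isDiscreteValuationRing ρ
  obtain ⟨O', hO', hres, π, hπ, hmin⟩ := hno O₁ hpl (by
    intro a ha
    obtain ⟨c, hc⟩ := IntermediateField.mem_bot.1 ha
    have h1 : a = algebraMap ℂ J.fieldRange c := Subtype.ext hc.symm
    rw [h1]
    exact hpl.1 c) (fun a ha => absurd ha (Set.notMem_empty _))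
  obtain ⟨v', hv'⟩ := place_order O' hO'
  have hmem : ∀ a : K, J a ∈ O' ↔ a ∈ O := by
    intro a
    have h1 := hres (e a)
    rw [he, hO₁, AlgEquiv.symm_apply_apply] at h1
    exact h1
  have hπ0 : (π : L) ≠ 0 := by
    intro h
    rw [h, inv_zero] at hπ
    exact hπ O'.zero_mem
  set p : K := e.symm π with hp
  have hJp : J p = (π : L) := hes π
  have hp0 : p ≠ 0 := by
    intro h
    rw [h, map_zero] at hJp
    exact hπ0 hJp.symm
  -- `v' π = 1`
  have hpos : ∀ b : L, b ≠ 0 → (b⁻¹ ∉ O' ↔ 1 ≤ v' b) := by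
    intro b hb
    rw [hv'.mem_iff (inv_ne_zero hb), hv'.map_inv hb]
    omega
  have hπ1 : v' (π : L) = 1 := by
    obtain ⟨τ, hτ0, hτ⟩ := hv'.2.2
    have h1 := hmin τ ((hpos τ hτ0).2 (by omega))
    rw [hv'.mem_iff (div_ne_zero hτ0 hπ0), hv'.map_div hτ0 hπ0] at h1
    have h2 := (hpos _ hπ0).1 hπ
    omega
  have hposK : ∀ a : K, a ≠ 0 → (a⁻¹ ∉ O ↔ 1 ≤ v a) := by
    intro b hb
    rw [hv.mem_iff (inv_ne_zero hb), hv.map_inv hb]
    omega
  have hvp : v p = 1 := by
    obtain ⟨q, hq0, hq⟩ := hv.2.2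
    have hJq0 : J q ≠ 0 := (map_ne_zero J).2 hq0
    have h1 : (J q)⁻¹ ∉ O' := by
      rw [← map_inv₀, hmem, hposK q hq0]
      omega
    have h2 := hmin (J q) h1
    rw [← hJp, ← map_div₀, hmem, hv.mem_iff (div_ne_zero hq0 hp0), hv.map_div hq0 hp0] at h2
    have h3 : 1 ≤ v p := by
      rw [← hposK p hp0, ← hmem, map_inv₀, hJp]
      exact hπ
    omega
  refine ⟨O', v', hO', hv', hmem, fun a ha => ?_⟩
  have hJa0 : J a ≠ 0 := (map_ne_zero J).2 ha
  have h1 : v (a / p ^ (v a)) = 0 := by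
    rw [hv.map_div ha (zpow_ne_zero _ hp0), hv.map_zpow hp0, hvp]
    omega
  have hq0 : a / p ^ (v a) ≠ 0 := div_ne_zero ha (zpow_ne_zero _ hp0)
  have h2 : v' (J (a / p ^ (v a))) = 0 := by
    have h3 : J (a / p ^ (v a)) ∈ O' := (hmem _).2 ((hv.mem_iff hq0).2 (by omega))
    have h4 : (J (a / p ^ (v a)))⁻¹ ∈ O' := by
      rw [← map_inv₀]
      exact (hmem _).2 ((hv.mem_iff (inv_ne_zero hq0)).2 (by rw [hv.map_inv hq0]; omega))
    have hJq0 : J (a / p ^ (v a)) ≠ 0 := (map_ne_zero J).2 hq0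
    rw [hv'.mem_iff hJq0] at h3
    rw [hv'.mem_iff (inv_ne_zero hJq0), hv'.map_inv hJq0] at h4
    omega
  rw [map_div₀, map_zpow₀, hJp, hv'.map_div hJa0 (zpow_ne_zero _ hπ0), hv'.map_zpow hπ0, hπ1] at h2
  omega

/-- The bound for the pencils on the variety with function field `K` gives the bound for the variety with function
field `L`. -/
theorem bound_of_pencil (J : K →ₐ[ℂ] L) (hno : NoMultiple ⊥ J.fieldRange ∅) {n : ℕ} (t : Fin n → L)
    (ht : ∀ a, t a ∈ J.fieldRange) (hb : PencilBound K) : BoundOn (Set.range t) := by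
  intro T hT hTt μ h1 h2 S
  have hTJ : T ∈ J.fieldRange := (IntermediateField.adjoin_le_iff.2 (by
    rintro _ ⟨a, rfl⟩
    exact ht a) : IntermediateField.adjoin ℂ (Set.range t) ≤ J.fieldRange) hT
  obtain ⟨T', rfl⟩ := hTJ
  have hT' : Transcendental ℂ T' := fun h => hTt (IsAlgebraic.algHom J h)
  refine hb T' hT' μ h1 (fun b O v hO hv hvb => ?_) S
  obtain ⟨O', v', hO', hv', -, hval⟩ := place_extend J hno O v hO hv
  have hpar : par (J T') b = J (par T' b) := by
    cases b with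
    | none => exact (map_inv₀ J T').symm
    | some c =>
      change J T' - algebraMap ℂ L c = J (T' - algebraMap ℂ K c)
      rw [map_sub, J.commutes]
  have hpar0 : par T' b ≠ 0 := fun h => par_trans T' hT' b (h ▸ isAlgebraic_zero)
  have h3 := h2 b O' v' hO' hv'
  rw [← hval _ hpar0, ← hpar]
  refine h3 ?_
  change 1 ≤ v' (par (J T') b)
  rw [hpar, hval _ hpar0]
  exact hvb

/-- base curve and local data for `IsBase` -/
theorem base_on (T₀ : Finset L) (hT₀ : IntermediateField.adjoin ℂ (T₀ : Set L) = ⊤)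
    (t : Fin 2 → L) (ht : IsBase t) (hb : BoundOn (Set.range t)) (r : ℕ) :
    ∃ (U : ℂ → Fin 2 → ℂ) (ν : ℂ → Fin r → ℤ), IsDenseCurve t U ∧
      ∀ z, LocalPlace t U (fun _ : Fin r => (1 : L)) z (ν z) := by
  have ht2 : t = ![t 0, t 1] := by
    funext i
    fin_cases i <;> rfl
  obtain ⟨h0, h1 | ⟨a, b, c, hd, hc⟩⟩ := ht
  · obtain ⟨u, ν, hu, -, hloc⟩ := local_line_on T₀ hT₀ (t 0) h0 (hb.mono (by
      rintro _ rfl
      exact IntermediateField.subset_adjoin _ _ ⟨0, rfl⟩)) (fun _ : Fin r => (1 : L))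
      fun _ => one_ne_zero
    rw [← h1, ← ht2] at hu hloc
    exact ⟨_, ν, hu, hloc⟩
  · obtain ⟨U, ν, hu, -, hloc⟩ := local_cubic_on T₀ hT₀ a b c hd (t 0) (t 1) (hb.mono (by
      rintro _ (rfl | rfl)
      · exact IntermediateField.subset_adjoin _ _ ⟨0, rfl⟩
      · exact IntermediateField.subset_adjoin _ _ ⟨1, rfl⟩)) h0 hc
      (fun _ : Fin r => (1 : L)) fun _ => one_ne_zero
    rw [← ht2] at hu hloc
    exact ⟨U, ν, hu, hloc⟩

/-- the curve `W_0` -/
theorem real_base_on (hfg : ∃ T : Finset L, IntermediateField.adjoin ℂ (T : Set L) = ⊤)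
    (t : Fin 2 → L) (ht : IsBase t) (hb : BoundOn (Set.range t)) :
    Realized (IntermediateField.adjoin ℂ (Set.range t)) := by
  obtain ⟨T₁, hT₁⟩ := hfg
  obtain ⟨U, ν, hU, hloc⟩ := base_on T₁ hT₁ t ht hb 0
  obtain ⟨T₂, hT₂⟩ := tw_fg T₁ hT₁ 0
  set tL : Fin 2 → KW L 0 := fun a => algebraMap L (KW L 0) (t a) with htL
  have hUL : IsDenseCurve tL U := tw_dense_ext hU
  have hUm : ∀ a z, MeromorphicAt (fun w => U w a) z := fun a z => by
    obtain ⟨k, hk⟩ := hU.1 z
    exact ⟨k, analyticAt_pi_iff.1 hk a⟩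
  refine real_of_tuple t (fun a w => U w a) hUm _ rfl ⟨2, _, rfl⟩ fun z => ?_
  have key : ∃ ψ : KW L 0 →ₐ[ℂ] Tw.Mer, ∀ a, ψ (tL a) = gz (fun w => U w a) z := by
    refine ext_arc ⟨T₂, hT₂⟩ tL (fun a => gz (fun w => U w a) z) (same_of_dense hUL hUm z) ?_
    intro N q
    obtain ⟨Q, hQ, hR⟩ := tw_germs T₁ hT₁ t U hU z (ν z) (hloc z) q
    refine ⟨fun l => gz (fun w => Q w l) z, fun p hp => ?_⟩
    have h1 := hR p hp
    have h2 := (aeval_gz_zero (fun w => Sum.elim (U w) (Q w)) z (by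
      rintro (i | i)
      · exact hUm i z
      · exact hQ i) p).2 h1
    have h3 : (fun i => gz (fun w => Sum.elim (U w) (Q w) i) z) =
        Sum.elim (fun a => gz (fun w => U w a) z) fun l => gz (fun w => Q w l) z := by
      funext i
      rcases i with i | i <;> rfl
    rwa [h3] at h2
  obtain ⟨ψ, hψ⟩ := key
  exact ⟨ψ.comp (IsScalarTower.toAlgHom ℂ L (KW L 0)), fun a => hψ a⟩

end Pool.Agent.AbPencil
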