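import Pool.Agent.Lib_MP_1209e6_tu.S1

/-! The step for abelian torsors of any dimension (assembly, 2). -/

set_option autoImplicit false

open Filter Topology

namespace Pool.Agent.AbPencil

open Tw Pool.Agent.Campana Pool.Agent.CampanaFlow Pool.Agent.AbFib

variable {L : Type} [Field L] [Algebra ℂ L]

theorem tu_eval₂ {n e : ℕ}
    (Q : MvPolynomial (Fin e) (MvPolynomial (Fin n) ℂ)) :
    ∃ Q' : MvPolynomial (Fin n ⊕ Fin e) ℂ, ∀ {A : Type} [CommRing A] [Algebra ℂ A] (t : Fin n → A)
      (w : Fin e → A), Q.eval₂ (MvPolynomial.aeval t : MvPolynomial (Fin n) ℂ →ₐ[ℂ] A).toRingHom w =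
        MvPolynomial.aeval (Sum.elim t w) Q' := by
  induction Q using MvPolynomial.induction_on with
  | C p =>
    refine ⟨MvPolynomial.rename Sum.inl p, fun {A} _ _ t w => ?_⟩
    rw [MvPolynomial.eval₂_C, MvPolynomial.aeval_rename]
    rfl
  | add p q hp hq =>
    obtain ⟨p', hp'⟩ := hp
    obtain ⟨q', hq'⟩ := hq
    refine ⟨p' + q', fun {A} _ _ t w => ?_⟩
    rw [MvPolynomial.eval₂_add, hp', hq', map_add]
  | mul_X p m hp =>
    obtain ⟨p', hp'⟩ := hp
    refine ⟨p' * MvPolynomial.X (Sum.inr m), fun {A} _ _ t w => ?_⟩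
    rw [MvPolynomial.eval₂_mul, MvPolynomial.eval₂_X, hp', map_mul, MvPolynomial.aeval_X]
    rfl

theorem ab_step_avoid (hfg : ∃ T : Finset L, IntermediateField.adjoin ℂ (T : Set L) = ⊤)
    {F F' : IntermediateField ℂ L} (hF : Realized F) (h : AbelianStep F F') : Realized F' := by
  classical
  have hFc := hF
  obtain ⟨n, N, t, x, hab, hFt, hNM⟩ := h
  obtain ⟨⟨n', y', hy'⟩, H, hHm, hH⟩ := hF
  choose ε hε using hH
  have htF : ∀ i, (t i : L) ∈ F := fun i => by
    rw [hFt]
    exact IntermediateField.subset_adjoin _ _ ⟨i, rfl⟩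
  have hFF' : F ≤ F' := by
    rw [hFt, IntermediateField.adjoin_le_iff]
    rintro _ ⟨i, rfl⟩
    exact (t i).2
  set u : ℂ → Fin n → ℂ := fun w i => H ⟨t i, htF i⟩ w with hu
  have hum : ∀ i z, MeromorphicAt (fun w => u w i) z := fun i z => hHm _ z
  have hut : ∀ z, ∀ i, (ε z) (t i : L) = gz (fun w => u w i) z := fun z i => hε z ⟨t i, htF i⟩
  have hdense : IsDenseCurve t u := by
    refine dense_of_eps t u hum fun z => ⟨(ε z).comp F'.val, fun i => hut z i⟩
  choose y₀ hy₀ hy₀' using fun (z : ℂ) (l : Fin (N + 1)) => gz_surj (ε z ((x l / x 0 : F') : L)) z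
  have hco : ∀ z, (fun i => ((ε z).comp F'.val) (co t x 0 i)) =
      fun i => gz (fun w => (Sum.elim (u w) (fun l => y₀ z l w) : _ → ℂ) i) z := by
    intro z
    funext i
    rcases i with i | l
    · exact hut z i
    · exact (hy₀' z l).symm
  have hrel : ∀ z, Rel z (co t x 0) fun w => Sum.elim (u w) (fun l => y₀ z l w) := by
    intro z p hp
    refine (aeval_gz_zero (fun w => Sum.elim (u w) (fun l => y₀ z l w)) z ?_ p).1 ?_
    · rintro (i | l)
      · exact hum i z
      · exact hy₀ z l
    · have h1 := (same_of_hom ((ε z).comp F'.val) (co t x 0) p).1 hp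
      rwa [hco z] at h1
  choose Λ hΛ using fun z => ext_near hfg
    (Fin.append (fun i => (t i : L)) fun l => ((x l / x 0 : F') : L)) (ε z)
  have hF' := adjoin_coe (co t x 0) hab.gen
  have hF'fg : ∃ (n : ℕ) (y : Fin n → L), F' = IntermediateField.adjoin ℂ (Set.range y) :=
    (fg_abelian ⟨n, N, t, x, hab, hFt⟩).2
  obtain ⟨g, hg, hcurve⟩ := ab_curve_avoid t x hab u hdense ∅ (fun z => by simp)
    (fun z w l => y₀ z l w) (fun z l => hy₀ z l) hrel Λ
  have hgL : ∀ s : Fin (g + 1) → L, (∀ i, s i ∈ F') → ¬ AlgebraicIndependent F s := by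
    intro s hs h1
    apply hg fun i => (⟨s i, hs i⟩ : F')
    apply indep_transfer
    rw [← hFt]
    exact h1
  rcases g with _ | e
  · -- relative dimension zero
    have htr : ∀ a ∈ F', ∀ b ∈ F', ¬ AlgebraicIndependent F ![a, b] := by
      intro a ha b hb h1
      apply hgL (fun _ => a) fun _ => ha
      have h2 := h1.comp (fun _ : Fin 1 => (0 : Fin 2)) (fun i j _ => Subsingleton.elim i j)
      exact h2
    exact ab_step hfg hFc ⟨n, N, t, x, hab, hFt⟩
      (germs_lift hfg hFF' hF'fg htr ∅ (noMultiple_of_charts x hNM htr))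
  -- positive relative dimension
  choose Q hQ hQlift using germs_lift_cod hfg hFF' t x hFt hF'fg hNM hgL
  obtain ⟨Bb, y, -, hBd, hym, hyrel, hyc, hgood⟩ := hcurve e rfl Q hQ
  have hcm : ∀ (i : Fin n ⊕ Fin (N + 1)) z,
      MeromorphicAt (fun w => (Sum.elim (u w) (y w) : _ → ℂ) i) z := by
    rintro (i | l) z
    · exact hum i z
    · exact hym l z
  have hsame : ∀ z, SameRel (co t x 0) fun i => gz (fun w => (Sum.elim (u w) (y w) : _ → ℂ) i) z := by
    intro z p
    rw [hyrel p z, aeval_gz_zero (fun w => Sum.elim (u w) (y w)) z (fun i => hcm i z)]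
  have hsameL : ∀ z, SameRel (fun i => ((co t x 0 i : F') : L))
      fun i => gz (fun w => (Sum.elim (u w) (y w) : _ → ℂ) i) z := by
    intro z p
    rw [← hsame z p]
    exact (same_of_hom F'.val (co t x 0) p).symm
  have key : ∀ z, ∃ ψ : L →ₐ[ℂ] Tw.Mer, ∀ i, ψ ((co t x 0 i : F') : L) =
      gz (fun w => (Sum.elim (u w) (y w) : _ → ℂ) i) z := by
    intro z
    by_cases hz : z ∈ Bb
    · have e1 : (fun i => ((co t x 0 i : F') : L)) =
          Sum.elim (fun i => (t i : L)) fun l => ((x l / x 0 : F') : L) := by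
        funext i
        rcases i with i | i <;> rfl
      have e2 : (fun i => gz (fun w => (Sum.elim (u w) (y w) : _ → ℂ) i) z) =
          Sum.elim (fun i => gz (fun w => u w i) z) fun l => gz (fun w => y w l) z := by
        funext i
        rcases i with i | i <;> rfl
      have h1 := hsameL z
      rw [e1, e2] at h1
      obtain ⟨ψ, hψ⟩ := hΛ z _ (same_append h1) (by
        intro i
        refine Fin.addCases (fun i => ?_) (fun l => ?_) i
        · rw [Fin.append_left, Fin.append_left, hut z i, sub_self, mo_eq_top.2 rfl]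
          exact le_top
        · have h2 : MeromorphicAt (fun w => y w l - y₀ z l w) z := (hym l z).sub (hy₀ z l)
          rw [Fin.append_right, Fin.append_right, ← hy₀' z l,
            ← gz_sub (hym l z) (hy₀ z l), mo_gz h2]
          exact hyc z hz l)
      refine ⟨ψ, ?_⟩
      rintro (i | l)
      · have := hψ (Fin.castAdd (N + 1) i)
        rw [Fin.append_left, Fin.append_left] at this
        exact this
      · have := hψ (Fin.natAdd n l)
        rw [Fin.append_right, Fin.append_right] at this
        exact this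
    · obtain ⟨φ₀, hφ₀⟩ := hom_of_rel _ _ (hsameL z)
      let φ : F' →ₐ[ℂ] Tw.Mer := φ₀.comp (IntermediateField.inclusion hF'.le)
      have hφ : ∀ i, φ (co t x 0 i) = gz (fun w => (Sum.elim (u w) (y w) : _ → ℂ) i) z := by
        intro i
        exact hφ₀ i _
      have hφt : ∀ i, φ (t i) = gz (fun w => u w i) z := fun i => hφ (Sum.inl i)
      have hφx : ∀ l, φ (x l / x 0) = gz (fun w => y w l) z := fun l => hφ (Sum.inr l)
      have hφxx : ∀ j l, φ (x l / x j) = gz (fun w => y w l / y w j) z := by
        intro j l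
        have h1 : x l / x j = (x l / x 0) / (x j / x 0) := by
          rw [div_div_div_cancel_right₀ (hab.ne_zero 0)]
        rw [h1, map_div₀, hφx, hφx, gz_div (hym l z) (hym j z)]
      obtain ⟨hu0, j, κ, hj, hκ⟩ := hgood z hz
      obtain ⟨ψ, hψ⟩ := hQlift j κ φ (fun i => by
        rw [hφt]
        change 0 ≤ mo _
        rw [mo_gz (hum i z)]
        exact hu0 i) (fun l => by
        have hm0 : MeromorphicAt (fun w => y w l / y w j) z := (hym l z).div (hym j z)
        rw [hφxx]
        change 0 ≤ mo _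
        rw [mo_gz hm0]
        exact hj l) (by
        obtain ⟨Q', hQ'⟩ := tu_eval₂ (Q j κ)
        rw [hQ' t, MvPolynomial.comp_aeval_apply]
        have e3 : (fun i => φ ((Sum.elim t fun m => x (κ m) / x j : Fin n ⊕ Fin e → F') i)) =
            fun i => gz (fun w => (Sum.elim (u w) (fun m => y w (κ m) / y w j) :
              Fin n ⊕ Fin e → ℂ) i) z := by
          funext i
          rcases i with i | m
          · exact hφt i
          · exact hφxx j (κ m)
        have hm : ∀ (i : Fin n ⊕ Fin e), MeromorphicAt (fun w =>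
            (Sum.elim (u w) (fun m => y w (κ m) / y w j) : Fin n ⊕ Fin e → ℂ) i) z := by
          rintro (i | m)
          · exact hum i z
          · exact (hym _ z).div (hym _ z)
        have e4 : MvPolynomial.aeval (fun i => φ ((Sum.elim t fun m => x (κ m) / x j :
              Fin n ⊕ Fin e → F') i)) Q' =
            gz (fun w => MvPolynomial.aeval (Sum.elim (u w) fun m => y w (κ m) / y w j) Q') z := by
          rw [← aeval_gz (fun i w => (Sum.elim (u w) (fun m => y w (κ m) / y w j) :
              Fin n ⊕ Fin e → ℂ) i) z hm Q']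
          exact congrArg (fun f => MvPolynomial.aeval f Q') e3
        have hm2 : MeromorphicAt (fun w =>
            MvPolynomial.aeval (Sum.elim (u w) fun m => y w (κ m) / y w j) Q') z :=
          tw_mero Q' z (fun w => Sum.elim (u w) fun m => y w (κ m) / y w j) hm
        rw [e4, mo_gz hm2]
        have e5 : (fun w => MvPolynomial.aeval (Sum.elim (u w) fun m => y w (κ m) / y w j) Q') =
            fun w => (Q j κ).eval₂ (MvPolynomial.eval (u w)) fun m => y w (κ m) / y w j := by
          funext w
          rw [← hQ' (u w)]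
          rfl
        rw [e5]
        exact hκ)
      refine ⟨ψ, fun i => ?_⟩
      rw [hψ]
      exact hφ i
  refine real_of_tuple (fun i => ((co t x 0 i : F') : L))
    (fun i w => (Sum.elim (u w) (y w) : _ → ℂ) i) hcm F' hF'
    ⟨n + (N + 1), Fin.append (fun i => (t i : L)) fun l => ((x l / x 0 : F') : L), ?_⟩ key
  rw [range_append]
  have e1 : (fun i => ((co t x 0 i : F') : L)) =
      Sum.elim (fun i => (t i : L)) fun l => ((x l / x 0 : F') : L) := by
    funext i
    rcases i with i | i <;> rfl
  rw [← e1]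
  exact hF'

end Pool.Agent.AbPencil
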