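import Pool.Agent.Lib_MP_1209e6_tu.K7
import Pool.Agent.Lib_MP_1209e6_tu.S2
import Pool.Agent.Lib_MP_1209e6_tu.N1
import Pool.Agent.Lib_MP_1209e6_tu.N2

/-! Assembly: towers of conics and abelian torsors. -/

set_option autoImplicit false

open Filter Topology

namespace Pool.Agent.AbPencil

open Tw Pool.Agent.Campana Pool.Agent.CampanaFlow Pool.Agent.AbFib

variable {L : Type} [Field L] [Algebra ℂ L]

/-- a step -/
theorem real_step_tu (hfg : ∃ T : Finset L, IntermediateField.adjoin ℂ (T : Set L) = ⊤)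
    {F F' : IntermediateField ℂ L} (hF : Realized F) (h : ConicStep F F' ∨ AbelianStep F F') :
    Realized F' := by
  rcases h with h | h
  · exact conic_step hfg hF h
  · exact ab_step_avoid hfg hF h

theorem fg_step {F F' : IntermediateField ℂ L}
    (hF : ∃ (n : ℕ) (y : Fin n → L), F = IntermediateField.adjoin ℂ (Set.range y))
    (h : ConicStep F F' ∨ AbelianStep F F') :
    ∃ (n : ℕ) (y : Fin n → L), F' = IntermediateField.adjoin ℂ (Set.range y) := by
  rcases h with ⟨a, c, x, y, -, -, -, -, -, -, hF', -⟩ | ⟨n, N, t, x, hab, hFt, -⟩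
  · obtain ⟨n, y', hy'⟩ := hF
    exact ⟨n + 2, Fin.append y' ![y, x], by
      rw [range_append, hF', adjoin_two y' x y hy']⟩
  · exact (fg_abelian ⟨n, N, t, x, hab, hFt⟩).2

theorem fg_of_tower {n : ℕ} {t : Fin n → L} (h : TorsorTower t) :
    ∃ T : Finset L, IntermediateField.adjoin ℂ (T : Set L) = ⊤ := by
  classical
  obtain ⟨s, F, hF0, htop, hstep⟩ := h
  have hi : ∀ i, i ≤ s → ∃ (n : ℕ) (y : Fin n → L), F i = IntermediateField.adjoin ℂ (Set.range y) := by
    intro i
    induction i with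
    | zero => exact fun _ => ⟨n, t, hF0⟩
    | succ i ih => exact fun hi => fg_step (ih (by omega)) (hstep i (by omega))
  obtain ⟨k, y, hy⟩ := hi s le_rfl
  refine ⟨Finset.univ.image y, ?_⟩
  rw [Finset.coe_image, Finset.coe_univ, Set.image_univ, ← hy, htop]

/-- Realizations of the base lift to realizations of the tower. -/
theorem real_of_tower {n : ℕ} {t : Fin n → L} (h : TorsorTower t)
    (h0 : Realized (IntermediateField.adjoin ℂ (Set.range t))) :
    Realized (⊤ : IntermediateField ℂ L) := by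
  have hfg := fg_of_tower h
  obtain ⟨s, F, hF0, htop, hstep⟩ := h
  have hi : ∀ i, i ≤ s → Realized (F i) := by
    intro i
    induction i with
    | zero => exact fun _ => hF0 ▸ h0
    | succ i ih => exact fun hi => real_step_tu hfg (ih (by omega)) (hstep i (by omega))
  exact htop ▸ hi s le_rfl

/-- the point -/
theorem real_point (hfg : ∃ T : Finset L, IntermediateField.adjoin ℂ (T : Set L) = ⊤) {n : ℕ}
    (t : Fin n → L) (ht : ∀ a, t a = 0) : Realized (IntermediateField.adjoin ℂ (Set.range t)) := by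
  set F := IntermediateField.adjoin ℂ (Set.range t) with hF
  have hbot : F = ⊥ := by
    rw [hF, IntermediateField.adjoin_eq_bot_iff]
    rintro _ ⟨a, rfl⟩
    rw [ht a]
    exact zero_mem _
  have hbot2 : F = IntermediateField.adjoin ℂ (Set.range (Fin.elim0 : Fin 0 → L)) := by
    rw [hbot, Eq.comm, IntermediateField.adjoin_eq_bot_iff]
    rintro _ ⟨i, -⟩
    exact i.elim0
  obtain ⟨A, hA⟩ := generic_chart hfg F ⟨0, Fin.elim0, hbot2⟩
  have hex : Nonempty (F →ₐ[ℂ] Tw.Mer) := by
    clear_value F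
    subst hbot
    exact ⟨(Algebra.ofId ℂ Tw.Mer).comp (IntermediateField.botEquiv ℂ L).toAlgHom⟩
  obtain ⟨φ⟩ := hex
  obtain ⟨ψ, -⟩ := hA φ (by
    intro b _
    have hb : (b : L) ∈ (⊥ : IntermediateField ℂ L) := hbot ▸ b.2
    obtain ⟨c, hc⟩ := IntermediateField.mem_bot.1 hb
    have hbc : b = algebraMap ℂ F c := Subtype.ext hc.symm
    rw [hbc, φ.commutes]
    exact hol_const c)
  exact real_of_tuple (Fin.elim0 : Fin 0 → L) (fun i => i.elim0) (fun i => i.elim0) F hbot2
    ⟨0, Fin.elim0, hbot2⟩ fun _ => ⟨ψ, fun i => i.elim0⟩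

/-- Varieties dominated by a tower over a point, or over a curve with orbifold structure not of general type. -/
theorem brody_of_tower {m : ℕ} (P : Ideal (MvPolynomial (Fin (m + 1)) ℂ)) [P.IsPrime]
    (hP : IsVariety P) (J : FunField P →ₐ[ℂ] L) (t : Fin 2 → L)
    (ht : (∀ a, t a = 0) ∨ IsBase t) (h : TorsorTower t) (hb : BoundOn (Set.range t)) :
    BrodySpecial P := by
  refine brody_of_real P hP J (real_of_tower h ?_)
  rcases ht with ht | ht
  · exact real_point (fg_of_tower h) t ht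
  · exact real_base_on (fg_of_tower h) t ht hb

/-- Special varieties with a torsor tower. -/
theorem main_tu {m : ℕ} (P : Ideal (MvPolynomial (Fin (m + 1)) ℂ)) [P.IsPrime]
    (hP : IsVariety P) (J : FunField P →ₐ[ℂ] L) (t : Fin 2 → L)
    (ht : (∀ a, t a = 0) ∨ IsBase t) (h : TorsorTower t) :
    (BoundOn (Set.range t) → BrodySpecial P) ∧
    (NoMultiple ⊥ J.fieldRange ∅ → (∀ a, t a ∈ J.fieldRange) →
      (SpecialField (FunField P) → BrodySpecial P) ∧ (BrodySpecial P → BoundOn (Set.range t))) :=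
  ⟨brody_of_tower P hP J t ht h, fun hno htJ => ⟨fun hs => brody_of_tower P hP J t ht h
    (bound_of_pencil J hno t htJ fun T hT μ h1 h2 => special_bound T hT hs μ h1 h2),
    fun hB => bound_of_pencil J hno t htJ fun T hT μ h1 h2 =>
      sum_le_two_of_brody P hP hB T hT μ h1 h2⟩⟩

/-- The lifting theorem for towers over an arbitrary base. -/
theorem lifting_tu {m n : ℕ} (P : Ideal (MvPolynomial (Fin (m + 1)) ℂ)) [P.IsPrime]
    (hP : IsVariety P) (t : Fin n → FunField P) (r : ℕ)
    (h : TorsorTower fun a => algebraMap (FunField P) (KW (FunField P) r) (t a)) :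
    BrodySpecial P ↔ ∃ u : ℂ → Fin n → ℂ, IsDenseCurve t u ∧
      ∀ z, ∃ ε : FunField P →ₐ[ℂ] Tw.Mer, ∀ i, ε (t i) = gz (fun w => u w i) z := by
  constructor
  · intro hB
    obtain ⟨H, hHm, hH⟩ := curve_of_brody P hP hB
    have hε : ∀ z, ∃ ε : FunField P →ₐ[ℂ] Tw.Mer, ∀ i, ε (t i) = gz (fun w => H (t i) w) z := by
      intro z
      obtain ⟨ε, h1⟩ := hH z
      exact ⟨ε, fun i => h1 (t i)⟩
    exact ⟨fun w i => H (t i) w, dense_of_eps t _ (fun i z => hHm _ z) hε, hε⟩
  · rintro ⟨u, hu, hlift⟩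
    obtain ⟨T₀, hT₀⟩ := funField_fg P
    have hum : ∀ i z, MeromorphicAt (fun w => u w i) z := fun i z => by
      obtain ⟨k, hk⟩ := hu.1 z
      exact ⟨k, analyticAt_pi_iff.1 hk i⟩
    have hy : IntermediateField.adjoin ℂ
        (Set.range fun i : Fin T₀.card => ((T₀.equivFin.symm i : T₀) : FunField P)) = ⊤ := by
      rw [← hT₀]
      congr 1
      ext a
      constructor
      · rintro ⟨i, rfl⟩
        exact (T₀.equivFin.symm i).2
      · intro ha
        exact ⟨T₀.equivFin ⟨a, ha⟩, by simp⟩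
    refine brody_of_real P hP (IsScalarTower.toAlgHom ℂ (FunField P) (KW (FunField P) r))
      (real_of_tower h ?_)
    refine real_of_tuple _ (fun i w => u w i) hum _ rfl ⟨n, _, rfl⟩ fun z => ?_
    obtain ⟨ε, hε⟩ := hlift z
    obtain ⟨ψ, hψ⟩ := ext_kw _ hy r ε
    exact ⟨ψ, fun i => by rw [hψ, hε]⟩

end Pool.Agent.AbPencil
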