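import Pool.Agent.Lib_MP_1209e6_tu.O1

/-! PIECE O2: functions which are holomorphic on lines are strictly differentiable. -/

set_option autoImplicit false

open Filter Topology

namespace Pool.Agent.AbPencil

/-- one step: the increment in the direction `e` -/
private theorem O2_step {E : Type} [NormedAddCommGroup E] [NormedSpace ℂ E] [FiniteDimensional ℂ E]
    {f : E → ℂ} {U : Set E} (h : GHol f U) {p : E} (hp : p ∈ U) (e : E) {ε : ℝ} (hε : 0 < ε) :
    ∀ᶠ q : E × ℂ in 𝓝 (p, 0), ‖f (q.1 + q.2 • e) - f q.1 - q.2 * dd e f p‖ ≤ ε * ‖q.2‖ := by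
  have hc : ContinuousAt (dd e f) p := (ghol_dd h e).cont.continuousAt (h.op.mem_nhds hp)
  have h1 : ∀ᶠ x in 𝓝 p, x ∈ U ∧ ‖dd e f x - dd e f p‖ ≤ ε := by
    have h11 : ∀ᶠ x in 𝓝 p, x ∈ U := h.op.mem_nhds hp
    have h12 : ∀ᶠ x in 𝓝 p, dd e f x ∈ Metric.closedBall (dd e f p) ε :=
      hc.eventually (Metric.closedBall_mem_nhds _ hε)
    filter_upwards [h11, h12] with x hx1 hx2
    refine ⟨hx1, ?_⟩
    rw [← dist_eq_norm]
    exact hx2
  have h3 : ∀ᶠ q in 𝓝 ((p, 0) : E × ℂ),
      q.1 + q.2 • e ∈ U ∧ ‖dd e f (q.1 + q.2 • e) - dd e f p‖ ≤ ε := by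
    have h31 : ContinuousAt (fun q : E × ℂ => q.1 + q.2 • e) (p, 0) := by fun_prop
    have h32 : Tendsto (fun q : E × ℂ => q.1 + q.2 • e) (𝓝 (p, 0)) (𝓝 p) := by
      have h33 := h31.tendsto
      simp only [zero_smul, add_zero] at h33
      exact h33
    exact h32.eventually h1
  obtain ⟨δ, hδ, hball⟩ := Metric.eventually_nhds_iff_ball.1 h3
  filter_upwards [Metric.ball_mem_nhds _ hδ] with q hq
  have hq1 : q.1 ∈ Metric.ball p δ := by
    rw [← ball_prod_same] at hq
    exact hq.1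
  have hq2 : q.2 ∈ Metric.ball (0 : ℂ) δ := by
    rw [← ball_prod_same] at hq
    exact hq.2
  have hin : ∀ s ∈ Metric.ball (0 : ℂ) δ,
      q.1 + s • e ∈ U ∧ ‖dd e f (q.1 + s • e) - dd e f p‖ ≤ ε := by
    intro s hs
    refine hball (q.1, s) ?_
    rw [← ball_prod_same]
    exact ⟨hq1, hs⟩
  have hd : ∀ s ∈ Metric.ball (0 : ℂ) δ,
      HasDerivAt (fun s : ℂ => f (q.1 + s • e) - s * dd e f p) (dd e f (q.1 + s • e) - dd e f p) s := by
    intro s hs
    refine HasDerivAt.sub ?_ ?_
    · have h4 : HasDerivAt (fun t : ℂ => f ((q.1 + s • e) + t • e)) (dd e f (q.1 + s • e)) 0 :=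
        (h.line _ (hin s hs).1 e).hasDerivAt
      have h5 : HasDerivAt (fun t : ℂ => t - s) 1 s := (hasDerivAt_id s).sub_const s
      have h6 : HasDerivAt (fun t : ℂ => f ((q.1 + s • e) + t • e)) (dd e f (q.1 + s • e))
          ((fun t : ℂ => t - s) s) := by
        simpa using h4
      have h7 := HasDerivAt.comp (h := fun t : ℂ => t - s) s h6 h5
      rw [mul_one] at h7
      refine h7.congr_of_eventuallyEq (Eventually.of_forall fun t => ?_)
      simp only [Function.comp]
      congr 1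
      rw [sub_smul]
      abel
    · simpa using (hasDerivAt_id s).mul_const (dd e f p)
  have key := Convex.norm_image_sub_le_of_norm_hasDerivWithin_le
    (f := fun s : ℂ => f (q.1 + s • e) - s * dd e f p)
    (f' := fun s : ℂ => dd e f (q.1 + s • e) - dd e f p) (s := Metric.ball (0 : ℂ) δ) (C := ε)
    (x := 0) (y := q.2) (fun s hs => (hd s hs).hasDerivWithinAt) (fun s hs => (hin s hs).2)
    (convex_ball _ _) (Metric.mem_ball_self hδ) hq2
  simp only [zero_smul, add_zero, zero_mul, sub_zero] at key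
  have h8 : f (q.1 + q.2 • e) - f q.1 - q.2 * dd e f p
      = f (q.1 + q.2 • e) - q.2 * dd e f p - f q.1 := by ring
  rw [h8]
  exact key

/-- several steps -/
private theorem O2_steps {E : Type} [NormedAddCommGroup E] [NormedSpace ℂ E] [FiniteDimensional ℂ E]
    {f : E → ℂ} {U : Set E} (h : GHol f U) {p : E} (hp : p ∈ U) {ι : Type} [Fintype ι] (b : ι → E)
    (S : Finset ι) {ε : ℝ} (hε : 0 < ε) :
    ∀ᶠ q : E × (ι → ℂ) in 𝓝 (p, 0), ‖f (q.1 + ∑ i ∈ S, q.2 i • b i) - f q.1
      - ∑ i ∈ S, q.2 i * dd (b i) f p‖ ≤ ε * ∑ i ∈ S, ‖q.2 i‖ := by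
  classical
  induction S using Finset.induction_on with
  | empty => simp
  | insert a S ha ih =>
    have h1 := O2_step h hp (b a) hε
    have h2 : ContinuousAt (fun q : E × (ι → ℂ) => (q.1 + ∑ i ∈ S, q.2 i • b i, q.2 a)) (p, 0) := by
      fun_prop
    have h3 : Tendsto (fun q : E × (ι → ℂ) => (q.1 + ∑ i ∈ S, q.2 i • b i, q.2 a)) (𝓝 (p, 0))
        (𝓝 ((p, 0) : E × ℂ)) := by
      have h4 := h2.tendsto
      simp only [Pi.zero_apply, zero_smul, Finset.sum_const_zero, add_zero] at h4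
      exact h4
    filter_upwards [ih, h3.eventually h1] with q hq1 hq2
    rw [Finset.sum_insert ha, Finset.sum_insert ha, Finset.sum_insert ha]
    have h5 : f (q.1 + (q.2 a • b a + ∑ i ∈ S, q.2 i • b i)) - f q.1
        - (q.2 a * dd (b a) f p + ∑ i ∈ S, q.2 i * dd (b i) f p)
        = (f (q.1 + ∑ i ∈ S, q.2 i • b i + q.2 a • b a) - f (q.1 + ∑ i ∈ S, q.2 i • b i)
          - q.2 a * dd (b a) f p)
        + (f (q.1 + ∑ i ∈ S, q.2 i • b i) - f q.1 - ∑ i ∈ S, q.2 i * dd (b i) f p) := by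
      have h6 : q.1 + (q.2 a • b a + ∑ i ∈ S, q.2 i • b i)
          = q.1 + ∑ i ∈ S, q.2 i • b i + q.2 a • b a := by abel
      rw [h6]
      ring
    rw [h5, mul_add]
    exact (norm_add_le _ _).trans (add_le_add hq2 hq1)

/-- Proof. The functions `dd e f` are continuous on `U` (`ghol_dd`). With a basis `b_i` of `E` define `f' (∑ x_i b_i) = ∑ x_i dd (b_i) f p`. For `x, y` near `p` write `f y - f x` as the
telescoping sum over the basis; each term is the difference of `f` at two points of a complex line in the direction `b_i`, so it differs from `(y_i - x_i) dd (b_i) f p` by at most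
`ε ‖y - x‖` (mean value inequality along the segment, `dd (b_i) f` is near `dd (b_i) f p`). So `f` has the strict derivative `f'` at `p`, and `f' e = dd e f p` (chain rule along the line).
(`hasStrictFDerivAt_uncurry_coprod` in `Mathlib/Analysis/Calculus/FDeriv/Partial.lean` may be used, by induction on the number of coordinates.) -/
theorem ghol_strict {E : Type} [NormedAddCommGroup E] [NormedSpace ℂ E] [FiniteDimensional ℂ E]
    {f : E → ℂ} {U : Set E} (h : GHol f U) {p : E} (hp : p ∈ U) :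
    ∃ f' : E →L[ℂ] ℂ, HasStrictFDerivAt f f' p ∧ ∀ e, f' e = dd e f p := by
  classical
  set b := Module.finBasis ℂ E with hb
  set T : E ≃L[ℂ] (Fin (Module.finrank ℂ E) → ℂ) := b.equivFunL with hT
  have hTb : ∀ x : E, ∑ i, T x i • b i = x := fun x => b.sum_equivFun x
  let f' : E →L[ℂ] ℂ :=
    ∑ i, (dd (b i) f p) • ((ContinuousLinearMap.proj (R := ℂ)
      (φ := fun _ : Fin (Module.finrank ℂ E) => ℂ) i).comp
        (T : E →L[ℂ] (Fin (Module.finrank ℂ E) → ℂ)))
  have hf' : ∀ x, f' x = ∑ i, T x i * dd (b i) f p := by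
    intro x
    simp only [f', sum_apply, smul_apply,
      ContinuousLinearMap.comp_apply, ContinuousLinearMap.proj_apply, smul_eq_mul]
    exact Finset.sum_congr rfl fun i _ => mul_comm _ _
  have hstrict : HasStrictFDerivAt f f' p := by
    rw [hasStrictFDerivAt_iff_isLittleO, Asymptotics.isLittleO_iff]
    intro ε hε
    set C : ℝ := (Module.finrank ℂ E : ℝ) * ‖(T : E →L[ℂ] (Fin (Module.finrank ℂ E) → ℂ))‖ + 1 with hC
    have hC0 : 0 < C := by positivity
    have h1 := O2_steps h hp (fun i => b i) Finset.univ (ε := ε / C) (by positivity)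
    have h2 : ContinuousAt (fun q : E × E => (q.2, T (q.1 - q.2))) (p, p) := by fun_prop
    have h3 : Tendsto (fun q : E × E => (q.2, T (q.1 - q.2))) (𝓝 (p, p))
        (𝓝 ((p, 0) : E × (Fin (Module.finrank ℂ E) → ℂ))) := by
      have h4 := h2.tendsto
      simp only [sub_self, map_zero] at h4
      exact h4
    filter_upwards [h3.eventually h1] with q hq
    rw [hTb, ← hf', add_sub_cancel] at hq
    refine hq.trans ?_
    have h5 : ∑ i, ‖T (q.1 - q.2) i‖ ≤ C * ‖q.1 - q.2‖ := by
      calc ∑ i, ‖T (q.1 - q.2) i‖ ≤ ∑ _i : Fin (Module.finrank ℂ E), ‖T (q.1 - q.2)‖ :=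
            Finset.sum_le_sum fun i _ => norm_le_pi_norm _ i
        _ = (Module.finrank ℂ E : ℝ) * ‖T (q.1 - q.2)‖ := by simp
        _ ≤ (Module.finrank ℂ E : ℝ) *
            (‖(T : E →L[ℂ] (Fin (Module.finrank ℂ E) → ℂ))‖ * ‖q.1 - q.2‖) := by
            refine mul_le_mul_of_nonneg_left ?_ (by positivity)
            exact (T : E →L[ℂ] (Fin (Module.finrank ℂ E) → ℂ)).le_opNorm _
        _ ≤ C * ‖q.1 - q.2‖ := by
            rw [hC, add_mul, ← mul_assoc]
            have := norm_nonneg (q.1 - q.2)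
            linarith
    calc ε / C * ∑ i, ‖T (q.1 - q.2) i‖ ≤ ε / C * (C * ‖q.1 - q.2‖) :=
          mul_le_mul_of_nonneg_left h5 (by positivity)
      _ = ε * ‖q.1 - q.2‖ := by
          field_simp
  refine ⟨f', hstrict, fun e => ?_⟩
  have h6 : HasDerivAt (fun s : ℂ => p + s • e) e 0 := by
    have h7 := ((hasDerivAt_id (0 : ℂ)).smul_const e).const_add p
    simpa using h7
  have h8 : HasFDerivAt f f' (p + (0 : ℂ) • e) := by
    rw [zero_smul, add_zero]
    exact hstrict.hasFDerivAt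
  have h9 := h8.comp_hasDerivAt (0 : ℂ) h6
  exact h9.deriv.symm

end Pool.Agent.AbPencil
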