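import Pool.Agent.Lib_MP_1209e6_tu.Av0

/-! PIECE O3: polynomials in functions which are holomorphic on lines. -/

set_option autoImplicit false

open Filter Topology

namespace Pool.Agent.AbPencil

/-- the value as a finite sum over the support of `q` -/
private theorem O3_qe_eq {e : ℕ} (q : MvPolynomial (Fin e) (ℂ → ℂ)) (z : ℂ) (T : Fin e → ℂ) :
    qe q z T = ∑ α ∈ q.support, q.coeff α z * ∏ m, T m ^ α m := by
  unfold qe
  rw [MvPolynomial.eval_map, MvPolynomial.eval₂_eq']
  rfl

/-- Proof. Sums, products and constants of `GHol` functions are `GHol`, and so is `p ↦ a p.1` for `a` analytic at `p.1` for all `p ∈ U`. Write `qe q z T` as the sum over the (finite) support of `q` of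
`(q.coeff α z) * ∏ m, T m ^ α m` (`MvPolynomial.eval_eq`; the support of the mapped polynomial is contained in the support of `q`). -/
theorem ghol_qe {C : Type} [NormedAddCommGroup C] [NormedSpace ℂ C] {U : Set (ℂ × C)}
    (hU : IsOpen U) {e : ℕ} (q : MvPolynomial (Fin e) (ℂ → ℂ)) (T : Fin e → ℂ × C → ℂ)
    (hq : ∀ α, ∀ p ∈ U, AnalyticAt ℂ (q.coeff α) p.1) (hT : ∀ m, GHol (T m) U) :
    GHol (fun p => qe q p.1 fun m => T m p) U := by
  refine ⟨hU, ?_, ?_⟩
  · simp only [O3_qe_eq]
    refine continuousOn_finsetSum _ fun α _ => ContinuousOn.mul ?_ ?_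
    · intro p hp
      exact ((hq α p hp).continuousAt.comp continuousAt_fst).continuousWithinAt
    · exact continuousOn_finsetProd _ fun m _ => ((hT m).cont).pow _
  · intro p hp w
    simp only [O3_qe_eq]
    refine DifferentiableAt.fun_sum fun α _ => DifferentiableAt.mul ?_ ?_
    · have h1 : DifferentiableAt ℂ (fun s : ℂ => (p + s • w).1) 0 := by
        have h2 : (fun s : ℂ => (p + s • w).1) = fun s : ℂ => p.1 + s • w.1 := rfl
        rw [h2]
        fun_prop
      have h3 : DifferentiableAt ℂ (q.coeff α) ((fun s : ℂ => (p + s • w).1) 0) := by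
        have h4 : (fun s : ℂ => (p + s • w).1) 0 = p.1 := by simp
        rw [h4]
        exact (hq α p hp).differentiableAt
      exact h3.comp (0 : ℂ) h1
    · refine DifferentiableAt.fun_finsetProd fun m _ => ?_
      exact ((hT m).line p hp w).pow _

/-- Continuity in all variables. Proof. As above. -/
theorem qe_cont {X : Type} [TopologicalSpace X] {e : ℕ} (q : MvPolynomial (Fin e) (ℂ → ℂ))
    (z : X → ℂ) (T : Fin e → X → ℂ) (x : X) (hz : ContinuousAt z x)
    (hq : ∀ α, AnalyticAt ℂ (q.coeff α) (z x)) (hT : ∀ m, ContinuousAt (T m) x) :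
    ContinuousAt (fun x => qe q (z x) fun m => T m x) x := by
  simp only [O3_qe_eq]
  refine tendsto_finsetSum _ fun α _ => ?_
  refine Tendsto.mul ?_ ?_
  · exact (hq α).continuousAt.comp hz
  · exact tendsto_finsetProd _ fun m _ => (hT m).pow _

end Pool.Agent.AbPencil
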