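import Pool.Agent.Lib_MP_1209e6_tv.M1

/-! PIECE P1: denominators. -/

set_option autoImplicit false

namespace Pool.Agent.AbPencil

open Tw

variable {L : Type} [Field L] [Algebra ℂ L]

open MvPolynomial in
private theorem P1_hol {σ : Type} (v : σ → Mer) (hv : ∀ i, Hol (v i)) (p : MvPolynomial σ ℂ) :
    Hol (aeval v p) := by
  induction p using MvPolynomial.induction_on with
  | C c =>
    rw [aeval_C]
    exact hol_const c
  | add p q hp hq =>
    rw [map_add]
    exact hol_add hp hq
  | mul_X p i hp =>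
    rw [map_mul, aeval_X]
    exact hol_mul hp (hv i)

open MvPolynomial in
private theorem P1_frac {σ : Type} (u : σ → L) (a : L) (ha : a ∈ IntermediateField.adjoin ℂ (Set.range u)) :
    ∃ r s : MvPolynomial σ ℂ, aeval u s ≠ 0 ∧ a * aeval u s = aeval u r := by
  obtain ⟨r, s, hrs⟩ := (IntermediateField.mem_adjoin_range_iff ℂ u a).1 ha
  by_cases hs : aeval u s = 0
  · refine ⟨0, 1, by rw [map_one]; exact one_ne_zero, ?_⟩
    rw [hs, div_zero] at hrs
    rw [hrs, zero_mul, map_zero]
  · exact ⟨r, s, hs, by rw [hrs, div_mul_cancel₀ _ hs]⟩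

open MvPolynomial in
/-- regrouping of the variables -/
private noncomputable def P1_G (n e : ℕ) :
    MvPolynomial (Fin n ⊕ Fin e) ℂ →ₐ[ℂ] MvPolynomial (Fin e) (MvPolynomial (Fin n) ℂ) :=
  aeval (Sum.elim (fun i => C (X i)) X)

open MvPolynomial in
private theorem P1_G_eval {F : Type} [Field F] [Algebra ℂ F] {n e : ℕ} (t : Fin n → F) (w : Fin e → F)
    (p : MvPolynomial (Fin n ⊕ Fin e) ℂ) :
    (P1_G n e p).eval₂ (MvPolynomial.aeval t : MvPolynomial (Fin n) ℂ →ₐ[ℂ] F).toRingHom w =
      aeval (Sum.elim t w) p := by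
  induction p using MvPolynomial.induction_on with
  | C c =>
    have h1 : P1_G n e (C c) = C (C c) := by
      unfold P1_G
      rw [aeval_C]
      rfl
    rw [h1, eval₂_C, aeval_C]
    exact aeval_C t c
  | add p q hp hq => rw [map_add, eval₂_add, hp, hq, map_add]
  | mul_X p i hp =>
    rw [map_mul, eval₂_mul, hp, map_mul, aeval_X]
    congr 1
    unfold P1_G
    rw [aeval_X]
    rcases i with i | i
    · simp only [Sum.elim_inl, eval₂_C]
      exact aeval_X t i
    · simp only [Sum.elim_inr, eval₂_X]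

private theorem P1_inv {a : Mer} (ha : Hol a) (h : mo a ≤ 0) : a ≠ 0 ∧ Hol a⁻¹ := by
  have h0 : a ≠ 0 := by
    rintro rfl
    rw [mo_eq_top.2 rfl] at h
    exact absurd h (by simp)
  refine ⟨h0, ?_⟩
  obtain ⟨m, hm⟩ := exists_int h0
  unfold Hol
  rw [M1_mo_inv h0 hm]
  rw [hm] at h
  have h1 : m ≤ 0 := by exact_mod_cast h
  have h2 : 0 ≤ -m := by omega
  exact_mod_cast h2

/-- Proof. Each `a ∈ Y` is a quotient of polynomials in `t, w`: `a = aeval (Sum.elim t w) P_a / aeval (Sum.elim t w) Q_a` with nonzero denominator (`IntermediateField.adjoin` of the range is the fraction field of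
`Algebra.adjoin`; as in `clear`, `ab/A1`). Let `Q = ∏ Q_a` (regrouped: `MvPolynomial.sumAlgEquiv` / `sumToIter`, coefficients in `MvPolynomial (Fin n) ℂ`, variables `Fin e`). `φ a = φ (P_a) ∏_{a' ≠ a} φ (Q_a') / φ (Q)`, and polynomials in holomorphic germs are holomorphic;
`mo (φ Q) ≤ 0` gives `φ Q ≠ 0` and `0 ≤ mo (φ Q)⁻¹`. `Q` is not zero over `ℂ(t)` because its value is not zero. -/
theorem denom {F' : IntermediateField ℂ L} {n e : ℕ} (t : Fin n → F') (w : Fin e → F')
    (Y : Finset L) (hY : ∀ a ∈ Y, a ∈ IntermediateField.adjoin ℂ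
      (Set.range (Sum.elim (fun i => (t i : L)) fun m => (w m : L)))) :
    ∃ Q : MvPolynomial (Fin e) (MvPolynomial (Fin n) ℂ),
      Q.map (MvPolynomial.aeval t : MvPolynomial (Fin n) ℂ →ₐ[ℂ] F').toRingHom ≠ 0 ∧
      ∀ φ : F' →ₐ[ℂ] Mer, (∀ i, Hol (φ (t i))) → (∀ m, Hol (φ (w m))) →
        mo (φ (Q.eval₂ (MvPolynomial.aeval t : MvPolynomial (Fin n) ℂ →ₐ[ℂ] F').toRingHom w)) ≤ 0 →
        ∀ a : F', (a : L) ∈ Y → Hol (φ a) := by
  classical
  set u : Fin n ⊕ Fin e → F' := Sum.elim t w with hu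
  have huL : (Sum.elim (fun i => (t i : L)) fun m => (w m : L)) = fun i => ((u i : F') : L) := by
    funext i
    rcases i with i | i <;> rfl
  have hval : ∀ p : MvPolynomial (Fin n ⊕ Fin e) ℂ,
      ((MvPolynomial.aeval u p : F') : L) = MvPolynomial.aeval (fun i => ((u i : F') : L)) p :=
    fun p => MvPolynomial.comp_aeval_apply (f := u) F'.val p
  have key : ∀ a : Y, ∃ r s : MvPolynomial (Fin n ⊕ Fin e) ℂ,
      MvPolynomial.aeval (fun i => ((u i : F') : L)) s ≠ 0 ∧
      (a : L) * MvPolynomial.aeval (fun i => ((u i : F') : L)) s =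
        MvPolynomial.aeval (fun i => ((u i : F') : L)) r := by
    intro a
    refine P1_frac _ (a : L) ?_
    have h1 := hY a a.2
    rw [huL] at h1
    exact h1
  choose r s hs hrs using key
  refine ⟨P1_G n e (∏ a, s a), ?_, ?_⟩
  · intro h0
    have h1 : (P1_G n e (∏ a, s a)).eval₂
        (MvPolynomial.aeval t : MvPolynomial (Fin n) ℂ →ₐ[ℂ] F').toRingHom w = 0 := by
      rw [MvPolynomial.eval₂_eq_eval_map, h0, map_zero]
    rw [P1_G_eval, map_prod, Finset.prod_eq_zero_iff] at h1
    obtain ⟨a, -, ha⟩ := h1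
    apply hs a
    rw [← hval, ← hu] at *
    rw [ha]
    rfl
  · intro φ ht hw hQ a ha
    rw [P1_G_eval, ← hu] at hQ
    have hφ : ∀ p : MvPolynomial (Fin n ⊕ Fin e) ℂ,
        φ (MvPolynomial.aeval u p) = MvPolynomial.aeval (fun i => φ (u i)) p :=
      fun p => MvPolynomial.comp_aeval_apply (f := u) φ p
    have hv : ∀ i, Hol (φ (u i)) := by
      intro i
      rcases i with i | i
      · exact ht i
      · exact hw i
    have hH : ∀ p : MvPolynomial (Fin n ⊕ Fin e) ℂ, Hol (φ (MvPolynomial.aeval u p)) := by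
      intro p
      rw [hφ p]
      exact P1_hol _ hv p
    obtain ⟨hne, hinv⟩ := P1_inv (hH _) hQ
    set b : Y := ⟨(a : L), ha⟩ with hb
    have h1 : a * MvPolynomial.aeval u (s b) = MvPolynomial.aeval u (r b) := by
      apply Subtype.ext
      have h2 := hrs b
      rw [← hval, ← hval] at h2
      exact h2
    have h3 : (∏ a, s a) = s b * ∏ a ∈ Finset.univ.erase b, s a :=
      (Finset.mul_prod_erase _ _ (Finset.mem_univ b)).symm
    have h4 : φ a = φ (MvPolynomial.aeval u (r b)) *
        φ (MvPolynomial.aeval u (∏ a ∈ Finset.univ.erase b, s a)) *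
        (φ (MvPolynomial.aeval u (∏ a, s a)))⁻¹ := by
      rw [eq_mul_inv_iff_mul_eq₀ hne, h3, ← h1]
      simp only [map_mul]
      ring
    rw [h4]
    exact hol_mul (hol_mul (hH _) (hH _)) hinv

/-- Proof. A nonzero relation over `ℂ(t)` with denominators cleared. -/
theorem dep_poly {F' : IntermediateField ℂ L} {n e : ℕ} (t : Fin n → F') (w : Fin e → F')
    (h : ¬ AlgebraicIndependent (IntermediateField.adjoin ℂ (Set.range fun i => (t i : L)))
      fun m => (w m : L)) :
    ∃ Q : MvPolynomial (Fin e) (MvPolynomial (Fin n) ℂ),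
      Q.map (MvPolynomial.aeval t : MvPolynomial (Fin n) ℂ →ₐ[ℂ] F').toRingHom ≠ 0 ∧
      Q.eval₂ (MvPolynomial.aeval t : MvPolynomial (Fin n) ℂ →ₐ[ℂ] F').toRingHom w = 0 := by
  classical
  rw [algebraicIndependent_iff] at h
  push Not at h
  obtain ⟨P, hP, hP0⟩ := h
  have hval : ∀ p : MvPolynomial (Fin n) ℂ,
      ((MvPolynomial.aeval t p : F') : L) = MvPolynomial.aeval (fun i => ((t i : F') : L)) p :=
    fun p => MvPolynomial.comp_aeval_apply (f := t) F'.val p
  have key : ∀ d : Fin e →₀ ℕ, ∃ r s : MvPolynomial (Fin n) ℂ,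
      MvPolynomial.aeval (fun i => ((t i : F') : L)) s ≠ 0 ∧
      ((P.coeff d : IntermediateField.adjoin ℂ (Set.range fun i => (t i : L))) : L) *
        MvPolynomial.aeval (fun i => ((t i : F') : L)) s =
        MvPolynomial.aeval (fun i => ((t i : F') : L)) r :=
    fun d => P1_frac _ _ (P.coeff d).2
  choose r s hs hrs using key
  set D : MvPolynomial (Fin n) ℂ := ∏ d ∈ P.support, s d with hD
  have hD0 : MvPolynomial.aeval (fun i => ((t i : F') : L)) D ≠ 0 := by
    rw [hD, map_prod]
    exact Finset.prod_ne_zero_iff.2 fun d _ => hs d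
  set c : (Fin e →₀ ℕ) → MvPolynomial (Fin n) ℂ := fun d => r d * ∏ d' ∈ P.support.erase d, s d' with hc
  have hcD : ∀ d ∈ P.support, ((MvPolynomial.aeval t (c d) : F') : L) =
      MvPolynomial.aeval (fun i => ((t i : F') : L)) D *
        ((P.coeff d : IntermediateField.adjoin ℂ (Set.range fun i => (t i : L))) : L) := by
    intro d hd
    rw [hval, hc, hD, ← Finset.mul_prod_erase _ _ hd]
    simp only [map_mul]
    rw [← hrs d]
    ring
  refine ⟨∑ d ∈ P.support, MvPolynomial.monomial d (c d), ?_, ?_⟩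
  · intro h0
    obtain ⟨d, hd⟩ := MvPolynomial.support_nonempty.2 hP0
    have h1 := congrArg (MvPolynomial.coeff d) h0
    rw [MvPolynomial.coeff_map, MvPolynomial.coeff_zero, MvPolynomial.coeff_sum] at h1
    simp only [MvPolynomial.coeff_monomial] at h1
    rw [Finset.sum_ite_eq' P.support d c, if_pos hd] at h1
    have h2 : ((MvPolynomial.aeval t (c d) : F') : L) = 0 := by
      have h3 : (MvPolynomial.aeval t (c d) : F') = 0 := h1
      rw [h3]
      rfl
    rw [hcD d hd] at h2
    rcases mul_eq_zero.1 h2 with h3 | h3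
    · exact hD0 h3
    · have h4 : P.coeff d = 0 := Subtype.ext h3
      exact (MvPolynomial.mem_support_iff.1 hd) h4
  · apply Subtype.ext
    rw [MvPolynomial.eval₂_sum]
    simp only [MvPolynomial.eval₂_monomial]
    have h1 : MvPolynomial.aeval (fun m => (w m : L)) P = ∑ d ∈ P.support,
        ((P.coeff d : IntermediateField.adjoin ℂ (Set.range fun i => (t i : L))) : L) *
          ∏ i ∈ d.support, (w i : L) ^ d i := by
      rw [MvPolynomial.aeval_def, MvPolynomial.eval₂_eq]
      rfl
    have h2 : ((∑ d ∈ P.support, (MvPolynomial.aeval t : MvPolynomial (Fin n) ℂ →ₐ[ℂ] F').toRingHom (c d) *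
        d.prod fun i k => w i ^ k : F') : L) = ∑ d ∈ P.support,
        MvPolynomial.aeval (fun i => ((t i : F') : L)) D *
          (((P.coeff d : IntermediateField.adjoin ℂ (Set.range fun i => (t i : L))) : L) *
            ∏ i ∈ d.support, (w i : L) ^ d i) := by
      refine (map_sum F'.val _ _).trans (Finset.sum_congr rfl fun d hd => ?_)
      rw [map_mul, ← mul_assoc, ← hcD d hd, Finsupp.prod, map_prod]
      simp only [map_pow]
      rfl
    rw [h2, ← Finset.mul_sum, ← h1, hP, mul_zero]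
    rfl

end Pool.Agent.AbPencil
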