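import Pool.Agent.Lib_MP_1209e6_tv.A7
import Pool.Agent.Lib_MP_1209e6_tv.G12
import Pool.Agent.Lib_MP_1209e6_tv.Main
import Pool.Agent.Lib_MP_1209e6_tu.AC
import Pool.Agent.Lib_MP_1209e6_tu.P1
import Pool.Agent.Lib_MP_1209e6_tu.P2

/-! The step for abelian torsors of any dimension (assembly). -/

set_option autoImplicit false

open Filter Topology

namespace Pool.Agent.AbPencil

open Tw Pool.Agent.Campana Pool.Agent.CampanaFlow Pool.Agent.AbFib

variable {L : Type} [Field L] [Algebra ℂ L]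

theorem coordField_eq {F F' : IntermediateField ℂ L} {n N e : ℕ} (t : Fin n → F')
    (x : Fin (N + 1) → F') (hF : F = IntermediateField.adjoin ℂ (Set.range fun i => (t i : L)))
    (j : Fin (N + 1)) (κ : Fin e → Fin (N + 1)) :
    coordField F F' x j (Set.range κ) = IntermediateField.adjoin ℂ
      (Set.range (Sum.elim (fun i => (t i : L)) fun m => ((x (κ m) / x j : F') : L))) := by
  apply le_antisymm
  · refine IntermediateField.adjoin_le_iff.2 ?_
    rintro a (ha | ⟨-, ⟨m, rfl⟩, rfl⟩)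
    · have h1 : F ≤ IntermediateField.adjoin ℂ
          (Set.range (Sum.elim (fun i => (t i : L)) fun m => ((x (κ m) / x j : F') : L))) := by
        rw [hF, IntermediateField.adjoin_le_iff]
        rintro _ ⟨i, rfl⟩
        exact IntermediateField.subset_adjoin _ _ ⟨Sum.inl i, rfl⟩
      exact h1 ha
    · exact IntermediateField.subset_adjoin _ _ ⟨Sum.inr m, rfl⟩
  · rw [IntermediateField.adjoin_le_iff]
    rintro _ ⟨i | m, rfl⟩
    · refine IntermediateField.subset_adjoin _ _ (Or.inl ?_)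
      change (t i : L) ∈ F
      rw [hF]
      exact IntermediateField.subset_adjoin _ _ ⟨i, rfl⟩
    · exact IntermediateField.subset_adjoin _ _ (Or.inr ⟨κ m, ⟨m, rfl⟩, rfl⟩)

theorem coordField_le {F F' : IntermediateField ℂ L} (hle : F ≤ F') {N : ℕ} (x : Fin (N + 1) → F')
    (j : Fin (N + 1)) (W : Set (Fin (N + 1))) : coordField F F' x j W ≤ F' := by
  refine IntermediateField.adjoin_le_iff.2 ?_
  rintro a (ha | ⟨l, -, rfl⟩)
  · exact hle ha
  · exact (x l / x j : F').2

/-- Without multiple fibres in codimension one germs lift off a set of codimension two. -/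
theorem germs_lift_cod (hfg : ∃ T : Finset L, IntermediateField.adjoin ℂ (T : Set L) = ⊤)
    {F F' : IntermediateField ℂ L} (hle : F ≤ F') {n N e : ℕ} (t : Fin n → F')
    (x : Fin (N + 1) → F') (hF : F = IntermediateField.adjoin ℂ (Set.range fun i => (t i : L)))
    (hF' : ∃ (n : ℕ) (y : Fin n → L), F' = IntermediateField.adjoin ℂ (Set.range y))
    (hNM : ∀ (j : Fin (N + 1)) (W : Set (Fin (N + 1))),
      (∀ a ∈ F', ∀ b ∈ F', ¬ AlgebraicIndependent (coordField F F' x j W) ![a, b]) →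
      NoMultiple (coordField F F' x j W) F' (Set.range fun l => ((x l / x j : F') : L)))
    (hdeg : ∀ s : Fin (e + 2) → L, (∀ i, s i ∈ F') → ¬ AlgebraicIndependent F s)
    (j : Fin (N + 1)) (κ : Fin e → Fin (N + 1)) :
    ∃ Q : MvPolynomial (Fin e) (MvPolynomial (Fin n) ℂ),
      Q.map (MvPolynomial.aeval t : MvPolynomial (Fin n) ℂ →ₐ[ℂ] F').toRingHom ≠ 0 ∧
      ∀ φ : F' →ₐ[ℂ] Tw.Mer, (∀ i, Hol (φ (t i))) → (∀ l, Hol (φ (x l / x j))) →
        mo (φ (Q.eval₂ (MvPolynomial.aeval t : MvPolynomial (Fin n) ℂ →ₐ[ℂ] F').toRingHom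
          fun m => x (κ m) / x j)) ≤ 0 → ∃ ψ : L →ₐ[ℂ] Tw.Mer, ∀ a : F', ψ a = φ a := by
  by_cases hind : AlgebraicIndependent F fun m => ((x (κ m) / x j : F') : L)
  · have htr := coord_trdeg hle x j κ hdeg hind
    obtain ⟨Y, hY, hlift⟩ := germs_lift hfg (coordField_le hle x j _) hF' htr _
      (hNM j (Set.range κ) htr)
    rw [coordField_eq t x hF j κ] at hY
    obtain ⟨Q, hQ, hφ⟩ := denom t (fun m => x (κ m) / x j) Y hY
    refine ⟨Q, hQ, fun φ h1 h2 h3 => hlift φ (hφ φ h1 (fun m => h2 _) h3) ?_⟩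
    rintro a ⟨l, hl⟩
    have h4 : a = x l / x j := Subtype.ext hl.symm
    rw [h4]
    exact h2 l
  · rw [hF] at hind
    obtain ⟨Q, hQ, hQ0⟩ := dep_poly t (fun m => x (κ m) / x j) hind
    refine ⟨Q, hQ, fun φ _ _ h3 => ?_⟩
    rw [hQ0, map_zero, mo_eq_top.2 rfl] at h3
    exact absurd h3 (by simp)

/-- each valuation ring contains the coordinates of a chart -/
theorem exists_chart {E : Type} [Field E] (O : ValuationSubring E) {N : ℕ} (x : Fin (N + 1) → E) :
    ∃ j, ∀ l, x l / x j ∈ O := by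
  obtain ⟨j, -, hj⟩ := Finset.exists_max_image Finset.univ (fun l => O.valuation (x l))
    ⟨0, Finset.mem_univ _⟩
  refine ⟨j, fun l => ?_⟩
  rw [← ValuationSubring.valuation_le_one_iff, map_div₀]
  exact div_le_one_of_le₀ (hj l (Finset.mem_univ _)) zero_le

theorem noMultiple_of_charts {F F' : IntermediateField ℂ L} {N : ℕ} (x : Fin (N + 1) → F')
    (hNM : ∀ (j : Fin (N + 1)) (W : Set (Fin (N + 1))),
      (∀ a ∈ F', ∀ b ∈ F', ¬ AlgebraicIndependent (coordField F F' x j W) ![a, b]) →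
      NoMultiple (coordField F F' x j W) F' (Set.range fun l => ((x l / x j : F') : L)))
    (htr : ∀ a ∈ F', ∀ b ∈ F', ¬ AlgebraicIndependent F ![a, b]) : NoMultiple F F' ∅ := by
  intro O hO hF _
  obtain ⟨j, hj⟩ := exists_chart O x
  have h1 : coordField F F' x j ∅ = F := by
    rw [coordField, Set.image_empty, Set.union_empty]
    exact IntermediateField.adjoin_self ℂ F
  have h2 := hNM j ∅ (by rw [h1]; exact htr)
  rw [h1] at h2
  refine h2 O hO hF ?_
  rintro a ⟨l, hl⟩
  have h4 : a = x l / x j := Subtype.ext hl.symm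
  rw [h4]
  exact hj l

end Pool.Agent.AbPencil
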