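import Pool.Agent.Lib_MP_1209e6_tu.Main

/-!
# Campana's conjecture: special varieties and towers of conics and abelian torsors

Let `X` be a complex projective variety with function field `K`, let `X' ⇢ X` be a dominant rational map from a variety
with function field `L`, and let
`X' = W_s ⇢ … ⇢ W_1 ⇢ W_0`
be a tower of rational maps (`TorsorTower`) such that for each `i` the generic fibre `V` of `W_{i+1}` over `W_i` is

* a smooth conic `x² - a y² = c` (`ConicStep`), for instance a line (`a = c = 1`), or
* a torsor under an abelian variety of any dimension (`AbelianStep`, `IsAbelianFibration`: a smooth projective variety with
  commuting global vector fields which span the tangent bundle, connected),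

and such that the prime divisors of `V` (the points of codimension one) are not images of multiple fibres of `X'`: some
discrete valuation ring of `L` over each of them has ramification index one (`NoMultiple`). Multiple fibres over the
points at infinity of the conics (`0` and `∞` on a line, for instance) are allowed. Nothing is supposed about the fibres
over the vertical divisors of `W_{i+1}` over `W_i`: they are arbitrary, multiple or not, at every level. No section
is supposed, the length `s` is arbitrary. The base `W_0` is a point (`t = 0`), or a curve of genus at most one
(`IsBase`): the line with coordinate `t_0` (`t_1 = 0`) or a smooth plane cubic `t_1² = t_0³ + a t_0² + b t_0 + c`; over it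
the multiplicities are arbitrary.

Theorem.

1. If the orbifold base of `X' ⇢ W_0` is not of general type, that is `∑_b (1 - 1/m_b) ≤ 2` for all pencils
   `T : X' ⇢ W_0 ⇢ ℙ¹` (`BoundOn`; there is no condition if `W_0` is a point), then `X` has a Zariski dense entire curve.
2. Suppose that `X' ⇢ W_0` factors through `X` and that `X'` has no multiple fibres over `X` in codimension one (for
   instance `X' = X`, `X' = X × ℙ^r`). If `X` is special then `X` has a Zariski dense entire curve. If `X` has a
   Zariski dense entire curve then the condition in 1 holds, so it is a criterion.

Examples of such towers: iterated conic bundles and del Pezzo fibrations (pencils of anticanonical curves), elliptic K3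
surfaces and their families, fibrations in abelian varieties or in quotients of abelian varieties by finite abelian groups
(`X' = X × ℙ^r`: for a cover `w^n = d δ` of a fibre the parameter `d` is a coordinate of a line, `w^n` has multiplicity `n`
along `d = 0, ∞`), Lagrangian fibrations over `ℙ^n` without multiple fibres in codimension one, Calabi-Yau varieties
fibred in these ways, torsors under semiabelian varieties with split torus part. For `X` special with Albanese variety `A` the
first step `A ⇢ point` is allowed, since the Albanese map has no multiple fibres in codimension one (Campana).

The definitions `IsVariety`, `SpecialField`, `BrodySpecial` are in `Pool.Agent.Lib_MP_1209e6_ag.Defs`, `Chart`,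
`GlobalField` in `Pool.Agent.Lib_MP_1209e6_fl.Defs`, `Fibre`, `IsAbelianFibration` in
`Pool.Agent.Lib_MP_1209e6_ab.Defs`, `IsBase` in `Pool.Agent.Lib_MP_1209e6_sk.Stmt`, `par`, `BoundOn` in
`Pool.Agent.Lib_MP_1209e6_sk.M1` (and `sk.M0`), `NoMultiple` in `Pool.Agent.Lib_MP_1209e6_tv.Stmt`, `ConicStep`, `coordField`,
`AbelianStep`, `TorsorTower` in `Pool.Agent.Lib_MP_1209e6_tu.Stmt`.

Sketch of the proof. For a pencil `T : X ⇢ ℙ¹` let `m_b` be the minimum of the orders of `T - b` at the discrete
valuation rings of `K` over `b`. If `∑ (1 - 1/m_b) > 2` then suitable sections `f dT^M`, `f T dT^M` are regular at
all places, so `X` is not special; and by the second main theorem `X` has no Zariski dense entire curve. If the bound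
holds there is a meromorphic `u : ℂ → W_0` such that `X'` has holomorphic arcs over all germs of `u` (exponential,
polyhedral and elliptic functions). We construct successively meromorphic curves `H_i : ℂ → W_i`, Zariski dense, such that
for EACH `z` the germ of `H_i` at `z` lifts to `X'` (`Realized`: the homomorphism from the function field to the field
of germs extends to `L`). Step from `W_i` to `W_{i+1}`: by the compactness of the space of valuation rings, Newton's
method and `NoMultiple` there is a finite set of functions on `W_i` such that at the points `z` where these functions
are holomorphic along `H_i` all germs of curves in `V` lift which are not contained in a subset `Z` of `V` of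
codimension two (and avoid infinity, for a conic). At the other points `z`, a discrete set, the new curve is prescribed up
to high order, close to a germ which lifts. Conics: `x + y √a` is multiplied by `exp (τ √a)`, abelian torsors: the flows
of the vector fields; in both cases the Cousin problem for the local sections is solved with the given jets. General
entire times give a Zariski dense curve which avoids `Z`: the set of good times is dense in each ball (Baire), by
induction on the order of vanishing of the equations of `Z` along the curve.
-/

set_option autoImplicit false

open Pool.Agent.Campana Pool.Agent.CampanaFlow Pool.Agent.AbFib Pool.Agent.AbPencil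

namespace Pool.Agent.Results.MP_1209e6_ag.SpecialTowers

/-- The function field of the projective variety with homogeneous prime ideal `P`: the field
generated by the quotients `x_i / x_j` in the fraction field of the coordinate ring. -/
noncomputable abbrev functionField {n : ℕ} (P : Ideal (MvPolynomial (Fin (n + 1)) ℂ)) [P.IsPrime] :
    IntermediateField ℂ (FractionRing (MvPolynomial (Fin (n + 1)) ℂ ⧸ P)) :=
  IntermediateField.adjoin ℂ
    (Set.range fun ij : Fin (n + 1) × Fin (n + 1) => coord P ij.1 / coord P ij.2)

/-- Varieties dominated by a tower of conics and abelian torsors over a point or a curve `W_0` with orbifold structure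
not of general type have a Zariski dense entire curve; if the tower has no multiple fibres over `X` and lies over a
curve below `X` then this condition holds if `X` is special, and if `X` has a Zariski dense entire curve. -/
theorem result {m : ℕ} (P : Ideal (MvPolynomial (Fin (m + 1)) ℂ)) [P.IsPrime] (hP : IsVariety P)
    {L : Type} [Field L] [Algebra ℂ L] (J : functionField P →ₐ[ℂ] L) (t : Fin 2 → L)
    (ht : (∀ a, t a = 0) ∨ IsBase t) (h : TorsorTower t) :
    (BoundOn (Set.range t) → BrodySpecial P) ∧
    (NoMultiple ⊥ J.fieldRange ∅ → (∀ a, t a ∈ J.fieldRange) →
      (SpecialField (functionField P) → BrodySpecial P) ∧
      (BrodySpecial P → BoundOn (Set.range t))) :=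
  main_tu P hP J t ht h

end Pool.Agent.Results.MP_1209e6_ag.SpecialTowers
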